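import Mathlib

/-!
Definitions used in the statement: first-order formulas of set theory, models of ZFC,
the set-theoretic notions of the problem read inside a structure `(M, E)`, and supercompact
cardinals.
-/

namespace Pool.Agent.Lib.MP_2739cb_lc

open Cardinal

universe u v

/-- First-order formulas in the language of set theory (membership and equality), with
de Bruijn variables; `bot`, `imp`, `all` are falsity, implication and the universal quantifier. -/
inductive Fml : Type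
  | mem : ℕ → ℕ → Fml
  | eq : ℕ → ℕ → Fml
  | bot : Fml
  | imp : Fml → Fml → Fml
  | all : Fml → Fml

/-- The assignment that gives variable `0` the value `a` and variable `n + 1` the value `v n`. -/
def push {M : Type v} (a : M) (v : ℕ → M) : ℕ → M
  | 0 => a
  | n + 1 => v n

/-- Tarski satisfaction in the structure `(M, E)`, where `E x y` interprets `x ∈ y`. -/
def Sat {M : Type v} (E : M → M → Prop) : Fml → (ℕ → M) → Prop
  | .mem i j, v => E (v i) (v j)
  | .eq i j, v => v i = v j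
  | .bot, _ => False
  | .imp φ ψ, v => Sat E φ v → Sat E ψ v
  | .all φ, v => ∀ a, Sat E φ (push a v)

/-- `(M, E)` is a model of ZFC: Extensionality, Foundation, Pairing, Union, Power set, Infinity,
the Separation and Replacement schemes (for all first-order formulas with parameters), Choice. -/
structure IsZFC {M : Type v} (E : M → M → Prop) : Prop where
  extensionality : ∀ x y, (∀ z, E z x ↔ E z y) → x = y
  foundation : ∀ x, (∃ y, E y x) → ∃ y, E y x ∧ ∀ z, E z y → ¬ E z x
  pairing : ∀ x y, ∃ w, ∀ z, E z w ↔ z = x ∨ z = y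
  union : ∀ x, ∃ w, ∀ z, E z w ↔ ∃ y, E y x ∧ E z y
  powerset : ∀ x, ∃ w, ∀ z, E z w ↔ ∀ t, E t z → E t x
  infinity : ∃ w, (∃ e, E e w ∧ ∀ z, ¬ E z e) ∧
    ∀ y, E y w → ∃ s, E s w ∧ ∀ z, E z s ↔ E z y ∨ z = y
  separation : ∀ (φ : Fml) (v : ℕ → M) (x : M), ∃ w, ∀ z, E z w ↔ E z x ∧ Sat E φ (push z v)
  replacement : ∀ (φ : Fml) (v : ℕ → M) (x : M),
    (∀ a, E a x → ∃! b, Sat E φ (push b (push a v))) →
      ∃ w, ∀ b, E b w ↔ ∃ a, E a x ∧ Sat E φ (push b (push a v))
  choice : ∀ x, (∀ y, E y x → ∃ z, E z y) →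
    (∀ y y', E y x → E y' x → (∃ z, E z y ∧ E z y') → y = y') →
      ∃ c, ∀ y, E y x → ∃! z, E z y ∧ E z c

section Notions

variable {M : Type v} (E : M → M → Prop)

/-- `a ⊆ b`. -/
def Sub (a b : M) : Prop := ∀ z, E z a → E z b

/-- `p` is the Kuratowski pair `(a, b) = {{a}, {a, b}}`. -/
def IsPair (p a b : M) : Prop :=
  ∀ z, E z p ↔ (∀ t, E t z ↔ t = a) ∨ (∀ t, E t z ↔ t = a ∨ t = b)

/-- `(a, b) ∈ f`. -/
def App (f a b : M) : Prop := ∃ p, E p f ∧ IsPair E p a b

/-- `f` is a function from `A` to `B`. -/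
def IsFun (f A B : M) : Prop :=
  (∀ p, E p f → ∃ a b, E a A ∧ E b B ∧ IsPair E p a b) ∧ ∀ a, E a A → ∃! b, App E f a b

/-- `f` is an injective function from `A` to `B`. -/
def IsInj (f A B : M) : Prop :=
  IsFun E f A B ∧ ∀ a a' b, App E f a b → App E f a' b → a = a'

/-- `|A| ≤ |B|`: there is an injection from `A` to `B`. -/
def CardLe (A B : M) : Prop := ∃ f, IsInj E f A B

/-- `|A| = |B|`: there is a bijection from `A` onto `B`. -/
def CardEq (A B : M) : Prop := ∃ f, IsInj E f A B ∧ ∀ b, E b B → ∃ a, App E f a b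

/-- `α` is an ordinal: a transitive set on which membership is trichotomous (it is
well-founded by Foundation). -/
def IsOrd (α : M) : Prop :=
  (∀ x, E x α → Sub E x α) ∧ ∀ x y, E x α → E y α → E x y ∨ x = y ∨ E y x

/-- `κ` is a cardinal: an ordinal not equinumerous with a smaller ordinal. -/
def IsCard (κ : M) : Prop := IsOrd E κ ∧ ∀ α, E α κ → ¬ CardEq E α κ

/-- `κ` is an infinite cardinal: a cardinal that is a nonzero limit ordinal. -/
def IsInfCard (κ : M) : Prop :=
  IsCard E κ ∧ (∃ α, E α κ) ∧ ∀ α, E α κ → ∃ β, E β κ ∧ E α β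

/-- `cf κ < κ`: some function from an ordinal `α < κ` to `κ` has cofinal range. -/
def IsSingular (κ : M) : Prop :=
  ∃ α f, E α κ ∧ IsFun E f α κ ∧ ∀ β, E β κ → ∃ a b, App E f a b ∧ (E β b ∨ β = b)

/-- `2 ^ μ < κ` for all `μ < κ`: `κ` does not inject into the power set of any `μ < κ`. -/
def IsStrongLimit (κ : M) : Prop :=
  ∀ μ P, E μ κ → (∀ z, E z P ↔ Sub E z μ) → ¬ CardLe E κ P

/-- `μ = κ⁺`: `μ` is the least cardinal above `κ`. -/
def IsSuccCard (μ κ : M) : Prop :=
  IsCard E μ ∧ E κ μ ∧ ∀ ν, IsCard E ν → E κ ν → Sub E μ ν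

/-- `U` is a uniform ultrafilter over `κ`: an ultrafilter of subsets of `κ` all of whose
members have cardinality `κ`. -/
def IsUniformUltrafilter (U κ : M) : Prop :=
  (∀ A, E A U → Sub E A κ) ∧ E κ U ∧ (∀ A, E A U → ∃ z, E z A) ∧
  (∀ A B, E A U → Sub E A B → Sub E B κ → E B U) ∧
  (∀ A B C, E A U → E B U → (∀ z, E z C ↔ E z A ∧ E z B) → E C U) ∧
  (∀ A B, Sub E A κ → (∀ z, E z B ↔ E z κ ∧ ¬ E z A) → E A U ∨ E B U) ∧
  ∀ A, E A U → CardEq E A κ

/-- `B` is a base of `U`: `B ⊆ U` and every member of `U` contains a member of `B`. -/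
def IsBase (B U : M) : Prop := Sub E B U ∧ ∀ A, E A U → ∃ C, E C B ∧ Sub E C A

/-- The ultrafilter number of `κ` exceeds `μ`: no base of a uniform ultrafilter over `κ` has
cardinality at most `μ`. -/
def UltrafilterNumberExceeds (κ μ : M) : Prop :=
  ∀ U B, IsUniformUltrafilter E U κ → IsBase E B U → ¬ CardLe E B μ

end Notions

/-- `κ` is supercompact: it is uncountable and for every set `Θ` of size at least `κ` there is a
`κ`-complete, fine, normal ultrafilter on the subsets of `Θ` of size less than `κ`. -/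
def IsSupercompact (κ : Cardinal.{u}) : Prop :=
  ℵ₀ < κ ∧ ∀ Θ : Type u, κ ≤ #Θ →
    ∃ W : Ultrafilter {x : Set Θ // #x < κ},
      (∀ S : Set (Set {x : Set Θ // #x < κ}), #S < κ → (∀ A ∈ S, A ∈ W) → ⋂₀ S ∈ W) ∧
      (∀ a : Θ, {x | a ∈ x.1} ∈ W) ∧
      (∀ f : {x : Set Θ // #x < κ} → Θ, {x | f x ∈ x.1} ∈ W → ∃ a, {x | f x = a} ∈ W)

end Pool.Agent.Lib.MP_2739cb_lc
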