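import Pool.Agent.Lib.MP_2739cb_lc.Model

/-! Names for ordinals, ordered pairs and functions in the quotient model. -/

namespace Pool.Agent.Lib.MP_2739cb_lc

open Nm

universe u v

/-! ### Facts valid in every model of ZFC -/

section General

variable {M : Type v} {E : M → M → Prop}

theorem IsZFC.exists_isPair (h : IsZFC E) (a b : M) : ∃ p, IsPair E p a b := by
  obtain ⟨s, hs⟩ := h.pairing a a
  obtain ⟨t, ht⟩ := h.pairing a b
  obtain ⟨p, hp⟩ := h.pairing s t
  refine ⟨p, fun z => ?_⟩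
  rw [hp]
  constructor
  · rintro (rfl | rfl)
    · exact Or.inl fun x => by rw [hs, or_self]
    · exact Or.inr ht
  · rintro (h1 | h1)
    · exact Or.inl (h.extensionality _ _ fun x => by rw [h1, hs, or_self])
    · exact Or.inr (h.extensionality _ _ fun x => by rw [h1, ht])

theorem IsZFC.isPair_inj (h : IsZFC E) {p a b a' b' : M} (h1 : IsPair E p a b)
    (h2 : IsPair E p a' b') : a = a' ∧ b = b' := by
  obtain ⟨s, hs⟩ := h.pairing a a
  obtain ⟨t, ht⟩ := h.pairing a b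
  obtain ⟨t', ht'⟩ := h.pairing a' b'
  have hs' : ∀ z, E z s ↔ z = a := fun z => by rw [hs, or_self]
  have haa : a = a' := by
    rcases (h2 s).1 ((h1 s).2 (Or.inl hs')) with h3 | h3
    · exact (h3 a).1 ((hs' a).2 rfl)
    · exact ((hs' a').1 ((h3 a').2 (Or.inl rfl))).symm
  subst haa
  refine ⟨rfl, ?_⟩
  have hb : b = a ∨ b = b' := by
    rcases (h2 t).1 ((h1 t).2 (Or.inr ht)) with h3 | h3
    · exact Or.inl ((h3 b).1 ((ht b).2 (Or.inr rfl)))
    · exact (h3 b).1 ((ht b).2 (Or.inr rfl))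
  have hb' : b' = a ∨ b' = b := by
    rcases (h1 t').1 ((h2 t').2 (Or.inr ht')) with h3 | h3
    · exact Or.inl ((h3 b').1 ((ht' b').2 (Or.inr rfl)))
    · exact (h3 b').1 ((ht' b').2 (Or.inr rfl))
  rcases hb with hb | hb
  · rcases hb' with hb' | hb'
    · exact hb.trans hb'.symm
    · exact hb'.symm
  · exact hb

theorem IsZFC.app_mem (h : IsZFC E) {f A B a b : M} (hf : IsFun E f A B) (hab : App E f a b) :
    E a A ∧ E b B := by
  obtain ⟨p, hp, h1⟩ := hab
  obtain ⟨a', b', h2, h3, h4⟩ := hf.1 p hp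
  obtain ⟨rfl, rfl⟩ := h.isPair_inj h1 h4
  exact ⟨h2, h3⟩

theorem IsZFC.app_unique (h : IsZFC E) {f A B a b b' : M} (hf : IsFun E f A B)
    (hab : App E f a b) (hab' : App E f a b') : b = b' :=
  (hf.2 a (h.app_mem hf hab).1).unique hab hab'

theorem IsZFC.app_total (h : IsZFC E) {f A B a : M} (hf : IsFun E f A B) (ha : E a A) :
    ∃ b, App E f a b ∧ E b B :=
  let ⟨b, hb, _⟩ := hf.2 a ha; ⟨b, hb, (h.app_mem hf hb).2⟩

theorem IsZFC.exists_prod (h : IsZFC E) (A B : M) :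
    ∃ W, ∀ p a b, E a A → E b B → IsPair E p a b → E p W := by
  obtain ⟨t, ht⟩ := h.pairing A B
  obtain ⟨u, hu⟩ := h.union t
  obtain ⟨w, hw⟩ := h.powerset u
  obtain ⟨W, hW⟩ := h.powerset w
  refine ⟨W, fun p a b ha hb hp => (hW p).2 fun z hz => (hw z).2 fun x hx => (hu x).2 ?_⟩
  rcases (hp z).1 hz with h1 | h1
  · exact ⟨A, (ht A).2 (Or.inl rfl), (h1 x).1 hx ▸ ha⟩
  · rcases (h1 x).1 hx with rfl | rfl
    · exact ⟨A, (ht A).2 (Or.inl rfl), ha⟩
    · exact ⟨B, (ht B).2 (Or.inr rfl), hb⟩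

theorem IsZFC.not_mem_self (h : IsZFC E) (x : M) : ¬ E x x := by
  intro hx
  obtain ⟨s, hs⟩ := h.pairing x x
  obtain ⟨y, hy, h1⟩ := h.foundation s ⟨x, (hs x).2 (Or.inl rfl)⟩
  have : y = x := by simpa using (hs y).1 hy
  subst this
  exact h1 y hx hy

theorem IsZFC.exists_diff (h : IsZFC E) (x y : M) : ∃ w, ∀ z, E z w ↔ E z x ∧ ¬ E z y :=
  h.separation (.imp (.mem 0 1) .bot) (fun _ => y) x

theorem IsZFC.exists_inter (h : IsZFC E) (x y : M) : ∃ w, ∀ z, E z w ↔ E z x ∧ E z y :=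
  h.separation (.mem 0 1) (fun _ => y) x

theorem IsZFC.ord_sub (h : IsZFC E) {α β : M} (hα : ∀ x, E x α → Sub E x α) (hβ : IsOrd E β)
    (hs : Sub E α β) : α = β ∨ E α β := by
  by_cases he : α = β
  · exact Or.inl he
  right
  obtain ⟨w, hw⟩ := h.exists_diff β α
  have hne : ∃ y, E y w := by
    by_contra hc
    refine he (h.extensionality _ _ fun z => ⟨hs z, fun hz => ?_⟩)
    by_contra h1
    exact hc ⟨z, (hw z).2 ⟨hz, h1⟩⟩
  obtain ⟨γ, hγ, hmin⟩ := h.foundation w hne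
  obtain ⟨h1, h2⟩ := (hw γ).1 hγ
  have : γ = α := by
    refine h.extensionality _ _ fun z => ⟨fun hz => ?_, fun hz => ?_⟩
    · by_contra h3
      exact hmin z hz ((hw z).2 ⟨hβ.1 γ h1 z hz, h3⟩)
    · rcases hβ.2 z γ (hs z hz) h1 with h3 | h3 | h3
      · exact h3
      · exact absurd (h3 ▸ hz) h2
      · exact absurd (hα z hz γ h3) h2
  exact this ▸ h1

theorem IsZFC.ord_total (h : IsZFC E) {α β : M} (hα : IsOrd E α) (hβ : IsOrd E β) :
    Sub E α β ∨ E β α := by
  obtain ⟨δ, hδ⟩ := h.exists_inter α β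
  have ht : ∀ x, E x δ → Sub E x δ := fun x hx z hz =>
    (hδ z).2 ⟨hα.1 x ((hδ x).1 hx).1 z hz, hβ.1 x ((hδ x).1 hx).2 z hz⟩
  rcases h.ord_sub ht hα (fun z hz => ((hδ z).1 hz).1) with h1 | h1
  · exact Or.inl fun z hz => ((hδ z).1 (h1 ▸ hz)).2
  · rcases h.ord_sub ht hβ (fun z hz => ((hδ z).1 hz).2) with h2 | h2
    · exact Or.inr (h2 ▸ h1)
    · exact absurd ((hδ δ).2 ⟨h1, h2⟩) (h.not_mem_self δ)

end General

variable {P : Type u} [Preorder P]

/-! ### Pairs and application -/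

def pairR (p a b : Nm P) : RO P :=
  RO.all fun z => RO.iff (RO.mem z p) (RO.or (RO.all fun t => RO.iff (RO.mem t z) (RO.eq t a))
    (RO.all fun t => RO.iff (RO.mem t z) (RO.or (RO.eq t a) (RO.eq t b))))

instance (a b : Nm P) : Ext fun p => pairR p a b := by unfold pairR; infer_instance
instance (p b : Nm P) : Ext fun a => pairR p a b := by unfold pairR; infer_instance
instance (p a : Nm P) : Ext fun b => pairR p a b := by unfold pairR; infer_instance

def appR (f a b : Nm P) : RO P := RO.ex fun p => RO.and (RO.mem p f) (pairR p a b)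

instance (a b : Nm P) : Ext fun f => appR f a b := by unfold appR; infer_instance
instance (f b : Nm P) : Ext fun a => appR f a b := by unfold appR; infer_instance
instance (f a : Nm P) : Ext fun b => appR f a b := by unfold appR; infer_instance

variable [OrderTop P]

theorem T_pair (p a b : Nm P) : T (pairR p a b) ↔ IsPair EM (cls p) (cls a) (cls b) := by
  simp only [pairR, IsPair, T_all, T_iff, T_or, T_mem, T_eq, cls_rep]

theorem T_app (f a b : Nm P) : T (appR f a b) ↔ App EM (cls f) (cls a) (cls b) := by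
  simp only [appR, App, T_ex, T_and, T_mem, T_pair, cls_rep]

theorem M_fun (Φ : Nm P → Nm P → RO P) [∀ y, Ext fun x => Φ x y] [∀ x, Ext (Φ x)]
    (A B : Mod P) (h : ∀ a, EM a A → ∃! b, EM b B ∧ T (Φ (rep a) (rep b))) :
    ∃ f, IsFun EM f A B ∧ ∀ a b, App EM f a b ↔ EM a A ∧ EM b B ∧ T (Φ (rep a) (rep b)) := by
  obtain ⟨W, hW⟩ := M_zfc.exists_prod A B
  obtain ⟨f, hf⟩ := M_sep (fun z => RO.ex fun a => RO.ex fun b => RO.and (RO.mem a (rep A))
    (RO.and (RO.mem b (rep B)) (RO.and (pairR z a b) (Φ a b)))) W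
  simp only [T_ex, T_and, T_mem, T_pair, cls_rep] at hf
  have key : ∀ a b, App EM f a b ↔ EM a A ∧ EM b B ∧ T (Φ (rep a) (rep b)) := by
    intro a b
    constructor
    · rintro ⟨p, hp, h1⟩
      obtain ⟨-, a', b', h2, h3, h4, h5⟩ := (hf p).1 hp
      obtain ⟨rfl, rfl⟩ := M_zfc.isPair_inj h1 h4
      exact ⟨h2, h3, h5⟩
    · rintro ⟨h1, h2, h3⟩
      obtain ⟨p, hp⟩ := M_zfc.exists_isPair a b
      exact ⟨p, (hf p).2 ⟨hW p a b h1 h2 hp, a, b, h1, h2, hp, h3⟩, hp⟩
  refine ⟨f, ⟨fun p hp => ?_, fun a ha => ?_⟩, key⟩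
  · obtain ⟨-, a', b', h2, h3, h4, -⟩ := (hf p).1 hp
    exact ⟨a', b', h2, h3, h4⟩
  · obtain ⟨b, hb, hu⟩ := h a ha
    exact ⟨b, (key a b).2 ⟨ha, hb⟩, fun b' hb' => hu b' ((key a b').1 hb').2⟩

/-! ### Names for ordinals -/

noncomputable def on : Ordinal.{u} → Nm P :=
  WellFoundedLT.fix fun o rec =>
    Nm.mk o.ToType (fun a => rec (Ordinal.typein (α := o.ToType) (· < ·) a)
      (Ordinal.typein_lt_self a)) fun _ => ⊤

theorem on_eq (o : Ordinal.{u}) : (on o : Nm P) =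
    Nm.mk o.ToType (fun a => on (Ordinal.typein (α := o.ToType) (· < ·) a)) fun _ => ⊤ :=
  WellFoundedLT.fix_eq _ o

theorem on_mem {a b : Ordinal.{u}} (h : a < b) (p : P) : FMem (on a) (on b : Nm P) p := by
  intro q _
  obtain ⟨j, hj⟩ := Ordinal.typein_surj (α := b.ToType) (· < ·) (o := a) (by simpa using h)
  rw [on_eq b]
  refine ⟨q, le_rfl, j, le_top, ?_⟩
  change FEq (on a) (on (Ordinal.typein (α := b.ToType) (· < ·) j)) q
  rw [hj]
  exact FEq.refl _ _

theorem mem_on {x : Nm P} {b : Ordinal.{u}} {p : P} (h : FMem x (on b) p) :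
    ∀ q, q ≤ p → ∃ r, r ≤ q ∧ ∃ a, a < b ∧ FEq x (on a) r := by
  intro q hq
  rw [on_eq b] at h
  obtain ⟨r, hr, j, -, hj⟩ := h q hq
  exact ⟨r, hr, _, Ordinal.typein_lt_self j, hj⟩

theorem on_le (a : Ordinal.{u}) : ∀ (b : Ordinal.{u}) (p : P), FEq (on a) (on b) p → a ≤ b := by
  induction a using WellFoundedLT.induction with
  | ind a ih =>
    intro b p h
    refine le_of_forall_lt fun c hc => ?_
    obtain ⟨r, -, d, hd, h1⟩ := mem_on ((on_mem hc p).subst_right h) p le_rfl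
    exact (ih c hc d r h1).trans_lt hd

theorem on_inj {a b : Ordinal.{u}} {p : P} (h : FEq (on a) (on b : Nm P) p) : a = b :=
  le_antisymm (on_le a b p h) (on_le b a p h.symm)

theorem on_lt {a b : Ordinal.{u}} {p : P} (h : FMem (on a) (on b : Nm P) p) : a < b := by
  obtain ⟨r, -, c, hc, h1⟩ := mem_on h p le_rfl
  exact on_inj h1 ▸ hc

theorem isOrd_on (o : Ordinal.{u}) : IsOrd EM (cls (on o : Nm P)) := by
  constructor
  · have : T (RO.all fun x => RO.imp (RO.mem x (on o)) (RO.all fun z =>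
        RO.imp (RO.mem z x) (RO.mem z (on o : Nm P)))) := by
      refine T.of_forall fun p x q _ hx z r hr hz => FMem.reg fun s hs => ?_
      obtain ⟨t, ht, a, ha, h1⟩ := mem_on hx s (hs.trans hr)
      obtain ⟨t', ht', c, hc, h2⟩ :=
        mem_on ((FMem.mono hz (ht.trans hs)).subst_right h1) t le_rfl
      exact ⟨t', ht'.trans ht, (on_mem (hc.trans ha) t').subst_left h2.symm⟩
    simpa only [T_all, T_imp, T_mem, cls_rep, Sub] using this
  · have : T (RO.all fun x => RO.all fun y => RO.imp (RO.mem x (on o))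
        (RO.imp (RO.mem y (on o : Nm P))
          (RO.or (RO.mem x y) (RO.or (RO.eq x y) (RO.mem y x))))) := by
      refine T.of_forall fun p x y q _ hx r hr hy s hs => ?_
      obtain ⟨t, ht, a, -, h1⟩ := mem_on hx s (hs.trans hr)
      obtain ⟨t', ht', c, -, h2⟩ := mem_on hy t (ht.trans hs)
      have h1' := h1.mono ht'
      refine ⟨t', ht'.trans ht, ?_⟩
      rcases lt_trichotomy a c with h | h | h
      · exact Or.inl (((on_mem h t').subst_left h1'.symm).subst_right h2.symm)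
      · subst h
        exact Or.inr (RO.or_inl (h1'.trans h2.symm))
      · exact Or.inr (RO.or_inr (((on_mem h t').subst_left h2.symm).subst_right h1'.symm))
    simpa only [T_all, T_imp, T_mem, T_or, T_eq, cls_rep] using this

theorem EM_on {a b : Ordinal.{u}} (h : a < b) : EM (cls (on a)) (cls (on b : Nm P)) :=
  (T_mem _ _).1 (T.of_forall (on_mem h))

end Pool.Agent.Lib.MP_2739cb_lc
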