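import Pool.Agent.Lib.MP_2739cb_lc.Good
import Pool.Agent.Lib.MP_2739cb_lc.Ords

-- part Pool.Agent.Lib.MP_2739cb_lc.Split
section

/-! The splitting lemma: `2 ^ κ` many names for large subsets of `K` are split by one name. -/

namespace Pool.Agent.Lib.MP_2739cb_lc

open Cardinal Filter Set Cond

universe u v

variable {K : Type u} [LinearOrder K] [SC K] [WellFoundedLT K]

section Colour

variable (decF : K → K → K) (enc : Set K → K) (dec : K → Set K) (aι aφ e : ℕ → DD K)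

def zz (F : DD K → ℕ → K) (m : ℕ) (γ : K) : ℕ → K
  | 0 => γ
  | t + 1 => proj enc dec (decF (F (aι t) (m - t))) (F (e (t + 1)) (m - t - 1)) (zz F m γ t)

def vv (F : DD K → ℕ → K) (m : ℕ) (γ : K) (t : ℕ) : K :=
  decF (F (aφ t) (m - t)) (zz decF enc dec aι e F m γ t)

def col (F : DD K → ℕ → K) (m : ℕ) (γ : K) : Prop :=
  ∃ t, vv decF enc dec aι aφ e F m γ t = nx (F (e (t + 1)) (m - t - 1)) ∧
    ∀ t', t' < t → vv decF enc dec aι aφ e F m γ t' ≠ F (e (t' + 1)) (m - t' - 1)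

def blk (F : DD K → ℕ → K) (γ : K) (m : ℕ) : Prop :=
  γ < F rho (m + 1) ∧ ∀ m', m' < m → ¬ γ < F rho (m' + 1)

variable {decF enc dec aι aφ e}

omit [SC K] in
theorem blk_unique {F : DD K → ℕ → K} {γ : K} {m m' : ℕ} (h : blk F γ m) (h' : blk F γ m') :
    m = m' := by
  rcases lt_trichotomy m m' with h1 | h1 | h1
  · exact absurd h.1 (h'.2 m h1)
  · exact h1
  · exact absurd h'.1 (h.2 m' h1)

omit [SC K] in
theorem blk_congr {F F' : DD K → ℕ → K} {γ : K} {m : ℕ}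
    (h : ∀ n, n ≤ m + 1 → F' rho n = F rho n) (h1 : blk F γ m) : blk F' γ m :=
  ⟨by rw [h _ le_rfl]; exact h1.1, fun m' hm => by rw [h _ (by omega)]; exact h1.2 m' hm⟩

omit [SC K] [WellFoundedLT K] in
theorem zz_congr {F F' : DD K → ℕ → K} {γ : K} {m : ℕ}
    (h1 : ∀ t n, n ≤ m → F' (aι t) n = F (aι t) n) (h2 : ∀ t n, n ≤ m → F' (e t) n = F (e t) n)
    (t : ℕ) : zz decF enc dec aι e F' m γ t = zz decF enc dec aι e F m γ t := by
  induction t with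
  | zero => rfl
  | succ t ih => rw [zz, zz, ih, h1 _ _ (by omega), h2 _ _ (by omega)]

theorem col_congr {F F' : DD K → ℕ → K} {γ : K} {m : ℕ}
    (h1 : ∀ t n, n ≤ m → F' (aι t) n = F (aι t) n) (h2 : ∀ t n, n ≤ m → F' (e t) n = F (e t) n)
    (h3 : ∀ t n, n ≤ m → F' (aφ t) n = F (aφ t) n) :
    col decF enc dec aι aφ e F' m γ ↔ col decF enc dec aι aφ e F m γ := by
  have h4 : ∀ t, vv decF enc dec aι aφ e F' m γ t = vv decF enc dec aι aφ e F m γ t := fun t => by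
    rw [vv, vv, zz_congr h1 h2, h3 _ _ (by omega)]
  have h5 : ∀ t, F' (e (t + 1)) (m - t - 1) = F (e (t + 1)) (m - t - 1) := fun t =>
    h2 _ _ (by omega)
  simp only [col, h4, h5]

end Colour

omit [SC K] [WellFoundedLT K] [LinearOrder K] in
theorem anc_unique {s : II K → Set (DD K)} {A : St K → Set (II K)} {σ υ υ' τ : St K}
    (h1 : Reach s A σ υ) (h2 : Reach s A σ υ') (h3 : Reach s A υ τ) (h4 : Reach s A υ' τ)
    (h : υ.len = υ'.len) : υ = υ' := by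
  refine St.ext h (funext fun a => funext fun n => ?_)
  rcases lt_or_ge n υ.len with h5 | h5
  · rw [← h3.F_lt a h5, h4.F_lt a (h ▸ h5)]
  · rw [h1.F_ge a h5, h2.F_ge a (h ▸ h5)]

omit [SC K] [WellFoundedLT K] [LinearOrder K] in
theorem exists_path {s : II K → Set (DD K)} {A : St K → Set (II K)} {σ τ : St K} (x₀ : II K)
    (h : Reach s A σ τ) : ∃ (υ : ℕ → St K) (xs : ℕ → II K),
      (∀ j, σ.len ≤ j → j < τ.len → Reach s A σ (υ j) ∧ (υ j).len = j ∧ xs j ∈ A (υ j) ∧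
        Reach s A ((υ j).step s (xs j)) τ) ∧
      ∀ j, σ.len ≤ j → j + 1 < τ.len → υ (j + 1) = (υ j).step s (xs j) := by
  have : ∀ j, ∃ υ x, σ.len ≤ j → j < τ.len → Reach s A σ υ ∧ υ.len = j ∧ x ∈ A υ ∧
      Reach s A (υ.step s x) τ := by
    intro j
    by_cases hj : σ.len ≤ j ∧ j < τ.len
    · obtain ⟨υ, x, h1⟩ := h.exists_anc hj.1 hj.2
      exact ⟨υ, x, fun _ _ => h1⟩
    · exact ⟨σ, x₀, fun h1 h2 => absurd ⟨h1, h2⟩ hj⟩
  choose υ xs h1 using this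
  refine ⟨υ, xs, h1, fun j h2 h3 => ?_⟩
  obtain ⟨h4, h5, h6, h7⟩ := h1 j h2 (by omega)
  obtain ⟨h8, h9, h10, h11⟩ := h1 (j + 1) (by omega) h3
  exact anc_unique h8 (h4.step h6) ((Reach.base.step h10).trans h11) h7 (by simp [h5, h9])

theorem splitting {Ξ : Type u} (hΞ : #Ξ ≤ 2 ^ #K) (b : Ξ → K → RO (Cond K)) :
    ∃ X : K → RO (Cond K), ∀ ξ r,
      (∀ r', r' ≤ r → ∀ c < #K, ∃ r'', r'' ≤ r' ∧ ∃ T : Set K, c ≤ #T ∧ ∀ γ ∈ T, (b ξ γ).s r'') →
      ∃ r', r' ≤ r ∧ ∃ γ₀ γ₁, (b ξ γ₀).s r' ∧ (X γ₀).s r' ∧ (b ξ γ₁).s r' ∧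
        (RO.not (X γ₁)).s r' := by
  classical
  obtain ⟨Λ, ξf, q, hΛ, hG, hpre⟩ := exists_family hΞ (fun ξ q => ∃ Bs, Good (b ξ) q Bs)
    fun ξ p => exists_good (b ξ) p
  choose Bs hBs using hG
  obtain ⟨enc, dec, hd⟩ := exists_dec (K := K) (α := K) le_rfl
  obtain ⟨decF, hdF⟩ := exists_decF (K := K)
  let G := Λ × St K × ℕ
  let Γ : Set G := {g | (q g.1).R g.2.1}
  have hΓ : #Γ ≤ 2 ^ #K := by
    have : Γ ⊆ ⋃ l : Λ, ⋃ τ : {τ | (q l).R τ}, range fun n : ULift.{u} ℕ => (l, τ.1, n.down) := by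
      rintro ⟨l, τ, n⟩ hg
      exact mem_iUnion.2 ⟨l, mem_iUnion.2 ⟨⟨τ, hg⟩, ⟨n⟩, rfl⟩⟩
    refine (mk_le_mk_of_subset this).trans (mk_iUnion_le_of_le _ aleph0_le_two_pow hΛ fun l =>
      mk_iUnion_le_of_le _ aleph0_le_two_pow ((mk_reach_le _).trans (cantor _).le) fun τ =>
        mk_range_le.trans ?_)
    simpa using aleph0_le_two_pow
  let nxtG : G → II K → G := fun g x => (g.1, g.2.1.step (q g.1).s x, g.2.2)
  let wG : G → Cardinal.{u} := fun g => wk (g.2.1.F rho g.2.2)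
  let U : G → Set K := fun g =>
    {γ | γ ∈ Bs g.1 g.2.1 ∧ ∀ m', m' + 1 < g.2.1.len → ¬ γ < g.2.1.F rho (m' + 1)}
  have hT : ∀ g, ∃ T : Set K, T ⊆ U g ∧ #T ≤ wG g ∧ (wG g ≤ #(U g) → #T = wG g) := by
    intro g
    by_cases h : wG g ≤ #(U g)
    · obtain ⟨T, h1, h2⟩ := le_mk_iff_exists_subset.1 h
      exact ⟨T, h1, h2.le, fun _ => h2⟩
    · exact ⟨∅, empty_subset _, by simp, fun h' => absurd h' h⟩
  choose T₀ hT1 hT2 hT3 using hT
  obtain ⟨Y, e, ι, φ, h, hY0, hι, hφ, hfin, hint, hsup⟩ := exists_system Γ hΓ nxtG wG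
    (fun g => wk_lt _) (fun g => g.2.2 < g.2.1.len)
    (fun g x hg => by simp only [wG, nxtG]; rw [St.step_F_ne _ _ _ _ hg.ne]) T₀ hT2 hd
  choose aι haι using fun t x => hdF (ι t x) (hι t x)
  choose aφ haφ using fun t x => hdF (φ t x) (hφ t x)
  let Z : Set (DD K) := {rho} ∪ ⋃ t : ULift.{u} ℕ, {aι t.down, aφ t.down, e t.down}
  have hZ : #Z < #K := mk_union_lt_K (mk_singleton_lt _) (mk_iUnion_lt_K _ (by simpa using SC.unc)
    fun t => (Set.toFinite _).lt_aleph0.trans SC.unc)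
  have hZ0 : (rho : DD K) ∈ Z := Or.inl rfl
  have hZ1 : ∀ t, aι t ∈ Z := fun t => Or.inr (mem_iUnion.2 ⟨⟨t⟩, Or.inl rfl⟩)
  have hZ2 : ∀ t, aφ t ∈ Z := fun t => Or.inr (mem_iUnion.2 ⟨⟨t⟩, Or.inr (Or.inl rfl)⟩)
  have hZ3 : ∀ t, e t ∈ Z := fun t => Or.inr (mem_iUnion.2 ⟨⟨t⟩, Or.inr (Or.inr rfl)⟩)
  let XX : Prop → K → Cond K → Prop := fun ε γ p => Z ⊆ p.d ∧ ∃ m, m + 1 < p.σ.len ∧
    blk p.σ.F γ m ∧ (col decF enc dec aι aφ e p.σ.F m γ ↔ ε)
  have hXX : ∀ ε γ p p', p' ≤ p → XX ε γ p → XX ε γ p' := by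
    rintro ε γ p p' hp ⟨h1, m, h2, h3, h4⟩
    have h5 : ∀ a ∈ Z, ∀ n, n ≤ m + 1 → p'.σ.F a n = p.σ.F a n := fun a ha n hn =>
      le_F hp (h1 ha) (by omega)
    refine ⟨h1.trans hp.1, m, h2.trans_le (le_len hp), blk_congr (h5 _ hZ0) h3, ?_⟩
    rw [col_congr (fun t n hn => h5 _ (hZ1 t) n (by omega))
      (fun t n hn => h5 _ (hZ3 t) n (by omega)) fun t n hn => h5 _ (hZ2 t) n (by omega)]
    exact h4
  refine ⟨fun γ => RO.dense (XX True γ), fun ξ r hlarge => ?_⟩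
  suffices H : ∃ r', r' ≤ r ∧ ∃ γ₀ γ₁, (b ξ γ₀).s r' ∧ XX True γ₀ r' ∧ (b ξ γ₁).s r' ∧
      XX False γ₁ r' by
    obtain ⟨r', h1, γ₀, γ₁, h2, h3, h4, h5⟩ := H
    refine ⟨r', h1, γ₀, γ₁, h2, RO.dense_intro (hXX _ _) h3, h4, fun s hs h6 => ?_⟩
    obtain ⟨s', hs', -, m, -, h7, h8⟩ := h6 s le_rfl
    obtain ⟨-, m', -, h9, h10⟩ := hXX _ _ _ _ (hs'.trans hs) h5
    rw [blk_unique h7 h9] at h8
    exact h10.1 (h8.2 trivial)
  obtain ⟨l, rfl, hl1, hl2⟩ := hpre r ξ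
  obtain ⟨r₀, hr₀, hr₀', -⟩ := exists_dle_two r (q l) hl1 hl2 ∅ (by simp)
  obtain ⟨r₁, hr₁, hH₁⟩ := exists_has hZ r₀
  have hr₁q : r₁ ≤ q l := hr₁.1.trans hr₀'.1
  let gg : St K → ℕ → G := fun τ n => (l, τ.res (q l).d, n)
  obtain ⟨r', hr', -, -, -, hB⟩ := exists_shrink r₁ (fun τ x => ∀ t n,
      (#(Y t (nxtG (gg τ n) x) (e t x)) = wk (rho x) →
        ∀ k, k < rho x → ∃ z ∈ Y t (nxtG (gg τ n) x) (e t x), φ t x z = k) ∧
      (n < τ.len → h t (gg τ n) ≤ τ.F (e (t + 1)) (τ.len - 1) →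
        InjOn (proj enc dec (ι t x) (τ.F (e (t + 1)) (τ.len - 1))) (Y t (nxtG (gg τ n) x) (e t x)) ∧
        proj enc dec (ι t x) (τ.F (e (t + 1)) (τ.len - 1)) '' Y t (nxtG (gg τ n) x) (e t x) =
          Y (t + 1) (gg τ n) (τ.F (e (t + 1)) (τ.len - 1)) ∧
        ∀ z ∈ Y t (nxtG (gg τ n) x) (e t x), φ t x z < τ.F (e (t + 1)) (τ.len - 1)) ∧
      h t (nxtG (gg τ n) x) ≤ e (t + 1) x ∧ nx (τ.F (e (t + 1)) (τ.len - 1)) < rho x ∧
      ∀ γ ∈ T₀ (gg τ n), γ < rho x) fun τ hτ => by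
    have hg : ∀ n, gg τ n ∈ Γ := fun n => le_reach hr₁q hτ
    exact ae_nat fun t => ae_nat fun n => (hfin t _ (hg n)).and
      ((ae_imp fun h1 => ae_imp fun h2 => hint t _ (hg n) h1 _ h2).and ((hsup t _ (hg n)).and
        ((ae_lt_rho _).and (ae_set_lt_rho ((hT2 _).trans_lt (wk_lt _))))))
  have hr'q : r' ≤ q l := hr'.1.trans hr₁q
  have hr'r : r' ≤ r := hr'.1.trans (hr₁.1.trans hr₀.1)
  have hH : Has Z r' := hH₁.mono hr'.1
  let n := r'.σ.len + 1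
  obtain ⟨r₂, hr₂, -, hlen₂⟩ := exists_le_len r' (n + 1)
  obtain ⟨kb, hkb⟩ := bounded_fam (fun j : ULift.{u} (Fin (n + 1)) => r₂.σ.F rho j.down)
    ((lt_aleph0_of_finite _).trans SC.unc)
  let w := wk (r₂.σ.F rho n)
  let c₀ := max (max w #(Iio kb)) ℵ₀
  have hc₀ : c₀ < #K := max_lt (max_lt (wk_lt _) (SC.iio _)) SC.unc
  obtain ⟨r₃, hr₃, T', hT'1, hT'2⟩ := hlarge r₂ (hr₂.trans hr'r) _ (succ_lt_K hc₀)
  obtain ⟨T, hT4, hT5⟩ := le_mk_iff_exists_subset.1 hT'1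
  obtain ⟨xl, hxl, hxl'⟩ := r₃.exists_mem_A r₃.σ (ae_set_lt_rho (hT5.trans_lt (succ_lt_K hc₀)))
  let r₄ := r₃.nxt xl
  have hr₄₃ : r₄ ≤ r₃ := nxt_le hxl
  have hr₄₂ : r₄ ≤ r₂ := hr₄₃.trans hr₃
  have hr₄ : r₄ ≤ r' := hr₄₂.trans hr₂
  obtain ⟨M, hM⟩ : ∃ M, r₃.σ.len = M + 1 := ⟨r₃.σ.len - 1, by have := le_len hr₃; omega⟩
  have hMn : n ≤ M := by have := le_len hr₃; omega
  have hlen₄ : r₄.σ.len = M + 2 := by simp only [r₄]; rw [nxt_σ hxl, St.step_len, hM]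
  let F := r₄.σ.F
  have hFM : F rho (M + 1) = rho xl := by
    simp only [F, r₄]
    rw [nxt_σ hxl, ← hM]
    exact St.step_F_self _ ((hH.mono (hr₃.trans hr₂)).2 _ Reach.base _ hxl hZ0)
  have hF₂ : ∀ j, j ≤ n → F rho j = r₂.σ.F rho j := fun j hj =>
    le_F hr₄₂ ((hH.mono hr₂).1 hZ0) (by omega)
  -- a block with many points of `T`
  obtain ⟨m, hm1, hm2, hm3⟩ : ∃ m, n ≤ m ∧ m ≤ M ∧ w ≤ #{γ | γ ∈ T ∧ blk F γ m} := by
    by_contra hcon
    push Not at hcon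
    have h1 : T ⊆ Iio kb ∪ ⋃ j : ULift.{u} (Fin (M + 1)),
        {γ | n ≤ j.down ∧ γ ∈ T ∧ blk F γ j.down} := by
      intro γ hγ
      by_cases h2 : γ < kb
      · exact Or.inl h2
      · have h3 : ∃ j, γ < F rho (j + 1) := ⟨M, hFM ▸ hxl' γ hγ⟩
        have h4 : Nat.find h3 ≤ M := Nat.find_min' h3 (hFM ▸ hxl' γ hγ)
        refine Or.inr (mem_iUnion.2 ⟨⟨⟨Nat.find h3, by omega⟩⟩, ?_, hγ, Nat.find_spec h3,
          fun m' hm' => Nat.find_min h3 hm'⟩)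
        by_contra h5
        have h6 := Nat.find_spec h3
        rw [hF₂ _ (by simpa using h5)] at h6
        exact h2 (h6.trans (hkb ⟨⟨Nat.find h3 + 1, by simpa using h5⟩⟩))
    have h2 : #T ≤ c₀ := by
      refine (mk_le_mk_of_subset h1).trans ((mk_union_le _ _).trans (add_le_of_le (le_max_right _ _)
        ((le_max_right _ _).trans (le_max_left _ _)) (mk_iUnion_le_of_le _ (le_max_right _ _)
          ((lt_aleph0_of_finite _).le.trans (le_max_right _ _)) fun j => ?_)))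
      by_cases hj : n ≤ j.down
      · refine le_trans (mk_le_mk_of_subset fun γ hγ => hγ.2)
          ((hcon _ hj (by have := j.down.2; omega)).le.trans
            ((le_max_left _ _).trans (le_max_left _ _)))
      · have : {γ | n ≤ j.down ∧ γ ∈ T ∧ blk F γ j.down} = ∅ :=
          eq_empty_of_forall_notMem fun γ hγ => hj hγ.1
        rw [this]; simp
    exact absurd (hT5 ▸ h2) (not_le.2 (Order.lt_succ c₀))
  -- the path from `r'` to `r₄`
  have hσ₄ : r'.R (r₄.σ.res r'.d) := hr₄.2.1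
  obtain ⟨υ, xs, hp1, hp2⟩ := exists_path xl hσ₄
  simp only [St.res_len, hlen₄] at hp1 hp2
  have hυF : ∀ j, r'.σ.len ≤ j → j < M + 2 → ∀ a ∈ Z, ∀ i, i < j → (υ j).F a i = F a i := by
    intro j h1 h2 a ha i hi
    obtain ⟨-, h4, h5, h6⟩ := hp1 j h1 h2
    rw [← ((Reach.base.step h5).trans h6).F_lt a (h4.symm ▸ hi), St.res_F _ (hH.1 ha)]
  have hFx : ∀ j, r'.σ.len ≤ j → j < M + 2 → ∀ a ∈ Z, F a j = a (xs j) := by
    intro j h1 h2 a ha
    obtain ⟨h3, h4, h5, h6⟩ := hp1 j h1 h2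
    have h7 := h6.F_lt a (n := j) (by simp [h4])
    rw [St.res_F _ (hH.1 ha)] at h7
    rw [show F a j = _ from h7]
    conv_lhs => rw [← h4]
    rw [h4]
    have := St.step_F_self (υ j) (hH.2 _ h3 _ h5 ha)
    rwa [h4] at this
  have hgg : ∀ j, r'.σ.len ≤ j → j + 1 < M + 2 → nxtG (gg (υ j) n) (xs j) = gg (υ (j + 1)) n := by
    intro j h1 h2
    obtain ⟨h3, -, h5, -⟩ := hp1 j h1 (by omega)
    simp only [nxtG, gg]
    rw [hp2 j h1 h2, St.res_step _ (le_s hr'q h3 h5)]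
  have hn : n = r'.σ.len + 1 := rfl
  -- the set captured at block `m`
  obtain ⟨hq1, hq2, hq3, hq4⟩ := hp1 (m + 1) (by omega) (by omega)
  have hdec : ∀ γ, γ < rho (xs (m + 1)) →
      (γ ∈ Bs l ((υ (m + 1)).res (q l).d) → (b (ξf l) γ).s r₄) ∧
      (γ ∉ Bs l ((υ (m + 1)).res (q l).d) → (RO.not (b (ξf l) γ)).s r₄) := by
    intro γ hγ
    have h1 : r₄ ≤ (q l).mv (((υ (m + 1)).res (q l).d).step (q l).s (xs (m + 1))) := by
      have h2 := le_mv_of_reach hr₄ (R.res_eq (hq1.step hq3)) hq4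
      have h3 := mv_le_mv hr'q (hq1.step hq3)
      rw [← mv_res (q l) subset_rfl, St.res_step _ (le_s hr'q hq1 hq3)] at h3
      exact h2.trans h3
    have h2 := (hBs l).2 _ (le_reach hr'q hq1) _ (le_A hr'q hq1 hq3) γ hγ
    exact ⟨fun h3 => RO.mono (h2.1 h3) h1,
      fun h3 => RO.mono (a := RO.not (b (ξf l) γ)) (h2.2 h3) h1⟩
  have hrq : (rho : DD K) ∈ (q l).d := (hBs l).1.1 rfl
  have hgF : ∀ i, i < m + 1 → ((υ (m + 1)).res (q l).d).F rho i = F rho i := fun i hi => by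
    rw [St.res_F _ hrq, hυF _ (by omega) (by omega) _ hZ0 i hi]
  have hwG : wG (gg (υ (m + 1)) n) = w := by
    simp only [wG, gg, w]
    rw [hgF n (by omega), hF₂ n le_rfl]
  have hcard : #(T₀ (gg (υ (m + 1)) n)) = w := by
    rw [← hwG]
    apply hT3
    rw [hwG]
    refine hm3.trans (mk_le_mk_of_subset fun γ hγ => ⟨?_, fun m' hm' => ?_⟩)
    · by_contra h1
      refine (hdec γ ?_).2 h1 r₄ le_rfl (RO.mono (hT'2 γ (hT4 hγ.1)) hr₄₃)
      rw [← hFx (m + 1) (by omega) (by omega) _ hZ0]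
      exact hγ.2.1
    · simp only [gg, St.res_len, hq2] at hm' ⊢
      rw [hgF _ hm']
      exact hγ.2.2 m' (by omega)
  have hT₀ : ∀ γ ∈ T₀ (gg (υ (m + 1)) n), (b (ξf l) γ).s r₄ ∧ blk F γ m := by
    intro γ hγ
    have h1 := (hB _ hq1 _ hq3 0 n).2.2.2.2 γ hγ
    refine ⟨(hdec γ h1).1 (hT1 _ hγ).1, ?_, fun m' hm' => ?_⟩
    · rwa [hFx (m + 1) (by omega) (by omega) _ hZ0]
    · have h2 := (hT1 _ hγ).2 m' (by simp only [gg, St.res_len, hq2]; omega)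
      simp only [gg] at h2
      rwa [hgF _ (by omega)] at h2
  -- descending through the levels
  have hdesc : ∀ t, t ≤ m - n →
      InjOn (fun γ => zz decF enc dec aι e F m γ t) (T₀ (gg (υ (m + 1)) n)) ∧
      (fun γ => zz decF enc dec aι e F m γ t) '' T₀ (gg (υ (m + 1)) n) =
        Y t (gg (υ (m - t + 1)) n) (e t (xs (m - t))) ∧
      ∀ t', t' < t → ∀ γ ∈ T₀ (gg (υ (m + 1)) n),
        vv decF enc dec aι aφ e F m γ t' < F (e (t' + 1)) (m - t' - 1) := by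
    intro t
    induction t with
    | zero =>
      intro _
      exact ⟨fun _ _ _ _ h => h, by simp [zz, hY0], fun t' ht' => absurd ht' (Nat.not_lt_zero _)⟩
    | succ t ih =>
      intro ht
      obtain ⟨ih1, ih2, ih3⟩ := ih (by omega)
      obtain ⟨j, hj⟩ : ∃ j, m - t = j + 1 := ⟨m - t - 1, by omega⟩
      obtain ⟨h1, h2, h3, -⟩ := hp1 (j + 1) (by omega) (by omega)
      obtain ⟨h4, -, h5, -⟩ := hp1 j (by omega) (by omega)
      have hη : (υ (j + 1)).F (e (t + 1)) ((υ (j + 1)).len - 1) = e (t + 1) (xs j) := by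
        rw [h2, Nat.add_sub_cancel, hυF _ (by omega) (by omega) _ (hZ3 _) j (by omega),
          hFx j (by omega) (by omega) _ (hZ3 _)]
      have h6 := (hB _ h4 _ h5 t n).2.2.1
      rw [hgg j (by omega) (by omega)] at h6
      obtain ⟨h7, h8, h9⟩ := (hB _ h1 _ h3 t n).2.1 (by omega) (by rw [hη]; exact h6)
      rw [hη, hgg (j + 1) (by omega) (by omega)] at h7 h8 h9
      rw [hj] at ih2
      have hz : ∀ γ, zz decF enc dec aι e F m γ (t + 1) =
          proj enc dec (ι t (xs (j + 1))) (e (t + 1) (xs j)) (zz decF enc dec aι e F m γ t) := by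
        intro γ
        rw [zz, hj, Nat.add_sub_cancel, hFx (j + 1) (by omega) (by omega) _ (hZ1 _), haι,
          hFx j (by omega) (by omega) _ (hZ3 _)]
      have hmem : ∀ γ ∈ T₀ (gg (υ (m + 1)) n), zz decF enc dec aι e F m γ t ∈
          Y t (gg (υ (j + 1 + 1)) n) (e t (xs (j + 1))) := fun γ hγ => ih2 ▸ ⟨γ, hγ, rfl⟩
      refine ⟨fun γ hγ γ' hγ' h10 => ?_, ?_, fun t' ht' γ hγ => ?_⟩
      · simp only [hz] at h10
        exact ih1 hγ hγ' (h7 (hmem γ hγ) (hmem γ' hγ') h10)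
      · rw [show m - (t + 1) = j by omega, ← h8, ← ih2, image_image]
        simp only [hz]
      · rcases (Nat.le_of_lt_succ ht').eq_or_lt with rfl | h10
        · rw [vv, hj, Nat.add_sub_cancel, hFx (j + 1) (by omega) (by omega) _ (hZ2 _), haφ,
            hFx j (by omega) (by omega) _ (hZ3 _)]
          exact h9 _ (hmem γ hγ)
        · exact ih3 t' h10 γ hγ
  obtain ⟨hd1, hd2, hd3⟩ := hdesc (m - n) le_rfl
  have hmn : m - (m - n) = n := by omega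
  rw [hmn] at hd2
  obtain ⟨h1, h2, h3, -⟩ := hp1 n (by omega) (by omega)
  have h4 := (hB _ h1 _ h3 (m - n) n).1
  rw [hgg n (by omega) (by omega), ← hd2, mk_image_eq_of_injOn _ _ hd1, hcard] at h4
  have h5 := h4 (by simp only [w]; rw [← hF₂ n le_rfl, hFx n (by omega) (by omega) _ hZ0])
  have h6 := (hB _ h1 _ h3 (m - n) n).2.2.2.1
  rw [h2, hυF n (by omega) (by omega) _ (hZ3 _) (n - 1) (by omega)] at h6
  have hvv : ∀ γ, vv decF enc dec aι aφ e F m γ (m - n) =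
      φ (m - n) (xs n) (zz decF enc dec aι e F m γ (m - n)) := fun γ => by
    rw [vv, hmn, hFx n (by omega) (by omega) _ (hZ2 _), haφ]
  obtain ⟨_, ⟨γ₀, hγ₀, rfl⟩, h7⟩ := h5 _ h6
  obtain ⟨_, ⟨γ₁, hγ₁, rfl⟩, h8⟩ := h5 _ ((lt_nx _).trans h6)
  have hZ₄ : Z ⊆ r₄.d := (hH.mono hr₄).1
  refine ⟨r₄, hr₄.trans hr'r, γ₀, γ₁, (hT₀ _ hγ₀).1, ⟨hZ₄, m, by omega, (hT₀ _ hγ₀).2,
    iff_true_intro ⟨m - n, ?_, fun t' ht' => (hd3 t' ht' _ hγ₀).ne⟩⟩, (hT₀ _ hγ₁).1,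
    ⟨hZ₄, m, by omega, (hT₀ _ hγ₁).2, iff_false_intro ?_⟩⟩
  · rw [hvv, hmn]; exact h7
  · rintro ⟨t, h9, h10⟩
    rcases lt_trichotomy t (m - n) with h11 | h11 | h11
    · exact absurd ((hd3 t h11 _ hγ₁).trans (lt_nx _)) (by rw [← h9]; exact lt_irrefl _)
    · subst h11
      rw [hvv, hmn] at h9
      exact (lt_nx _).ne (h8.symm.trans h9)
    · apply h10 _ h11
      rw [hvv, hmn]; exact h8

end Pool.Agent.Lib.MP_2739cb_lc
end

-- part Pool.Agent.Lib.MP_2739cb_lc.Bridge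
section

/-! The cardinal `K` in the quotient model: an infinite singular strong limit cardinal. -/

namespace Pool.Agent.Lib.MP_2739cb_lc

open Cardinal Filter Set Nm Cond

universe u v

variable {K : Type u} [LinearOrder K] [SC K] [WellFoundedLT K]

noncomputable def oK (k : K) : Ordinal.{u} := Ordinal.typein (α := K) (· < ·) k

variable (K) in
noncomputable def kap : Ordinal.{u} := Ordinal.type (α := K) (· < ·)

noncomputable def nk (k : K) : Nm (Cond K) := on (oK k)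

variable (K) in
noncomputable def lamN : Nm (Cond K) := on (kap K)

omit [SC K] in
theorem oK_lt_kap (k : K) : oK k < kap K := Ordinal.typein_lt_type _ k

omit [SC K] in
theorem oK_lt_oK {a b : K} : oK a < oK b ↔ a < b := Ordinal.typein_lt_typein _

omit [SC K] in
theorem exists_oK {a : Ordinal.{u}} (h : a < kap K) : ∃ k : K, oK k = a :=
  Ordinal.typein_surj _ h

omit [SC K] in
theorem card_kap : (kap K).card = #K := Ordinal.card_type _

theorem mem_lam {x : Nm (Cond K)} {p : Cond K} (h : FMem x (lamN K) p) :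
    ∀ q, q ≤ p → ∃ r, r ≤ q ∧ ∃ k, FEq x (nk k) r := by
  intro q hq
  obtain ⟨r, hr, a, ha, h1⟩ := mem_on h q hq
  obtain ⟨k, rfl⟩ := exists_oK ha
  exact ⟨r, hr, k, h1⟩

theorem mem_nk {x : Nm (Cond K)} {k : K} {p : Cond K} (h : FMem x (nk k) p) :
    ∀ q, q ≤ p → ∃ r, r ≤ q ∧ ∃ z, z < k ∧ FEq x (nk z) r := by
  intro q hq
  obtain ⟨r, hr, a, ha, h1⟩ := mem_on h q hq
  obtain ⟨z, rfl⟩ := exists_oK (ha.trans (oK_lt_kap k))
  exact ⟨r, hr, z, oK_lt_oK.1 ha, h1⟩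

theorem nk_mem_lam (k : K) (p : Cond K) : FMem (nk k) (lamN K) p := on_mem (oK_lt_kap k) p

theorem nk_inj {a b : K} {p : Cond K} (h : FEq (nk a) (nk b) p) : a = b :=
  Ordinal.typein_injective _ (on_inj h)

theorem nk_lt {a b : K} {p : Cond K} (h : FMem (nk a) (nk b) p) : a < b :=
  oK_lt_oK.1 (on_lt h)

theorem nk_mem_nk {a b : K} (h : a < b) (p : Cond K) : FMem (nk a) (nk b) p :=
  on_mem (oK_lt_oK.2 h) p

/-! ### The generic cofinal sequence -/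

theorem exists_cof (p : Cond K) (γ : K) :
    ∃ q, q ≤ p ∧ ∃ m, (rho : DD K) ∈ q.d ∧ m < q.σ.len ∧ γ < q.σ.F rho m := by
  obtain ⟨p₁, h1, h2⟩ := exists_has (mk_singleton_lt (K := K) (rho : DD K)) p
  obtain ⟨x, hx, h3⟩ := p₁.exists_mem_A p₁.σ (ae_lt_rho γ)
  refine ⟨p₁.nxt x, (nxt_le hx).trans h1.1, p₁.σ.len, h2.1 rfl, ?_, ?_⟩
  · rw [nxt_σ hx]; exact Nat.lt_succ_self _
  · rw [nxt_σ hx, St.step_F_self _ (h2.2 _ Reach.base x hx rfl)]; exact h3

theorem exists_len (p : Cond K) (m : ℕ) :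
    ∃ q, q ≤ p ∧ (rho : DD K) ∈ q.d ∧ m < q.σ.len := by
  obtain ⟨p₁, h1, h2⟩ := exists_has (mk_singleton_lt (K := K) (rho : DD K)) p
  obtain ⟨q, h3, h4, h5⟩ := exists_le_len p₁ (m + 1)
  exact ⟨q, h3.trans h1.1, h4 ▸ h2.1 rfl, h5⟩

/-- The `m`-th point of the generic sequence is `k`. -/
def val (m : ℕ) (k : K) : RO (Cond K) :=
  RO.dense fun q => (rho : DD K) ∈ q.d ∧ m < q.σ.len ∧ q.σ.F rho m = k

theorem val_intro {q : Cond K} {m : ℕ} (h1 : (rho : DD K) ∈ q.d) (h2 : m < q.σ.len) :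
    (val m (q.σ.F rho m)).s q :=
  fun r hr => ⟨r, le_rfl, le_d hr h1, h2.trans_le (le_len hr), le_F hr h1 h2⟩

theorem val_unique {q : Cond K} {m : ℕ} {k k' : K} (h1 : (val m k).s q) (h2 : (val m k').s q) :
    k = k' := by
  obtain ⟨r, hr, h3, h4, h5⟩ := h1 q le_rfl
  obtain ⟨t, ht, -, -, h6⟩ := h2 r hr
  rw [← h5, ← h6, le_F ht h3 h4]

theorem pigeon {J : Type u} {c : Cardinal.{u}} (hc : ℵ₀ ≤ c) (hJ : c < #J) (m : J → ℕ) :
    ∃ n, c < #{i | m i = n} := by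
  by_contra hcon
  push Not at hcon
  have h1 : (univ : Set J) ⊆ ⋃ n : ULift.{u} ℕ, {i | m i = n.down} :=
    fun i _ => mem_iUnion.2 ⟨⟨m i⟩, rfl⟩
  have h2 := (mk_le_mk_of_subset h1).trans
    (mk_iUnion_le_of_le _ hc (by simpa using hc) fun n => hcon n.down)
  rw [mk_univ] at h2
  exact absurd hJ (not_lt.2 h2)

/-- A name for an injection of `K` into `K` has large parts of its range decided by single
conditions. -/
theorem large (R : K → K → RO (Cond K)) (p : Cond K)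
    (htot : ∀ i q, q ≤ p → ∃ r, r ≤ q ∧ ∃ γ, (R i γ).s r)
    (hinj : ∀ i i' γ r, r ≤ p → (R i γ).s r → (R i' γ).s r → i = i') {c : Cardinal.{u}}
    (hc : c < #K) : ∃ r, r ≤ p ∧ ∃ T : Set K, c ≤ #T ∧ ∀ γ ∈ T, ∃ i, (R i γ).s r := by
  have hc' : max c ℵ₀ < #K := max_lt hc SC.unc
  obtain ⟨J, hJ⟩ := le_mk_iff_exists_set.1 (succ_lt_K hc').le
  have hJ' : #J < #K := hJ.trans_lt (succ_lt_K hc')
  let Q : J × ULift.{u} ℕ → RO (Cond K) := fun t =>
    RO.ex fun γ : K × K => RO.and (R t.1 γ.1)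
      (RO.and (val t.2.down γ.2) (RO.dense fun _ => γ.1 < γ.2))
  obtain ⟨q, hq, h1⟩ := decide_small (ι := J × ULift.{u} ℕ)
    (by simpa using mul_lt_of_lt aleph0_le_K hJ' SC.unc) Q p
  have h2 : ∀ i : J, ∃ m, (Q (i, ⟨m⟩)).s q := by
    intro i
    obtain ⟨r, hr, γ, h3⟩ := htot i q hq.1
    obtain ⟨t, ht, m, h4, h5, h6⟩ := exists_cof r γ
    refine ⟨m, (h1 _).resolve_right fun h => h t (ht.trans hr) ?_⟩
    exact RO.ex_intro (γ, t.σ.F rho m) ⟨RO.mono h3 ht, val_intro h4 h5,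
      fun s _ => ⟨s, le_rfl, h6⟩⟩
  choose m hm using h2
  obtain ⟨n, hn⟩ := pigeon (le_max_right c ℵ₀) (hJ ▸ Order.lt_succ _) m
  obtain ⟨q₁, hq₁, h3, h4⟩ := exists_len q n
  have h5 := val_intro h3 h4
  set k := q₁.σ.F rho n
  obtain ⟨q₂, hq₂, h6⟩ := decide_small (ι := J × Iio k)
    (by simpa using mul_lt_of_lt aleph0_le_K hJ' (SC.iio k)) (fun t => R t.1 t.2) q₁
  have h7 : ∀ i : {i | m i = n}, ∃ γ, (R i.1 γ).s q₂ := by
    rintro ⟨i, rfl⟩
    obtain ⟨r, hr, γ, h8, h9, h10⟩ := hm i q₂ (hq₂.1.trans hq₁)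
    obtain ⟨-, -, h11⟩ := h10 r le_rfl
    have h12 : γ.2 = k := val_unique h9 (RO.mono h5 (hr.trans hq₂.1))
    exact ⟨γ.1, (h6 (i, ⟨γ.1, h12 ▸ h11⟩)).resolve_right fun h => h r hr h8⟩
  choose g hg using h7
  have hq₂p : q₂ ≤ p := hq₂.1.trans (hq₁.trans hq.1)
  have hg' : Function.Injective g := fun i i' h =>
    Subtype.ext (Subtype.ext (hinj _ _ _ q₂ hq₂p (hg i) (h ▸ hg i')))
  refine ⟨q₂, hq₂p, range g, ?_, ?_⟩
  · rw [mk_range_eq _ hg']
    exact (le_max_left c ℵ₀).trans hn.le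
  · rintro _ ⟨i, rfl⟩
    exact ⟨_, hg i⟩

/-- The range form: a name for a function from a subset `C` of `K` onto `K`. -/
theorem large_of_onto {h C : Nm (Cond K)} {p : Cond K}
    (h1 : (RO.all fun y => RO.imp (RO.mem y (lamN K)) (RO.ex fun x =>
      RO.and (appR h x y) (RO.and (RO.mem x C) (RO.mem x (lamN K))))).s p)
    (h2 : (RO.all fun x => RO.all fun y => RO.all fun y' =>
      RO.imp (appR h x y) (RO.imp (appR h x y') (RO.eq y y'))).s p) {c : Cardinal.{u}}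
    (hc : c < #K) : ∃ r, r ≤ p ∧ ∃ T : Set K, c ≤ #T ∧ ∀ γ ∈ T, FMem (nk γ) C r := by
  obtain ⟨r, hr, T, h3, h4⟩ := large
    (fun i γ => RO.and (appR h (nk γ) (nk i)) (RO.mem (nk γ) C)) p (by
      intro i q hq
      obtain ⟨r, hr, x, h5, h6, h7⟩ := h1 (nk i) q hq (nk_mem_lam i q) q le_rfl
      obtain ⟨t, ht, γ, h8⟩ := mem_lam h7 r le_rfl
      exact ⟨t, ht.trans hr, γ, Ext.subst (fun x => appR h x (nk i)) h8 (RO.mono h5 ht),
        (FMem.mono h6 ht).subst_left h8⟩)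
    (fun i i' γ r hr h5 h6 => nk_inj (h2 _ _ _ r hr h5.1 r le_rfl h6.1)) hc
  exact ⟨r, hr, T, h3, fun γ hγ => let ⟨_, h⟩ := h4 γ hγ; h.2⟩

theorem T_onto {h C : Mod (Cond K)} (hC : Sub EM C (cls (lamN K)))
    (h1 : IsFun EM h C (cls (lamN K))) (h2 : ∀ b, EM b (cls (lamN K)) → ∃ a, App EM h a b) :
    T (RO.all fun y => RO.imp (RO.mem y (lamN K)) (RO.ex fun x =>
      RO.and (appR (rep h) x y) (RO.and (RO.mem x (rep C)) (RO.mem x (lamN K))))) := by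
  simp only [T_all, T_imp, T_ex, T_and, T_mem, T_app, cls_rep]
  intro y hy
  obtain ⟨x, hx⟩ := h2 y hy
  exact ⟨x, hx, (M_zfc.app_mem h1 hx).1, hC x (M_zfc.app_mem h1 hx).1⟩

theorem T_functional {P : Type u} [Preorder P] [OrderTop P] {h A B : Mod P}
    (h1 : IsFun EM h A B) : T (RO.all fun x => RO.all fun y => RO.all fun y' =>
      RO.imp (appR (rep h) x y) (RO.imp (appR (rep h) x y') (RO.eq y y'))) := by
  simp only [T_all, T_imp, T_eq, T_app, cls_rep]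
  exact fun x y y' h2 h3 => M_zfc.app_unique h1 h2 h3

theorem T_injective {P : Type u} [Preorder P] [OrderTop P] {h A B : Mod P}
    (h1 : IsInj EM h A B) : T (RO.all fun x => RO.all fun x' => RO.all fun y =>
      RO.imp (appR (rep h) x y) (RO.imp (appR (rep h) x' y) (RO.eq x x'))) := by
  simp only [T_all, T_imp, T_eq, T_app, cls_rep]
  exact h1.2

theorem T_mem_rep {P : Type u} [Preorder P] [OrderTop P] {a : Mod P} {x : Nm P}
    (h : EM a (cls x)) : T (RO.mem (rep a) x) := by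
  rwa [T_mem, cls_rep]

theorem isCard_lam : IsCard EM (cls (lamN K)) := by
  refine ⟨isOrd_on _, ?_⟩
  rintro α hα ⟨f, hf, hs⟩
  obtain ⟨p, h1, h2, h3⟩ := ((T_and _ _).2 ⟨T_onto ((isOrd_on _).1 α hα) hf.1 hs,
    (T_and _ _).2 ⟨T_functional hf.1, T_mem_rep hα⟩⟩).nonempty
  obtain ⟨q, hq, k, hk⟩ := mem_lam h3 p le_rfl
  obtain ⟨r, hr, T, h4, h5⟩ := large_of_onto (RO.mono h1 hq) (RO.mono h2 hq)
    (succ_lt_K (SC.iio k))
  have : T ⊆ Iio k := fun γ hγ => nk_lt ((h5 γ hγ).subst_right (hk.mono hr))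
  exact absurd ((Order.lt_succ _).trans_le (h4.trans (mk_le_mk_of_subset this))) (lt_irrefl _)

theorem isInfCard_lam : IsInfCard EM (cls (lamN K)) := by
  refine ⟨isCard_lam, ⟨_, EM_on (oK_lt_kap (kz K))⟩, ?_⟩
  have : T (RO.all fun α => RO.imp (RO.mem α (lamN K)) (RO.ex fun β =>
      RO.and (RO.mem β (lamN K)) (RO.mem α β))) := by
    refine T.of_forall fun p α q _ hα r hr => ?_
    obtain ⟨t, ht, k, hk⟩ := mem_lam hα r hr
    exact ⟨t, ht, nk (nx k), nk_mem_lam _ _, (nk_mem_nk (lt_nx k) t).subst_left hk.symm⟩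
  simpa only [T_all, T_imp, T_ex, T_and, T_mem, cls_rep] using this

theorem omega_lt_kap : Ordinal.omega0 < kap K := by
  by_contra h
  have := Ordinal.card_le_card (not_lt.1 h)
  rw [card_kap, Ordinal.card_omega0] at this
  exact absurd (SC.unc (K := K)) (not_lt.2 this)

theorem isSingular_lam : IsSingular EM (cls (lamN K)) := by
  let Φ : Nm (Cond K) → Nm (Cond K) → RO (Cond K) := fun a b =>
    RO.ex fun t : ℕ × K => RO.and (RO.eq a (on t.1)) (RO.and (RO.eq b (nk t.2)) (val t.1 t.2))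
  have hf := M_fun Φ (cls (on Ordinal.omega0)) (cls (lamN K)) (by
    have : T (RO.all fun a => RO.imp (RO.mem a (on Ordinal.omega0)) (RO.ex fun b =>
        RO.and (RO.and (RO.mem b (lamN K)) (Φ a b)) (RO.all fun b' =>
          RO.imp (RO.and (RO.mem b' (lamN K)) (Φ a b')) (RO.eq b' b)))) := by
      refine T.of_forall fun p a q _ ha r hr => ?_
      obtain ⟨t, ht, c, hc, h1⟩ := mem_on ha r hr
      obtain ⟨n, rfl⟩ := Ordinal.lt_omega0.1 hc
      obtain ⟨s, hs, h2, h3⟩ := exists_len t n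
      refine ⟨s, hs.trans ht, nk (s.σ.F rho n), ⟨nk_mem_lam _ _,
        RO.ex_intro (n, s.σ.F rho n) ⟨h1.mono hs, FEq.refl _ _, val_intro h2 h3⟩⟩,
        fun b' s₁ hs₁ hb' => FEq.reg fun s₂ hs₂ => ?_⟩
      obtain ⟨s₃, hs₃, ⟨n', k⟩, h4, h5, h6⟩ := hb'.2 s₂ hs₂
      have hs₃' : s₃ ≤ s := hs₃.trans (hs₂.trans hs₁)
      have h7 : n = n' := by
        exact_mod_cast on_inj ((h1.mono (hs₃'.trans hs)).symm.trans h4)
      subst h7
      have h8 : k = s.σ.F rho n := val_unique h6 (RO.mono (val_intro h2 h3) hs₃')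
      exact ⟨s₃, hs₃, h8 ▸ h5⟩
    simpa only [T_all, T_imp, T_ex, T_and, T_mem, T_eq, cls_rep, ExistsUnique] using this)
  obtain ⟨f, hf1, hf2⟩ := hf
  refine ⟨_, f, EM_on omega_lt_kap, hf1, ?_⟩
  simp only [hf2]
  have : T (RO.all fun β => RO.imp (RO.mem β (lamN K)) (RO.ex fun a => RO.ex fun b =>
      RO.and (RO.and (RO.mem a (on Ordinal.omega0)) (RO.and (RO.mem b (lamN K)) (Φ a b)))
        (RO.or (RO.mem β b) (RO.eq β b)))) := by
    refine T.of_forall fun p β q _ hβ r hr => ?_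
    obtain ⟨t, ht, k, hk⟩ := mem_lam hβ r hr
    obtain ⟨s, hs, m, h1, h2, h3⟩ := exists_cof t k
    exact ⟨s, hs.trans ht, on m, RO.ex_intro (nk (s.σ.F rho m))
      ⟨⟨on_mem (Ordinal.natCast_lt_omega0 m) s, nk_mem_lam _ _,
        RO.ex_intro (m, s.σ.F rho m) ⟨FEq.refl _ _, FEq.refl _ _, val_intro h1 h2⟩⟩,
        RO.or_inl ((nk_mem_nk h3 s).subst_left (hk.mono hs).symm)⟩⟩
  simpa only [T_all, T_imp, T_ex, T_and, T_or, T_mem, T_eq, cls_rep] using this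

theorem isStrongLimit_lam : IsStrongLimit EM (cls (lamN K)) := by
  rintro μ Pw hμ hP ⟨f, hf⟩
  have H : T (RO.all fun a => RO.imp (RO.mem a (lamN K)) (RO.ex fun y =>
      RO.and (appR (rep f) a y) (RO.all fun z => RO.imp (RO.mem z y) (RO.mem z (rep μ))))) := by
    simp only [T_all, T_imp, T_ex, T_and, T_mem, T_app, cls_rep]
    intro a ha
    obtain ⟨y, h1, h2⟩ := M_zfc.app_total hf.1 ha
    exact ⟨y, h1, (hP y).1 h2⟩
  obtain ⟨p, h1, h2, h3, h4⟩ := ((T_and _ _).2 ⟨H, (T_and _ _).2 ⟨T_functional hf.1,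
    (T_and _ _).2 ⟨T_injective hf, T_mem_rep hμ⟩⟩⟩).nonempty
  obtain ⟨q, hq, k, hk⟩ := mem_lam h4 p le_rfl
  obtain ⟨J, hJ⟩ := le_mk_iff_exists_set.1 (succ_lt_K (wk_lt k)).le
  have hJ' : #J < #K := hJ.trans_lt (succ_lt_K (wk_lt k))
  let D : J × Iio k → RO (Cond K) := fun t =>
    RO.ex fun y => RO.and (appR (rep f) (nk t.1.1) y) (RO.mem (nk t.2.1) y)
  obtain ⟨r, hr, h5⟩ := decide_small (ι := J × Iio k)
    (by simpa using mul_lt_of_lt aleph0_le_K hJ' (SC.iio k)) D q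
  have hrp : r ≤ p := hr.1.trans hq
  have h6 : ¬ Function.Injective fun i : J => {z : Iio k | (D (i, z)).s r} := by
    intro hinj
    have := mk_le_of_injective hinj
    rw [hJ, mk_set] at this
    exact absurd (Order.lt_succ (wk k)) (not_lt.2 this)
  obtain ⟨i, i', h7, h8⟩ := Function.not_injective_iff.1 h6
  obtain ⟨s, hs, y, hy1, hy2⟩ := h1 (nk i.1) r hrp (nk_mem_lam _ _) r le_rfl
  obtain ⟨t, ht, y', hy1', hy2'⟩ := h1 (nk i'.1) s (hs.trans hrp) (nk_mem_lam _ _) s le_rfl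
  have key : ∀ (i i' : J) (y y' : Nm (Cond K)),
      {z : Iio k | (D (i, z)).s r} = {z : Iio k | (D (i', z)).s r} →
      (appR (rep f) (nk i.1) y).s t → (appR (rep f) (nk i'.1) y').s t →
      (RO.all fun z => RO.imp (RO.mem z y) (RO.mem z (rep μ))).s t →
      ∀ z w, w ≤ t → FMem z y w → FMem z y' w := by
    intro i i' y y' e h9 h10 h11 z w hw hz
    refine FMem.reg fun w₁ hw₁ => ?_
    have hwr : w ≤ r := hw.trans (ht.trans hs)
    obtain ⟨w₂, hw₂, z', hz', h12⟩ := mem_nk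
      (FMem.subst_right (h11 z w hw hz) (hk.mono (hwr.trans hr.1))) w₁ hw₁
    have h13 : (D (i, ⟨z', hz'⟩)).s r := (h5 _).resolve_right fun h =>
      h w₂ (hw₂.trans (hw₁.trans hwr)) (RO.ex_intro y ⟨RO.mono h9 (hw₂.trans (hw₁.trans hw)),
        (hz.mono (hw₂.trans hw₁)).subst_left h12⟩)
    have h14 : (D (i', ⟨z', hz'⟩)).s r := (Set.ext_iff.1 e ⟨z', hz'⟩).1 h13
    obtain ⟨w₃, hw₃, y'', h15, h16⟩ := h14 w₂ (hw₂.trans (hw₁.trans hwr))
    have hw₃' : w₃ ≤ w := hw₃.trans (hw₂.trans hw₁)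
    have h17 : FEq y'' y' w₃ := h2 _ _ _ w₃ (hw₃'.trans (hwr.trans hrp)) h15 w₃ le_rfl
      (RO.mono h10 (hw₃'.trans hw))
    exact ⟨w₃, hw₃.trans hw₂, (FMem.subst_right h16 h17).subst_left (h12.mono hw₃).symm⟩
  have h9 : FEq y y' t := FEq.ext fun z w hw =>
    ⟨key i i' y y' h7 (RO.mono hy1 ht) hy1' (RO.mono hy2 ht) z w hw,
      key i' i y' y h7.symm hy1' (RO.mono hy1 ht) hy2' z w hw⟩
  exact h8 (Subtype.ext (nk_inj (h3 _ _ y' t (ht.trans (hs.trans hrp))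
    (Ext.subst (fun y => appR (rep f) (nk i.1) y) h9 (RO.mono hy1 ht)) t le_rfl hy1')))

end Pool.Agent.Lib.MP_2739cb_lc
end

-- part Pool.Agent.Lib.MP_2739cb_lc.Final
section

/-! The successor of `K` in the quotient model and the ultrafilter number. -/

namespace Pool.Agent.Lib.MP_2739cb_lc

open Cardinal Filter Set Nm Cond

universe u v

variable {K : Type u} [LinearOrder K] [SC K] [WellFoundedLT K]

variable (K) in
noncomputable def muO : Ordinal.{u} := (Order.succ #K).ord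

variable (K) in
noncomputable def muN : Nm (Cond K) := on (muO K)

noncomputable def oX (ξ : (muO K).ToType) : Ordinal.{u} :=
  Ordinal.typein (α := (muO K).ToType) (· < ·) ξ

omit [SC K] [LinearOrder K] [WellFoundedLT K] in
theorem exists_oX {a : Ordinal.{u}} (h : a < muO K) : ∃ ξ : (muO K).ToType, oX ξ = a :=
  Ordinal.typein_surj (α := (muO K).ToType) (· < ·) (by simpa using h)

omit [SC K] [LinearOrder K] [WellFoundedLT K] in
theorem mk_muO : #(muO K).ToType = Order.succ #K := mk_ord_toType _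

omit [SC K] [LinearOrder K] [WellFoundedLT K] in
theorem card_le_of_lt_muO {a : Ordinal.{u}} (h : a < muO K) : a.card ≤ #K :=
  Order.lt_succ_iff.1 (lt_ord.1 h)

omit [SC K] in
theorem kap_lt_muO : kap K < muO K := lt_ord.2 (card_kap (K := K) ▸ Order.lt_succ _)

omit [SC K] [LinearOrder K] [WellFoundedLT K] in
theorem exists_surj {a : Ordinal.{u}} (h : a.card ≤ #K) :
    ∃ s : K → Ordinal.{u}, ∀ x, x < a → ∃ i, s i = x := by
  classical
  obtain ⟨e⟩ : #a.ToType ≤ #K := by rwa [mk_toType]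
  refine ⟨fun i => if h : ∃ x, e x = i then
    Ordinal.typein (α := a.ToType) (· < ·) h.choose else 0, fun x hx => ?_⟩
  obtain ⟨j, rfl⟩ := Ordinal.typein_surj (α := a.ToType) (· < ·) (o := x) (by simpa using hx)
  have : ∃ x, e x = e j := ⟨j, rfl⟩
  exact ⟨e j, by simp only [dif_pos this, e.injective this.choose_spec]⟩

theorem isCard_mu : IsCard EM (cls (muN K)) := by
  refine ⟨isOrd_on _, ?_⟩
  rintro α hα ⟨f, hf, hs⟩
  have H : T (RO.all fun y => RO.imp (RO.mem y (muN K)) (RO.ex fun x =>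
      RO.and (appR (rep f) x y) (RO.mem x (rep α)))) := by
    simp only [T_all, T_imp, T_ex, T_and, T_mem, T_app, cls_rep]
    intro y hy
    obtain ⟨x, hx⟩ := hs y hy
    exact ⟨x, hx, (M_zfc.app_mem hf.1 hx).1⟩
  obtain ⟨p, h1, h2, h3⟩ := ((T_and _ _).2 ⟨H,
    (T_and _ _).2 ⟨T_functional hf.1, T_mem_rep hα⟩⟩).nonempty
  obtain ⟨q, hq, a, ha, h4⟩ := mem_on h3 p le_rfl
  obtain ⟨s, hs⟩ := exists_surj (card_le_of_lt_muO ha)
  obtain ⟨r, hr, β, h5⟩ := not_onto (Ξ := (muO K).ToType) (mk_muO (K := K) ▸ Order.lt_succ _)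
    (fun i β => appR (rep f) (on (s i)) (on (oX β))) q fun i β β' r hr h6 h7 =>
      Ordinal.typein_injective _ (on_inj (h2 _ _ _ r (hr.trans hq) h6 r le_rfl h7))
  obtain ⟨t, ht, x, h6, h7⟩ := h1 (on (oX β)) r (hr.trans hq)
    (on_mem (Ordinal.typein_lt_self β) r) r le_rfl
  obtain ⟨w, hw, c, hc, h8⟩ := mem_on (FMem.subst_right h7 (h4.mono (ht.trans hr))) t le_rfl
  obtain ⟨i, rfl⟩ := hs c hc
  exact h5 i w (hw.trans ht) (Ext.subst (fun x => appR (rep f) x (on (oX β))) h8 (RO.mono h6 hw))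

omit [SC K] in
theorem exists_equiv {a : Ordinal.{u}} (h1 : kap K < a) (h2 : a < muO K) :
    ∃ e : K → Ordinal.{u}, Function.Injective e ∧ ∀ x, x < a ↔ ∃ i, e i = x := by
  obtain ⟨e⟩ : Nonempty (K ≃ a.ToType) := by
    rw [← Cardinal.eq, mk_toType]
    exact le_antisymm (card_kap (K := K) ▸ Ordinal.card_le_card h1.le) (card_le_of_lt_muO h2)
  refine ⟨fun i => Ordinal.typein (α := a.ToType) (· < ·) (e i),
    (Ordinal.typein_injective _).comp e.injective, fun x => ⟨fun hx => ?_, ?_⟩⟩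
  · obtain ⟨j, rfl⟩ := Ordinal.typein_surj (α := a.ToType) (· < ·) (o := x) (by simpa using hx)
    exact ⟨e.symm j, by simp⟩
  · rintro ⟨i, rfl⟩
    exact Ordinal.typein_lt_self _

theorem cardEq_of_between {ν : Mod (Cond K)} (h1 : EM (cls (lamN K)) ν)
    (h2 : EM ν (cls (muN K))) : CardEq EM (cls (lamN K)) ν := by
  choose e he1 he2 using fun a : {a : Ordinal.{u} // kap K < a ∧ a < muO K} =>
    exists_equiv a.2.1 a.2.2
  let N := rep ν
  let Φ : Nm (Cond K) → Nm (Cond K) → RO (Cond K) := fun x y =>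
    RO.ex fun t : {a : Ordinal.{u} // kap K < a ∧ a < muO K} × K =>
      RO.and (RO.eq N (on t.1.1)) (RO.and (RO.eq x (nk t.2)) (RO.eq y (on (e t.1 t.2))))
  have H0 : T (RO.ex fun a : {a : Ordinal.{u} // kap K < a ∧ a < muO K} => RO.eq N (on a.1)) := by
    have h3 : T (RO.mem (lamN K) N) := by rwa [T_mem, cls_rep]
    refine h3.mono₂ (T_mem_rep h2) fun p hp1 hp2 q hq => ?_
    obtain ⟨r, hr, a, ha, h4⟩ := mem_on hp2 q hq
    exact ⟨r, hr, ⟨a, on_lt ((FMem.mono hp1 (hr.trans hq)).subst_right h4), ha⟩, h4⟩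
  have hf := M_fun Φ (cls (lamN K)) ν (by
    have : T (RO.all fun x => RO.imp (RO.mem x (lamN K)) (RO.ex fun y =>
        RO.and (RO.and (RO.mem y N) (Φ x y)) (RO.all fun y' =>
          RO.imp (RO.and (RO.mem y' N) (Φ x y')) (RO.eq y' y)))) := by
      refine H0.mono fun p hp x q hq hx r hr => ?_
      obtain ⟨t, ht, i, h3⟩ := mem_lam hx r hr
      obtain ⟨s, hs, a, h4⟩ := hp t (ht.trans (hr.trans hq))
      refine ⟨s, hs.trans ht, on (e a i),
        ⟨(on_mem ((he2 a _).2 ⟨i, rfl⟩) s).subst_right (FEq.symm h4),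
          RO.ex_intro (a, i) ⟨h4, h3.mono hs, FEq.refl _ _⟩⟩,
        fun y' s₁ hs₁ hy' => FEq.reg fun s₂ hs₂ => ?_⟩
      obtain ⟨s₃, hs₃, ⟨a', i'⟩, h5, h6, h7⟩ := hy'.2 s₂ hs₂
      have hs₃' : s₃ ≤ s := hs₃.trans (hs₂.trans hs₁)
      have h8 : a = a' := Subtype.ext (on_inj ((FEq.mono h4 hs₃').symm.trans h5))
      have h9 : i = i' := nk_inj ((h3.mono (hs₃'.trans hs)).symm.trans h6)
      subst h8 h9
      exact ⟨s₃, hs₃, h7⟩
    simpa only [T_all, T_imp, T_ex, T_and, T_mem, T_eq, cls_rep, ExistsUnique, N] using this)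
  obtain ⟨f, hf1, hf2⟩ := hf
  refine ⟨f, ⟨hf1, ?_⟩, ?_⟩
  · simp only [hf2]
    have : T (RO.all fun x => RO.all fun x' => RO.all fun y =>
        RO.imp (Φ x y) (RO.imp (Φ x' y) (RO.eq x x'))) := by
      refine T.of_forall fun p x x' y q _ h3 r hr h4 => FEq.reg fun s hs => ?_
      obtain ⟨t, ht, ⟨a, i⟩, h5, h6, h7⟩ := h3 s (hs.trans hr)
      obtain ⟨w, hw, ⟨a', i'⟩, h8, h9, h10⟩ := h4 t (ht.trans hs)
      have h11 : a = a' := Subtype.ext (on_inj ((FEq.mono h5 hw).symm.trans h8))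
      subst h11
      have h12 : i = i' := he1 a (on_inj ((FEq.mono h7 hw).symm.trans h10))
      subst h12
      exact ⟨w, hw.trans ht, (FEq.mono h6 hw).trans (FEq.symm h9)⟩
    simp only [T_all, T_imp, T_eq, cls_rep] at this
    exact fun a a' b h3 h4 => this a a' b h3.2.2 h4.2.2
  · simp only [hf2]
    have : T (RO.all fun y => RO.imp (RO.mem y N) (RO.ex fun x =>
        RO.and (RO.mem x (lamN K)) (RO.and (RO.mem y N) (Φ x y)))) := by
      refine H0.mono fun p hp y q hq hy r hr => ?_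
      obtain ⟨s, hs, a, h4⟩ := hp r (hr.trans hq)
      obtain ⟨t, ht, c, hc, h5⟩ := mem_on ((FMem.mono hy (hs.trans hr)).subst_right h4) s le_rfl
      obtain ⟨i, rfl⟩ := (he2 a c).1 hc
      exact ⟨t, ht.trans hs, nk i, nk_mem_lam _ _, FMem.mono hy (ht.trans (hs.trans hr)),
        RO.ex_intro (a, i) ⟨FEq.mono h4 ht, FEq.refl _ _, h5⟩⟩
    simpa only [T_all, T_imp, T_ex, T_and, T_mem, cls_rep, N] using this

theorem isSuccCard_mu : IsSuccCard EM (cls (muN K)) (cls (lamN K)) := by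
  refine ⟨isCard_mu, EM_on kap_lt_muO, fun ν hν h => ?_⟩
  rcases M_zfc.ord_total (isOrd_on (muO K)) hν.1 with h1 | h1
  · exact h1
  · exact absurd (cardEq_of_between h h1) (hν.2 _ h)

theorem exceeds : UltrafilterNumberExceeds EM (cls (lamN K)) (cls (muN K)) := by
  rintro U B hU hB ⟨g, hg⟩
  let b : (muO K).ToType → K → RO (Cond K) := fun ξ γ =>
    RO.ex fun C => RO.and (appR (rep g) C (on (oX ξ))) (RO.mem (nk γ) C)
  obtain ⟨X, hX⟩ := splitting (Ξ := (muO K).ToType)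
    (mk_muO (K := K) ▸ Order.succ_le_of_lt (cantor _)) b
  let Φ : Nm (Cond K) → RO (Cond K) := fun z => RO.ex fun γ => RO.and (RO.eq z (nk γ)) (X γ)
  let S := sepNm Φ (lamN K)
  have hS : Sub EM (cls S) (cls (lamN K)) := by
    have : T (RO.all fun z => RO.imp (RO.mem z S) (RO.mem z (lamN K))) :=
      T.of_forall fun p z q _ hz => ((fmem_sepNm Φ _ _ q).1 hz).1
    simpa only [T_all, T_imp, T_mem, cls_rep, Sub] using this
  obtain ⟨S', hS'⟩ := M_zfc.exists_diff (cls (lamN K)) (cls S)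
  obtain ⟨C, hCB, hC⟩ : ∃ C, EM C B ∧ T (RO.or
      (RO.all fun z => RO.imp (RO.mem z (rep C)) (RO.mem z S))
      (RO.all fun z => RO.imp (RO.mem z (rep C)) (RO.not (RO.mem z S)))) := by
    simp only [T_or, T_all, T_imp, T_not, T_mem, cls_rep]
    rcases hU.2.2.2.2.2.1 _ S' hS hS' with h | h
    · obtain ⟨C, h1, h2⟩ := hB.2 _ h
      exact ⟨C, h1, Or.inl h2⟩
    · obtain ⟨C, h1, h2⟩ := hB.2 _ h
      exact ⟨C, h1, Or.inr fun z hz => ((hS' z).1 (h2 z hz)).2⟩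
  have hCU := hB.1 C hCB
  obtain ⟨h, hh, hs⟩ := hU.2.2.2.2.2.2 C hCU
  have H : T (RO.ex fun y => RO.and (appR (rep g) (rep C) y) (RO.mem y (muN K))) := by
    simp only [T_ex, T_and, T_mem, T_app, cls_rep]
    exact M_zfc.app_total hg.1 hCB
  obtain ⟨p, h1, h2, h3, h4, h5⟩ := ((T_and _ _).2 ⟨T_onto (hU.1 C hCU) hh.1 hs,
    (T_and _ _).2 ⟨T_functional hh.1, (T_and _ _).2 ⟨T_injective hg,
      (T_and _ _).2 ⟨H, hC⟩⟩⟩⟩).nonempty
  obtain ⟨q, hq, y, h6, h7⟩ := h4 p le_rfl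
  obtain ⟨r, hr, a, ha, h8⟩ := mem_on h7 q le_rfl
  obtain ⟨ξ, rfl⟩ := exists_oX ha
  have h9 : (appR (rep g) (rep C) (on (oX ξ))).s r :=
    Ext.subst (fun y => appR (rep g) (rep C) y) h8 (RO.mono h6 hr)
  have hrp : r ≤ p := hr.trans hq
  obtain ⟨s, hs, γ₀, γ₁, h10, h11, h12, h13⟩ := hX ξ r fun r' hr' c hc => by
    obtain ⟨r'', hr'', T, h14, h15⟩ := large_of_onto (RO.mono h1 (hr'.trans hrp))
      (RO.mono h2 (hr'.trans hrp)) hc
    exact ⟨r'', hr'', T, h14, fun γ hγ =>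
      RO.ex_intro (rep C) ⟨RO.mono h9 (hr''.trans hr'), h15 γ hγ⟩⟩
  have key : ∀ γ, (b ξ γ).s s → FMem (nk γ) (rep C) s := by
    intro γ hγ
    refine FMem.reg fun t ht => ?_
    obtain ⟨w, hw, C', h14, h15⟩ := hγ t ht
    have hwr : w ≤ r := hw.trans (ht.trans hs)
    exact ⟨w, hw, FMem.subst_right h15
      (h3 _ _ _ w (hwr.trans hrp) h14 w le_rfl (RO.mono h9 hwr))⟩
  obtain ⟨t, ht, h14 | h14⟩ := h5 s (hs.trans hrp)
  · obtain ⟨w, hw, γ, h15, h16⟩ := ((fmem_sepNm Φ _ _ t).1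
      (h14 _ t le_rfl ((key _ h12).mono ht))).2 t le_rfl
    have : γ₁ = γ := nk_inj h15
    subst this
    exact h13 w (hw.trans ht) h16
  · exact h14 _ t le_rfl ((key _ h10).mono ht) t le_rfl ((fmem_sepNm Φ _ _ t).2
      ⟨nk_mem_lam _ _, RO.ex_intro γ₀ ⟨FEq.refl _ _, RO.mono h11 ht⟩⟩)

theorem main {κ : Cardinal.{u}} (h : IsSupercompact κ) :
    ∃ (M : Type (u + 1)) (E : M → M → Prop), IsZFC E ∧ ∃ lam mu : M,
      IsInfCard E lam ∧ IsSingular E lam ∧ IsStrongLimit E lam ∧ IsSuccCard E mu lam ∧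
        UltrafilterNumberExceeds E lam mu := by
  let K := κ.ord.ToType
  have hK : #K = κ := mk_ord_toType κ
  have h' : IsSupercompact #K := hK.symm ▸ h
  obtain ⟨W, h1, h2, h3⟩ := h'.2 (Set K) (by rw [mk_set]; exact (cantor _).le)
  let _ : SC K := ⟨W, h'.1, fun k => mk_Iio_lt k (by simp [K]), h1, h2, h3⟩
  exact ⟨Mod (Cond K), EM, M_zfc, cls (lamN K), cls (muN K), isInfCard_lam, isSingular_lam,
    isStrongLimit_lam, isSuccCard_mu, exceeds⟩

end Pool.Agent.Lib.MP_2739cb_lc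
end
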