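import Mathlib

/-! A normal fine measure on the small families of subsets of `K`, and its consequences. -/

namespace Pool.Agent.Lib.MP_2739cb_lc

open Cardinal Filter Set

universe u v

/-! ### General lemmas -/

theorem mk_iUnion_le_of_le {α ι : Type u} (f : ι → Set α) {c : Cardinal.{u}} (hc : ℵ₀ ≤ c)
    (hι : #ι ≤ c) (hf : ∀ i, #(f i) ≤ c) : #(⋃ i, f i) ≤ c := by
  refine (mk_iUnion_le f).trans ?_
  refine (mul_le_mul' hι (ciSup_le' hf)).trans ?_
  rw [mul_eq_self hc]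

theorem chain_lemma {C : Type v} (le : C → C → Prop) (hrefl : ∀ c, le c c)
    (htrans : ∀ a b c, le a b → le b c → le a c)
    {ι : Type u} [LinearOrder ι] [WellFoundedLT ι] (c₀ : C)
    (ub : ∀ (i : ι) (c : ι → C), (∀ j, j < i → le c₀ (c j)) →
      (∀ j k, j ≤ k → k < i → le (c j) (c k)) → ∃ b, le c₀ b ∧ ∀ j, j < i → le (c j) b)
    (Φ : ι → C → C) (hΦ : ∀ i c, le c (Φ i c)) :
    ∃ c : ι → C, (∀ j k, j ≤ k → le (c j) (c k)) ∧
      ∀ i, ∃ b, le c₀ b ∧ (∀ j, j < i → le (c j) b) ∧ c i = Φ i b := by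
  classical
  let F : ∀ i : ι, (∀ j, j < i → C) → C := fun i rec =>
    Φ i (if h : ∃ b, le c₀ b ∧ ∀ j (hj : j < i), le (rec j hj) b then h.choose else c₀)
  let c : ι → C := WellFoundedLT.fix F
  have hc : ∀ i, c i = F i fun j _ => c j := fun i => WellFoundedLT.fix_eq F i
  have key : ∀ i, ∃ b, le c₀ b ∧ (∀ j, j < i → le (c j) b) ∧ c i = Φ i b := by
    intro i
    induction i using WellFoundedLT.induction with
    | ind i ih =>
      have h : ∃ b, le c₀ b ∧ ∀ j (_ : j < i), le (c j) b := by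
        apply ub i c
        · intro j hj
          obtain ⟨b, h1, -, h3⟩ := ih j hj
          rw [h3]; exact htrans _ _ _ h1 (hΦ _ _)
        · intro j k hjk hk
          rcases hjk.eq_or_lt with rfl | hjk
          · exact hrefl _
          · obtain ⟨b, -, h2, h3⟩ := ih k hk
            rw [h3]; exact htrans _ _ _ (h2 j hjk) (hΦ _ _)
      refine ⟨h.choose, h.choose_spec.1, h.choose_spec.2, ?_⟩
      rw [hc i]
      simp only [F, dif_pos h]
  refine ⟨c, fun j k hjk => ?_, key⟩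
  rcases hjk.eq_or_lt with rfl | hjk
  · exact hrefl _
  · obtain ⟨b, -, h2, h3⟩ := key k
    rw [h3]; exact htrans _ _ _ (h2 j hjk) (hΦ _ _)

theorem exists_injective_selector {J α : Type u} (Z : J → Set α) (hZ : ∀ j, #J ≤ #(Z j)) :
    ∃ ζ : J → α, Function.Injective ζ ∧ ∀ j, ζ j ∈ Z j := by
  classical
  obtain ⟨_, _, hord⟩ := exists_ord_eq_type_lt J
  have hne : ∀ (j : J) (g : Iio j → α), (Z j \ range g).Nonempty := fun j g =>
    sdiff_nonempty_of_mk_lt_mk (mk_range_le.trans_lt ((mk_Iio_lt j hord).trans_le (hZ j)))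
  let F : ∀ j : J, (∀ j', j' < j → α) → α := fun j rec =>
    (hne j fun j' => rec j'.1 j'.2).some
  let ζ : J → α := WellFoundedLT.fix F
  have hζ : ∀ j, ζ j ∈ Z j \ range fun j' : Iio j => ζ j'.1 := by
    intro j
    have : ζ j = F j fun j' _ => ζ j' := WellFoundedLT.fix_eq F j
    rw [this]
    exact (hne j fun j' => ζ j'.1).some_mem
  refine ⟨ζ, fun a b hab => ?_, fun j => (hζ j).1⟩
  rcases lt_trichotomy a b with h | h | h
  · exact absurd ⟨⟨a, h⟩, hab⟩ (hζ b).2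
  · exact h
  · exact absurd ⟨⟨b, h⟩, hab.symm⟩ (hζ a).2

/-! ### The measure -/

abbrev II (K : Type u) := {x : Set (Set K) // #x < #K}

class SC (K : Type u) [LinearOrder K] where
  W : Ultrafilter (II K)
  unc : ℵ₀ < #K
  iio : ∀ k : K, #(Iio k) < #K
  complete : ∀ S : Set (Set (II K)), #S < #K → (∀ A ∈ S, A ∈ W) → ⋂₀ S ∈ W
  fine : ∀ a : Set K, {x | a ∈ x.1} ∈ W
  normal : ∀ f : II K → Set K, {x | f x ∈ x.1} ∈ W → ∃ a, {x | f x = a} ∈ W

variable {K : Type u} [LinearOrder K] [SC K]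

abbrev WF (K : Type u) [LinearOrder K] [SC K] : Filter (II K) := (SC.W : Ultrafilter (II K))

instance : CardinalInterFilter (WF K) #K := ⟨SC.complete⟩

instance : CountableInterFilter (WF K) :=
  CardinalInterFilter.toCountableInterFilter (WF K) (SC.unc (K := K))

theorem aleph0_le_K : ℵ₀ ≤ #K := (SC.unc (K := K)).le

instance : Infinite K := Cardinal.infinite_iff.2 aleph0_le_K

theorem ae_forall {ι : Type u} (h : #ι < #K) {p : ι → II K → Prop}
    (hp : ∀ i, ∀ᶠ x in WF K, p i x) : ∀ᶠ x in WF K, ∀ i, p i x :=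
  (eventually_cardinal_forall h).2 hp

theorem ae_ball {ι : Type u} {S : Set ι} (h : #S < #K) {p : ι → II K → Prop}
    (hp : ∀ i ∈ S, ∀ᶠ x in WF K, p i x) : ∀ᶠ x in WF K, ∀ i ∈ S, p i x :=
  (eventually_cardinal_ball h).2 hp

theorem ae_nat {p : ℕ → II K → Prop} (hp : ∀ i, ∀ᶠ x in WF K, p i x) :
    ∀ᶠ x in WF K, ∀ i, p i x :=
  eventually_countable_forall.2 hp

theorem ae_not {p : II K → Prop} (h : ¬ ∀ᶠ x in WF K, p x) : ∀ᶠ x in WF K, ¬ p x :=
  Ultrafilter.eventually_not.2 h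

theorem ae_imp {p : II K → Prop} {q : Prop} (h : q → ∀ᶠ x in WF K, p x) :
    ∀ᶠ x in WF K, q → p x := by
  by_cases hq : q
  · exact (h hq).mono fun x hx _ => hx
  · exact Eventually.of_forall fun x h => absurd h hq

theorem ae_const {ι : Type u} (f : II K → ι) {S : Set ι} (hS : #S < #K)
    (hf : ∀ᶠ x in WF K, f x ∈ S) : ∃ a ∈ S, ∀ᶠ x in WF K, f x = a := by
  by_contra hc
  have h1 : ∀ᶠ x in WF K, ∀ a ∈ S, ¬ f x = a := ae_ball hS fun a ha => ae_not
    fun h => hc ⟨a, ha, h⟩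
  obtain ⟨x, hx1, hx2⟩ := (hf.and h1).exists
  exact hx2 _ hx1 rfl

theorem diag {Q : Set K → II K → Prop} (h : ∀ β, ∀ᶠ x in WF K, Q β x) :
    ∀ᶠ x in WF K, ∀ β ∈ x.1, Q β x := by
  classical
  by_contra hc
  have h1 := ae_not hc
  let f : II K → Set K := fun x => if h : ∃ β ∈ x.1, ¬ Q β x then h.choose else ∅
  have h2 : ∀ᶠ x in WF K, f x ∈ x.1 ∧ ¬ Q (f x) x := by
    refine h1.mono fun x hx => ?_
    push Not at hx
    have : ∃ β ∈ x.1, ¬ Q β x := hx
    simp only [f, dif_pos this]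
    exact this.choose_spec
  obtain ⟨a, ha⟩ := SC.normal f (h2.mono fun x hx => hx.1)
  obtain ⟨x, ⟨-, hx1⟩, hx2, hx3⟩ := (h2.and ((show ∀ᶠ x in WF K, f x = a from ha).and (h a))).exists
  exact hx1 (hx2 ▸ hx3)

def flat (x : II K) : Set K := {k | {k} ∈ x.1}

omit [SC K] [LinearOrder K] in
theorem mk_flat_lt (x : II K) : #(flat x) < #K :=
  (mk_preimage_of_injective (fun k : K => ({k} : Set K)) x.1 singleton_injective).trans_lt x.2

variable [WellFoundedLT K]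

noncomputable def rho (x : II K) : K :=
  wellFounded_lt.min (flat x)ᶜ (compl_nonempty_of_mk_lt_mk (mk_flat_lt x))

omit [SC K] in
theorem rho_notMem (x : II K) : rho x ∉ flat x :=
  wellFounded_lt.min_mem (flat x)ᶜ (compl_nonempty_of_mk_lt_mk (mk_flat_lt x))

omit [SC K] in
theorem mem_flat_of_lt {x : II K} {k : K} (h : k < rho x) : k ∈ flat x := by
  by_contra hc
  exact wellFounded_lt.not_lt_min (flat x)ᶜ hc h

omit [WellFoundedLT K] in
theorem mk_Iic_lt (k : K) : #(Iic k) < #K := by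
  rw [← Iio_insert]
  exact mk_insert_le.trans_lt (add_lt_of_lt aleph0_le_K (SC.iio k) (one_lt_aleph0.trans SC.unc))

theorem ae_lt_rho (k : K) : ∀ᶠ x in WF K, k < rho x := by
  have : ∀ᶠ x in WF K, ∀ z ∈ Iic k, z ∈ flat x :=
    ae_ball (mk_Iic_lt k) fun z _ => SC.fine {z}
  refine this.mono fun x hx => ?_
  by_contra hc
  exact rho_notMem x (hx _ (not_lt.1 hc))

theorem ae_set_lt_rho {S : Set K} (hS : #S < #K) : ∀ᶠ x in WF K, ∀ z ∈ S, z < rho x :=
  ae_ball hS fun z _ => ae_lt_rho z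

theorem bounded {S : Set K} (hS : #S < #K) : ∃ k, ∀ z ∈ S, z < k :=
  let ⟨x, hx⟩ := (ae_set_lt_rho hS).exists; ⟨rho x, hx⟩

theorem bounded_fam {ι : Type u} (f : ι → K) (h : #ι < #K) : ∃ k, ∀ i, f i < k :=
  let ⟨k, hk⟩ := bounded (mk_range_le.trans_lt h : #(range f) < #K); ⟨k, fun i => hk _ ⟨i, rfl⟩⟩

theorem regress {g : II K → K} (h : ∀ᶠ x in WF K, g x < rho x) : ∃ k, ∀ᶠ x in WF K, g x = k := by
  obtain ⟨a, ha⟩ := SC.normal (fun x => {g x}) (h.mono fun x hx => mem_flat_of_lt hx)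
  have ha' : ∀ᶠ x in WF K, ({g x} : Set K) = a := ha
  obtain ⟨x₀, h₀⟩ := ha'.exists
  exact ⟨g x₀, ha'.mono fun x hx => singleton_injective (hx.trans h₀.symm)⟩

theorem diagK {Q : K → II K → Prop} (h : ∀ k, ∀ᶠ x in WF K, Q k x) :
    ∀ᶠ x in WF K, ∀ k, k < rho x → Q k x := by
  have := diag (Q := fun β x => ∀ k, β = {k} → Q k x) (fun β => by
    by_cases hβ : ∃ k, β = {k}
    · obtain ⟨k, rfl⟩ := hβ
      exact (h k).mono fun x hx k' hk' => singleton_injective hk' ▸ hx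
    · exact Eventually.of_forall fun x k hk => absurd ⟨k, hk⟩ hβ)
  exact this.mono fun x hx k hk => hx {k} (mem_flat_of_lt hk) k rfl

theorem exists_le_mk_Iio {c : Cardinal.{u}} (hc : c < #K) : ∃ k : K, c ≤ #(Iio k) := by
  obtain ⟨S, hS⟩ := le_mk_iff_exists_set.1 hc.le
  obtain ⟨k, hk⟩ := bounded (hS.trans_lt hc)
  exact ⟨k, hS ▸ mk_le_mk_of_subset hk⟩

theorem iSup_lt_K {ι : Type u} (f : ι → Cardinal.{u}) (h : #ι < #K) (hf : ∀ i, f i < #K) :
    ∃ c < #K, ∀ i, f i ≤ c := by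
  choose g hg using fun i => exists_le_mk_Iio (hf i)
  obtain ⟨k, hk⟩ := bounded_fam g h
  exact ⟨#(Iio k), SC.iio k, fun i =>
    (hg i).trans (mk_le_mk_of_subset (Iio_subset_Iio (hk i).le))⟩

theorem mk_iUnion_lt_K {α ι : Type u} (f : ι → Set α) (h : #ι < #K) (hf : ∀ i, #(f i) < #K) :
    #(⋃ i, f i) < #K := by
  obtain ⟨c, hc, h1⟩ := iSup_lt_K (fun i => #(f i)) h hf
  exact (mk_iUnion_le f).trans_lt
    ((mul_le_mul' le_rfl (ciSup_le' h1)).trans_lt (mul_lt_of_lt aleph0_le_K h hc))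

omit [WellFoundedLT K] in
theorem mk_union_lt_K {α : Type u} {S T : Set α} (hS : #S < #K) (hT : #T < #K) :
    #(S ∪ T : Set α) < #K :=
  (mk_union_le S T).trans_lt (add_lt_of_lt aleph0_le_K hS hT)

omit [WellFoundedLT K] in
theorem mk_union_le_K {α : Type u} {S T : Set α} (hS : #S ≤ #K) (hT : #T ≤ #K) :
    #(S ∪ T : Set α) ≤ #K :=
  (mk_union_le S T).trans (add_le_of_le aleph0_le_K hS hT)

theorem two_pow_lt {c : Cardinal.{u}} (hc : c < #K) : 2 ^ c < #K := by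
  by_contra hcon
  have h1 : #K ≤ #(Set c.out) := by rw [mk_set, mk_out]; exact not_lt.1 hcon
  obtain ⟨e⟩ := h1
  have h2 : ∀ᶠ x in WF K, ∀ i : c.out, (i ∈ e (rho x) ↔ ∀ᶠ y in WF K, i ∈ e (rho y)) := by
    apply ae_forall (by rwa [mk_out])
    intro i
    by_cases h : ∀ᶠ y in WF K, i ∈ e (rho y)
    · exact h.mono fun x hx => ⟨fun _ => h, fun _ => hx⟩
    · exact (ae_not h).mono fun x hx => ⟨fun h' => absurd h' hx, fun h' => absurd h' h⟩
  obtain ⟨x₀, h₀⟩ := h2.exists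
  obtain ⟨x, hx1, hx2⟩ := (h2.and (ae_lt_rho (rho x₀))).exists
  have : e (rho x) = e (rho x₀) := by
    ext i; rw [hx1 i, h₀ i]
  exact hx2.ne' (e.injective this)

theorem succ_lt_K {c : Cardinal.{u}} (hc : c < #K) : Order.succ c < #K :=
  (Order.succ_le_of_lt (cantor c)).trans_lt (two_pow_lt hc)

noncomputable def wk (k : K) : Cardinal.{u} := 2 ^ #(Iio k)

theorem wk_lt (k : K) : wk k < #K := two_pow_lt (SC.iio k)

omit [SC K] [WellFoundedLT K] in
theorem mk_Iio_le_wk (k : K) : #(Iio k) ≤ wk k := (cantor _).le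

theorem ae_le_mk_Iio_rho {c : Cardinal.{u}} (hc : c < #K) :
    ∀ᶠ x in WF K, c ≤ #(Iio (rho x)) := by
  obtain ⟨k, hk⟩ := exists_le_mk_Iio hc
  exact (ae_lt_rho k).mono fun x hx => hk.trans (mk_le_mk_of_subset (Iio_subset_Iio hx.le))

theorem ae_separated : ∀ᶠ x in WF K, ∀ β ∈ x.1, ∀ β' ∈ x.1,
    (∀ k, k < rho x → (k ∈ β ↔ k ∈ β')) → β = β' := by
  refine diag (Q := fun β x => ∀ β' ∈ x.1, (∀ k, k < rho x → (k ∈ β ↔ k ∈ β')) → β = β')
    fun β => diag fun β' => ?_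
  by_cases h : β = β'
  · exact Eventually.of_forall fun _ _ => h
  · have : ∃ k, ¬ (k ∈ β ↔ k ∈ β') := by
      by_contra hc
      push Not at hc
      exact h (Set.ext hc)
    obtain ⟨k, hk⟩ := this
    exact (ae_lt_rho k).mono fun x hx h' => absurd (h' k hx) hk

theorem ae_mk_le_wk : ∀ᶠ x in WF K, #x.1 ≤ wk (rho x) := by
  refine ae_separated.mono fun x hx => ?_
  rw [wk, ← mk_set]
  refine mk_le_of_injective (f := fun β : x.1 => (Subtype.val ⁻¹' β.1 : Set (Iio (rho x)))) ?_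
  intro β β' h
  refine Subtype.ext (hx _ β.2 _ β'.2 fun k hk => ?_)
  exact Set.ext_iff.1 h ⟨k, hk⟩

omit [SC K] [WellFoundedLT K] in
theorem mk_powerset_Iio (k : K) : #(𝒫 (Iio k)) = wk k := mk_powerset _

theorem mk_small_le {α : Type u} (h : #α ≤ #K) : #{S : Set α | #S < #K} ≤ #K := by
  obtain ⟨e⟩ := h
  have h1 : #{S : Set K | #S < #K} ≤ #K := by
    have : {S : Set K | #S < #K} ⊆ ⋃ k : K, 𝒫 (Iio k) := by
      intro S hS
      obtain ⟨k, hk⟩ := bounded hS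
      exact mem_iUnion.2 ⟨k, hk⟩
    exact (mk_le_mk_of_subset this).trans (mk_iUnion_le_of_le _ aleph0_le_K le_rfl fun k =>
      (mk_powerset_Iio k).trans_le (wk_lt k).le)
  refine le_trans ?_ h1
  refine mk_le_of_injective (f := fun S : {S : Set α | #S < #K} =>
    (⟨e '' S.1, mk_image_le.trans_lt S.2⟩ : {S : Set K | #S < #K})) ?_
  intro S S' h
  exact Subtype.ext ((image_injective.2 e.injective) (congrArg Subtype.val h))

theorem exists_dec {α : Type u} (h : #α ≤ #K) :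
    ∃ (enc : Set α → K) (dec : K → Set α), ∀ S : Set α, #S < #K → dec (enc S) = S := by
  classical
  obtain ⟨e⟩ := mk_small_le h
  refine ⟨fun S => if h : #S < #K then e ⟨S, h⟩ else Classical.arbitrary K,
    fun k => if h : ∃ S, e S = k then h.choose.1 else ∅, fun S hS => ?_⟩
  have : ∃ S', e S' = e ⟨S, hS⟩ := ⟨_, rfl⟩
  simp only [dif_pos hS, dif_pos this]
  exact congrArg Subtype.val (e.injective this.choose_spec)

variable (K) in
noncomputable def kz : K := wellFounded_lt.min (univ : Set K) univ_nonempty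

theorem exists_decF : ∃ decF : K → K → K, ∀ g : K → K, #{z | g z ≠ kz K} < #K →
    ∃ k, decF k = g := by
  classical
  obtain ⟨enc, dec, h⟩ := exists_dec (K := K) (α := K × K)
    (by rw [mk_prod, lift_id, mul_eq_self aleph0_le_K])
  refine ⟨fun k z => if h : ∃ y, (z, y) ∈ dec k then h.choose else kz K, fun g hg => ?_⟩
  refine ⟨enc ((fun z => (z, g z)) '' {z | g z ≠ kz K}), funext fun z => ?_⟩
  have h0 := h ((fun z => (z, g z)) '' {z | g z ≠ kz K}) (mk_image_le.trans_lt hg)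
  simp only [h0]
  split_ifs with h1
  · obtain ⟨z', -, h2⟩ := h1.choose_spec
    obtain ⟨h3, h4⟩ := Prod.mk.inj h2
    rw [← h4, h3]
  · by_contra hc
    exact h1 ⟨g z, z, fun h => hc h.symm, rfl⟩

theorem exists_gt_K (k : K) : ∃ k', k < k' := let ⟨x, hx⟩ := (ae_lt_rho k).exists; ⟨_, hx⟩

noncomputable def nx (k : K) : K := (exists_gt_K k).choose

theorem lt_nx (k : K) : k < nx k := (exists_gt_K k).choose_spec

/-! ### Support systems -/

structure IsSupp {D : Type u} (d : Set D) (s : II K → Set D) : Prop where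
  sub : ∀ x, s x ⊆ d
  small : ∀ x, #(s x) < #K
  fine : ∀ a ∈ d, ∀ᶠ x in WF K, a ∈ s x
  normal : ∀ g : II K → D, (∀ᶠ x in WF K, g x ∈ s x) → ∃ a, ∀ᶠ x in WF K, g x = a

theorem exists_supp {D : Type u} {d : Set D} (hd : #d ≤ #K) : ∃ s : II K → Set D, IsSupp d s := by
  classical
  obtain ⟨e⟩ := hd
  refine ⟨fun x => {a | ∃ h : a ∈ d, e ⟨a, h⟩ < rho x}, fun x a h => h.1, fun x => ?_,
    fun a ha => (ae_lt_rho (e ⟨a, ha⟩)).mono fun x hx => ⟨ha, hx⟩, fun g hg => ?_⟩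
  · refine lt_of_le_of_lt ?_ (SC.iio (rho x))
    refine mk_le_of_injective (f := fun a : {a | ∃ h : a ∈ d, e ⟨a, h⟩ < rho x} =>
      (⟨e ⟨a.1, a.2.1⟩, a.2.2⟩ : Iio (rho x))) ?_
    intro a b h
    have h1 : (⟨a.1, a.2.1⟩ : d) = ⟨b.1, b.2.1⟩ := e.injective (congrArg Subtype.val h)
    exact Subtype.ext (Subtype.mk.inj h1)
  · obtain ⟨k, hk⟩ := regress (g := fun x => if h : g x ∈ d then e ⟨g x, h⟩ else kz K)
      (hg.mono fun x hx => by rw [dif_pos hx.1]; exact hx.2)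
    have h1 : ∀ᶠ x in WF K, ∃ h : g x ∈ d, e ⟨g x, h⟩ = k :=
      (hg.and hk).mono fun x hx => ⟨hx.1.1, by have := hx.2; rwa [dif_pos hx.1.1] at this⟩
    obtain ⟨x₀, h₀, h₁⟩ := h1.exists
    exact ⟨g x₀, h1.mono fun x ⟨h2, h3⟩ =>
      congrArg Subtype.val (e.injective (h3.trans h₁.symm))⟩

omit [WellFoundedLT K] in
theorem IsSupp.ae_subset {D : Type u} {d d' : Set D} {s s' : II K → Set D} (h : IsSupp d s)
    (h' : IsSupp d' s') : ∀ᶠ x in WF K, s x ∩ d' ⊆ s' x := by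
  classical
  by_contra hc
  have h1 : ∀ᶠ x in WF K, ∃ a, a ∈ s x ∩ d' ∧ a ∉ s' x :=
    (ae_not hc).mono fun x hx => not_subset.1 hx
  obtain ⟨x₀, a₀, -⟩ := h1.exists
  let g : II K → D := fun x => if h : ∃ a, a ∈ s x ∩ d' ∧ a ∉ s' x then h.choose else a₀
  have h2 : ∀ᶠ x in WF K, g x ∈ s x ∩ d' ∧ g x ∉ s' x := h1.mono fun x hx => by
    simp only [g, dif_pos hx]; exact hx.choose_spec
  obtain ⟨a, ha⟩ := h.normal g (h2.mono fun x hx => hx.1.1)
  obtain ⟨x₁, hx₁, hx₂⟩ := (h2.and ha).exists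
  obtain ⟨x, hx1, hx2, hx3⟩ := (h2.and (ha.and (h'.fine a (hx₂ ▸ hx₁.1.2)))).exists
  exact hx1.2 (hx2 ▸ hx3)

omit [WellFoundedLT K] in
theorem IsSupp.coherent {D : Type u} {d d' : Set D} {s s' : II K → Set D} (h : IsSupp d s)
    (h' : IsSupp d' s') (hd : d ⊆ d') : ∀ᶠ x in WF K, s' x ∩ d = s x := by
  filter_upwards [h.ae_subset h', h'.ae_subset h] with x h1 h2
  exact subset_antisymm h2 fun a ha => ⟨h1 ⟨ha, hd (h.sub x ha)⟩, h.sub x ha⟩

end Pool.Agent.Lib.MP_2739cb_lc
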