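import Pool.Agent.Lib.MP_2739cb_lc.Measure

/-! The step-down lemma: capturing `2 ^ κ` many small sets and projecting them one level down. -/

namespace Pool.Agent.Lib.MP_2739cb_lc

open Cardinal Filter Set

universe u v

variable {K : Type u} [LinearOrder K] [SC K] [WellFoundedLT K]

omit [WellFoundedLT K] in
theorem exists_capture {G : Type u} (Γ : Set G) (hΓ : #Γ ≤ 2 ^ #K) :
    ∃ C : II K → Set G, (∀ x, #(C x) ≤ #x.1) ∧ ∀ g ∈ Γ, ∀ᶠ x in WF K, g ∈ C x := by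
  rw [← mk_set] at hΓ
  obtain ⟨e⟩ := hΓ
  refine ⟨fun x => Subtype.val '' (e ⁻¹' x.1), fun x =>
    mk_image_le.trans (mk_preimage_of_injective e _ e.injective), fun g hg => ?_⟩
  exact (show ∀ᶠ x in WF K, e ⟨g, hg⟩ ∈ x.1 from SC.fine _).mono fun x hx => ⟨⟨g, hg⟩, hx, rfl⟩

theorem sup_lemma {G : Type u} (Γ : Set G) (hΓ : #Γ ≤ 2 ^ #K) (h : G → II K → K) :
    ∃ e : II K → K, ∀ g ∈ Γ, ∀ᶠ x in WF K, h g x ≤ e x := by
  obtain ⟨C, h1, h2⟩ := exists_capture Γ hΓ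
  choose e he using fun x => bounded_fam (fun g : C x => h g.1 x) ((h1 x).trans_lt x.2)
  exact ⟨e, fun g hg => (h2 g hg).mono fun x hx => (he x ⟨g, hx⟩).le⟩

def proj (enc : Set K → K) (dec : K → Set K) (f : K → K) (η : K) (z : K) : K :=
  enc (dec (f z) ∩ Iio η)

theorem exists_iota {enc : Set K → K} {dec : K → Set K}
    (hd : ∀ S : Set K, #S < #K → dec (enc S) = S) (S : Set K) (k : K) (hS : #S ≤ wk k) :
    ∃ f : K → K, #{z | f z ≠ kz K} < #K ∧ ∀ z ∈ S, ∀ z' ∈ S, z ≠ z' →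
      ∃ j, j < k ∧ ¬ (j ∈ dec (f z) ↔ j ∈ dec (f z')) := by
  classical
  rw [← mk_powerset_Iio] at hS
  obtain ⟨e⟩ := hS
  refine ⟨fun z => if h : z ∈ S then enc (e ⟨z, h⟩).1 else kz K, ?_, fun z hz z' hz' hne => ?_⟩
  · refine lt_of_le_of_lt (mk_le_mk_of_subset (t := S) fun z hz => ?_)
      ((mk_le_of_injective e.injective).trans_lt ((mk_powerset_Iio k).trans_lt (wk_lt k)))
    by_contra h
    exact hz (dif_neg h)
  · have h1 : ∀ T : 𝒫 (Iio k), dec (enc T.1) = T.1 := fun T =>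
      hd _ ((mk_le_mk_of_subset T.2).trans_lt (SC.iio k))
    simp only [dif_pos hz, dif_pos hz', h1]
    by_contra hc
    push Not at hc
    apply hne
    have : e ⟨z, hz⟩ = e ⟨z', hz'⟩ := by
      refine Subtype.ext (Set.ext fun j => ?_)
      by_cases hj : j < k
      · exact hc j hj
      · exact ⟨fun h => absurd ((e ⟨z, hz⟩).2 h) hj, fun h => absurd ((e ⟨z', hz'⟩).2 h) hj⟩
    exact congrArg Subtype.val (e.injective this)

theorem exists_phi {J : Type u} (Z : J → Set K) (k : K) (hk : ℵ₀ ≤ wk k) (hJ : #J ≤ wk k)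
    (hZ : ∀ j, #(Z j) = wk k) :
    ∃ f : K → K, #{z | f z ≠ kz K} < #K ∧ (∀ z, f z = kz K ∨ f z < k) ∧
      ∀ j, ∀ i, i < k → ∃ z ∈ Z j, f z = i := by
  classical
  have h1 : #(J × Iio k) ≤ wk k := by
    rw [mk_prod, lift_id, lift_id]
    exact (mul_le_mul' hJ (mk_Iio_le_wk k)).trans (mul_eq_self hk).le
  obtain ⟨ζ, h2, h3⟩ := exists_injective_selector (J := J × Iio k) (fun j => Z j.1)
    fun j => h1.trans (hZ j.1).ge
  refine ⟨fun z => if h : ∃ j, ζ j = z then h.choose.2.1 else kz K, ?_, fun z => ?_,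
    fun j i hi => ⟨ζ (j, ⟨i, hi⟩), h3 (j, ⟨i, hi⟩), ?_⟩⟩
  · refine lt_of_le_of_lt (mk_le_mk_of_subset (t := range ζ) fun z hz => ?_)
      (mk_range_le.trans_lt (h1.trans_lt (wk_lt k)))
    by_contra h
    exact hz (dif_neg h)
  · simp only
    split_ifs with h
    · exact Or.inr h.choose.2.2
    · exact Or.inl rfl
  · have h : ∃ j', ζ j' = ζ (j, ⟨i, hi⟩) := ⟨_, rfl⟩
    simp only [dif_pos h]
    rw [h2 h.choose_spec]

theorem step_lemma {G : Type u} (Γ : Set G) (hΓ : #Γ ≤ 2 ^ #K) (y : G → II K → Set K)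
    {enc : Set K → K} {dec : K → Set K} (hd : ∀ S : Set K, #S < #K → dec (enc S) = S) :
    ∃ ι φ : II K → K → K, (∀ x, #{z | ι x z ≠ kz K} < #K) ∧ (∀ x, #{z | φ x z ≠ kz K} < #K) ∧
      (∀ g ∈ Γ, ∀ᶠ x in WF K, #(y g x) = wk (rho x) → ∀ k, k < rho x → ∃ z ∈ y g x, φ x z = k) ∧
      ∀ g ∈ Γ, ∀ w < #K, (∀ x, #(y g x) ≤ w) → ∃ h : K, ∀ η, h ≤ η → ∃ Y : Set K, #Y ≤ w ∧
        ∀ᶠ x in WF K, InjOn (proj enc dec (ι x) η) (y g x) ∧
          proj enc dec (ι x) η '' y g x = Y ∧ ∀ z ∈ y g x, φ x z < η := by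
  classical
  obtain ⟨C, hC1, hC2⟩ := exists_capture Γ hΓ
  let ok : II K → Prop := fun x => ℵ₀ ≤ wk (rho x) ∧ #x.1 ≤ wk (rho x)
  have hok : ∀ᶠ x in WF K, ok x :=
    ((ae_le_mk_Iio_rho SC.unc).mono fun x hx => hx.trans (mk_Iio_le_wk _)).and ae_mk_le_wk
  have h0 : #{z : K | kz K ≠ kz K} < #K := by simpa using aleph0_pos.trans SC.unc
  have hι : ∀ x : II K, ∃ f : K → K, #{z | f z ≠ kz K} < #K ∧ (ok x → ∀ g ∈ C x,
      #(y g x) ≤ wk (rho x) → ∀ z ∈ y g x, ∀ z' ∈ y g x, z ≠ z' →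
        ∃ j, j < rho x ∧ ¬ (j ∈ dec (f z) ↔ j ∈ dec (f z'))) := by
    intro x
    by_cases hx : ok x
    · let J := {g // g ∈ C x ∧ #(y g x) ≤ wk (rho x)}
      have hJ : #J ≤ wk (rho x) := (mk_subtype_mono fun g hg => hg.1).trans ((hC1 x).trans hx.2)
      obtain ⟨f, h1, h2⟩ := exists_iota hd (⋃ g : J, y g.1 x) (rho x)
        (mk_iUnion_le_of_le _ hx.1 hJ fun g => g.2.2)
      exact ⟨f, h1, fun _ g hg hy z hz z' hz' =>
        h2 z (mem_iUnion.2 ⟨⟨g, hg, hy⟩, hz⟩) z' (mem_iUnion.2 ⟨⟨g, hg, hy⟩, hz'⟩)⟩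
    · exact ⟨fun _ => kz K, h0, fun h => absurd h hx⟩
  have hφ : ∀ x : II K, ∃ f : K → K, #{z | f z ≠ kz K} < #K ∧ (∀ z, f z = kz K ∨ f z < rho x) ∧
      (ok x → ∀ g ∈ C x, #(y g x) = wk (rho x) → ∀ k, k < rho x → ∃ z ∈ y g x, f z = k) := by
    intro x
    by_cases hx : ok x
    · let J := {g // g ∈ C x ∧ #(y g x) = wk (rho x)}
      have hJ : #J ≤ wk (rho x) := (mk_subtype_mono fun g hg => hg.1).trans ((hC1 x).trans hx.2)
      obtain ⟨f, h1, h2, h3⟩ := exists_phi (fun g : J => y g.1 x) (rho x) hx.1 hJ fun g => g.2.2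
      exact ⟨f, h1, h2, fun _ g hg hy => h3 ⟨g, hg, hy⟩⟩
    · exact ⟨fun _ => kz K, h0, fun _ => Or.inl rfl, fun h => absurd h hx⟩
  choose ι hι1 hι2 using hι
  choose φ hφ1 hφ2 hφ3 using hφ
  refine ⟨ι, φ, hι1, hφ1, fun g hg => ?_, fun g hg w hw hy => ?_⟩
  · filter_upwards [hok, hC2 g hg] with x h1 h2 using hφ3 x h1 g h2
  -- enumerate the sets `y g x`
  have hz : ∀ x, ∃ z : w.out → K, y g x ⊆ range z := by
    intro x
    have h1 : #(y g x) ≤ #w.out := by rw [mk_out]; exact hy x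
    obtain ⟨e⟩ := h1
    refine ⟨fun i => if h : ∃ a, e a = i then h.choose.1 else kz K, fun a ha => ⟨e ⟨a, ha⟩, ?_⟩⟩
    have h : ∃ a', e a' = e ⟨a, ha⟩ := ⟨_, rfl⟩
    simp only [dif_pos h]
    exact congrArg Subtype.val (e.injective h.choose_spec)
  choose z hz using hz
  have hwo : #w.out < #K := by rwa [mk_out]
  have hgood : ∀ᶠ x in WF K, ∀ a ∈ y g x, ∀ a' ∈ y g x, a ≠ a' →
      ∃ j, j < rho x ∧ ¬ (j ∈ dec (ι x a) ↔ j ∈ dec (ι x a')) := by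
    filter_upwards [hok, hC2 g hg, ae_le_mk_Iio_rho hw] with x h1 h2 h3
    exact hι2 x h1 g h2 ((hy x).trans (h3.trans (mk_Iio_le_wk _)))
  have hΔ : ∀ i : w.out × w.out, ∃ k, ∀ᶠ x in WF K, z x i.1 ∈ y g x → z x i.2 ∈ y g x →
      z x i.1 ≠ z x i.2 → ¬ (k ∈ dec (ι x (z x i.1)) ↔ k ∈ dec (ι x (z x i.2))) := by
    intro i
    let Δ : II K → K := fun x =>
      if h : ∃ j, j < rho x ∧ ¬ (j ∈ dec (ι x (z x i.1)) ↔ j ∈ dec (ι x (z x i.2))) then h.choose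
      else kz K
    obtain ⟨k, hk⟩ := regress (g := Δ) ((ae_lt_rho (kz K)).mono fun x hx => by
      simp only [Δ]
      split_ifs with h
      · exact h.choose_spec.1
      · exact hx)
    refine ⟨k, ?_⟩
    filter_upwards [hgood, hk] with x h1 h2 h3 h4 h5
    have h := h1 _ h3 _ h4 h5
    simp only [Δ, dif_pos h] at h2
    exact h2 ▸ h.choose_spec.2
  have hc : ∀ i : w.out, ∃ k, ∀ᶠ x in WF K, φ x (z x i) = k := fun i =>
    regress ((ae_lt_rho (kz K)).mono fun x hx => (hφ2 x _).elim (fun h => h ▸ hx) id)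
  choose Δ hΔ using hΔ
  choose c hc using hc
  have hww : #(w.out × w.out) < #K := by
    rw [mk_prod, lift_id]; exact mul_lt_of_lt aleph0_le_K hwo hwo
  obtain ⟨k₁, hk₁⟩ := bounded_fam Δ hww
  obtain ⟨k₂, hk₂⟩ := bounded_fam c hwo
  refine ⟨max k₁ k₂, fun η hη => ?_⟩
  have hS : #(𝒫 (enc '' 𝒫 (Iio η))) < #K := by
    rw [mk_powerset]
    exact two_pow_lt (mk_image_le.trans_lt ((mk_powerset_Iio η).trans_lt (wk_lt η)))
  obtain ⟨Y, -, hY⟩ := ae_const (fun x => proj enc dec (ι x) η '' y g x) hS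
    (Eventually.of_forall fun x => by
      rintro _ ⟨a, -, rfl⟩
      exact ⟨_, inter_subset_right, rfl⟩)
  refine ⟨Y, ?_, ?_⟩
  · obtain ⟨x, hx⟩ := hY.exists
    rw [← hx]
    exact mk_image_le.trans (hy x)
  · filter_upwards [hY, ae_forall hww hΔ, ae_forall hwo hc] with x h1 h2 h3
    refine ⟨fun a ha a' ha' h => ?_, h1, fun a ha => ?_⟩
    · obtain ⟨i, rfl⟩ := hz x ha
      obtain ⟨i', rfl⟩ := hz x ha'
      by_contra hne
      apply h2 (i, i') ha ha' hne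
      have h4 : ∀ S : Set K, dec (enc (S ∩ Iio η)) = S ∩ Iio η := fun S =>
        hd _ ((mk_le_mk_of_subset inter_subset_right).trans_lt (SC.iio η))
      have h5 := congrArg dec h
      simp only [proj, h4] at h5
      have h6 : Δ (i, i') < η := (hk₁ _).trans_le ((le_max_left _ _).trans hη)
      have h7 := Set.ext_iff.1 h5 (Δ (i, i'))
      simpa [h6] using h7
    · obtain ⟨i, rfl⟩ := hz x ha
      rw [h3 i]
      exact (hk₂ _).trans_le ((le_max_right _ _).trans hη)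

end Pool.Agent.Lib.MP_2739cb_lc
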