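import Pool.Agent.Lib.MP_2739cb_lc.Names
import Pool.Agent.Lib.MP_2739cb_lc.Measure
import Pool.Agent.Lib.MP_2739cb_lc.Step

-- part Pool.Agent.Lib.MP_2739cb_lc.Poset
section

/-! The forcing notion: an extender-based Prikry type forcing whose coordinates are all the
functions from the index set of the measure to `K`. -/

namespace Pool.Agent.Lib.MP_2739cb_lc

open Cardinal Filter Set

universe u v

abbrev DD (K : Type u) := II K → K

@[ext] structure St (K : Type u) where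
  len : ℕ
  F : DD K → ℕ → K

variable {K : Type u} [LinearOrder K] [SC K] [WellFoundedLT K]

namespace St

open Classical in
noncomputable def res (d : Set (DD K)) (σ : St K) : St K :=
  ⟨σ.len, fun a => if a ∈ d then σ.F a else fun _ => kz K⟩

open Classical in
noncomputable def step (s : II K → Set (DD K)) (σ : St K) (x : II K) : St K :=
  ⟨σ.len + 1, fun a => if a ∈ s x then Function.update (σ.F a) σ.len (a x) else σ.F a⟩

@[simp] theorem res_len (d : Set (DD K)) (σ : St K) : (σ.res d).len = σ.len := rfl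

omit [SC K] [WellFoundedLT K] [LinearOrder K] in
@[simp] theorem step_len (s : II K → Set (DD K)) (σ : St K) (x : II K) :
    (σ.step s x).len = σ.len + 1 := rfl

theorem res_F {d : Set (DD K)} (σ : St K) {a : DD K} (h : a ∈ d) : (σ.res d).F a = σ.F a := by
  simp [res, h]

theorem res_F_not {d : Set (DD K)} (σ : St K) {a : DD K} (h : a ∉ d) :
    (σ.res d).F a = fun _ => kz K := by
  simp [res, h]

theorem res_eq_res {d : Set (DD K)} {σ τ : St K} (h1 : σ.len = τ.len)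
    (h2 : ∀ a ∈ d, σ.F a = τ.F a) : σ.res d = τ.res d := by
  refine St.ext h1 (funext fun a => ?_)
  by_cases h : a ∈ d
  · rw [res_F _ h, res_F _ h, h2 a h]
  · rw [res_F_not _ h, res_F_not _ h]

theorem res_res {d d' : Set (DD K)} (h : d ⊆ d') (σ : St K) : (σ.res d').res d = σ.res d :=
  res_eq_res rfl fun _ ha => res_F _ (h ha)

omit [SC K] [WellFoundedLT K] [LinearOrder K] in
theorem step_F_ne (s : II K → Set (DD K)) (σ : St K) (x : II K) (a : DD K) {n : ℕ}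
    (h : n ≠ σ.len) : (σ.step s x).F a n = σ.F a n := by
  simp only [step]
  split_ifs
  · exact Function.update_of_ne h _ _
  · rfl

omit [SC K] [WellFoundedLT K] [LinearOrder K] in
theorem step_F_self {s : II K → Set (DD K)} (σ : St K) {x : II K} {a : DD K} (h : a ∈ s x) :
    (σ.step s x).F a σ.len = a x := by
  simp [step, h]

omit [SC K] [WellFoundedLT K] [LinearOrder K] in
theorem step_F_not {s : II K → Set (DD K)} (σ : St K) {x : II K} {a : DD K} (h : a ∉ s x) :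
    (σ.step s x).F a = σ.F a := by
  simp [step, h]

theorem res_step {d : Set (DD K)} {s s' : II K → Set (DD K)} (τ : St K) {x : II K}
    (h : s' x ∩ d = s x) : (τ.step s' x).res d = (τ.res d).step s x := by
  refine St.ext rfl (funext fun a => ?_)
  by_cases ha : a ∈ d
  · rw [res_F _ ha]
    by_cases hs : a ∈ s' x
    · have hs' : a ∈ s x := h ▸ ⟨hs, ha⟩
      simp [step, hs, hs', res_F _ ha]
    · have hs' : a ∉ s x := fun h' => hs (h ▸ h' : a ∈ s' x ∩ d).1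
      rw [step_F_not _ hs, step_F_not _ hs', res_F _ ha]
  · have hs' : a ∉ s x := fun h' => ha (h ▸ h' : a ∈ s' x ∩ d).2
    rw [res_F_not _ ha, step_F_not _ hs', res_F_not _ ha]

end St

inductive Reach (s : II K → Set (DD K)) (A : St K → Set (II K)) (σ : St K) : St K → Prop
  | base : Reach s A σ σ
  | step {τ : St K} {x : II K} : Reach s A σ τ → x ∈ A τ → Reach s A σ (τ.step s x)

namespace Reach

variable {s : II K → Set (DD K)} {A : St K → Set (II K)} {σ τ υ : St K}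

omit [SC K] [WellFoundedLT K] [LinearOrder K]

theorem len_le (h : Reach s A σ τ) : σ.len ≤ τ.len := by
  induction h with
  | base => exact le_rfl
  | step _ _ ih => exact ih.trans (Nat.le_succ _)

theorem eq_of_len (h : Reach s A σ τ) (hl : τ.len ≤ σ.len) : τ = σ := by
  cases h with
  | base => rfl
  | step h _ => exact absurd (hl.trans h.len_le) (Nat.not_succ_le_self _)

theorem trans (h1 : Reach s A σ τ) (h2 : Reach s A τ υ) : Reach s A σ υ := by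
  induction h2 with
  | base => exact h1
  | step _ hx ih => exact ih.step hx

theorem F_lt (h : Reach s A σ τ) (a : DD K) {n : ℕ} (hn : n < σ.len) : τ.F a n = σ.F a n := by
  induction h with
  | base => rfl
  | step h _ ih => rw [St.step_F_ne _ _ _ _ (hn.trans_le h.len_le).ne, ih]

theorem F_ge (h : Reach s A σ τ) (a : DD K) {n : ℕ} (hn : τ.len ≤ n) : τ.F a n = σ.F a n := by
  induction h with
  | base => rfl
  | step h _ ih =>
    rw [St.step_F_ne _ _ _ _ (Nat.lt_of_succ_le hn).ne', ih (Nat.le_of_succ_le hn)]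

theorem cases_head (h : Reach s A σ τ) : τ = σ ∨ ∃ x ∈ A σ, Reach s A (σ.step s x) τ := by
  induction h with
  | base => exact Or.inl rfl
  | step h hx ih =>
    rcases ih with rfl | ⟨y, hy, h1⟩
    · exact Or.inr ⟨_, hx, Reach.base⟩
    · exact Or.inr ⟨y, hy, h1.step hx⟩

theorem mono {A' : St K → Set (II K)} (h : Reach s A σ τ) (hA : ∀ τ, A τ ⊆ A' τ) :
    Reach s A' σ τ := by
  induction h with
  | base => exact base
  | step _ hx ih => exact ih.step (hA _ hx)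

/-- The ancestor of a given length. -/
theorem exists_anc (h : Reach s A σ τ) {j : ℕ} (h1 : σ.len ≤ j) (h2 : j < τ.len) :
    ∃ υ x, Reach s A σ υ ∧ υ.len = j ∧ x ∈ A υ ∧ Reach s A (υ.step s x) τ := by
  induction h with
  | base => exact absurd (h1.trans_lt h2) (lt_irrefl _)
  | @step τ x h hx ih =>
    rcases (Nat.le_of_lt_succ h2).eq_or_lt with h3 | h3
    · exact ⟨τ, x, h, h3.symm, hx, base⟩
    · obtain ⟨υ, y, h4, h5, h6, h7⟩ := ih h3
      exact ⟨υ, y, h4, h5, h6, h7.step hx⟩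

end Reach

structure Cond (K : Type u) [LinearOrder K] [SC K] [WellFoundedLT K] where
  d : Set (DD K)
  hd : #d ≤ #K
  s : II K → Set (DD K)
  hs : IsSupp d s
  σ : St K
  hσ : σ.res d = σ
  A : St K → Set (II K)
  hA : ∀ τ, A τ ∈ WF K

namespace Cond

abbrev R (p : Cond K) (τ : St K) : Prop := Reach p.s p.A p.σ τ

theorem res_of_reach (p : Cond K) {σ τ : St K} (h : Reach p.s p.A σ τ) (hσ : σ.res p.d = σ) :
    τ.res p.d = τ := by
  induction h with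
  | base => exact hσ
  | step _ _ ih => rw [St.res_step _ (inter_eq_left.2 (p.hs.sub _)), ih]

theorem R.res_eq {p : Cond K} {τ : St K} (h : p.R τ) : τ.res p.d = τ := p.res_of_reach h p.hσ

theorem R.small {p : Cond K} {τ : St K} (h : p.R τ) :
    ∃ u ⊆ p.d, #u < #K ∧ ∀ a ∉ u, τ.F a = p.σ.F a := by
  induction h with
  | base => exact ⟨∅, empty_subset _, by simpa using aleph0_pos.trans SC.unc, fun _ _ => rfl⟩
  | @step τ x _ _ ih =>
    obtain ⟨u, h1, h2, h3⟩ := ih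
    refine ⟨u ∪ p.s x, union_subset h1 (p.hs.sub x), mk_union_lt_K h2 (p.hs.small x),
      fun a ha => ?_⟩
    rw [St.step_F_not _ fun h => ha (Or.inr h), h3 a fun h => ha (Or.inl h)]

def LE' (q p : Cond K) : Prop :=
  p.d ⊆ q.d ∧ p.R (q.σ.res p.d) ∧
    ∀ τ, q.R τ → ∀ x ∈ q.A τ, x ∈ p.A (τ.res p.d) ∧ q.s x ∩ p.d = p.s x

theorem LE'.reach {q p : Cond K} (h : LE' q p) {τ : St K} (hτ : q.R τ) : p.R (τ.res p.d) := by
  induction hτ with
  | base => exact h.2.1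
  | step h1 hx ih =>
    obtain ⟨h2, h3⟩ := h.2.2 _ h1 _ hx
    rw [St.res_step _ h3]
    exact Reach.step ih h2

instance : Preorder (Cond K) where
  le := LE'
  le_refl p := ⟨subset_rfl, by rw [p.hσ]; exact Reach.base, fun τ hτ x hx =>
    ⟨by rwa [hτ.res_eq], inter_eq_left.2 (p.hs.sub x)⟩⟩
  le_trans r q p h1 h2 := by
    refine ⟨h2.1.trans h1.1, ?_, fun τ hτ x hx => ?_⟩
    · have := h2.reach h1.2.1
      rwa [St.res_res h2.1] at this
    · obtain ⟨h3, h4⟩ := h1.2.2 τ hτ x hx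
      obtain ⟨h5, h6⟩ := h2.2.2 _ (h1.reach hτ) x h3
      rw [St.res_res h2.1] at h5
      refine ⟨h5, ?_⟩
      rw [← h6, ← h4, inter_assoc, inter_eq_right.2 h2.1]

theorem le_def {q p : Cond K} : q ≤ p ↔ p.d ⊆ q.d ∧ p.R (q.σ.res p.d) ∧
    ∀ τ, q.R τ → ∀ x ∈ q.A τ, x ∈ p.A (τ.res p.d) ∧ q.s x ∩ p.d = p.s x := Iff.rfl

theorem le_d {q p : Cond K} (h : q ≤ p) : p.d ⊆ q.d := h.1

theorem le_reach {q p : Cond K} (h : q ≤ p) {τ : St K} (hτ : q.R τ) : p.R (τ.res p.d) :=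
  LE'.reach h hτ

theorem le_A {q p : Cond K} (h : q ≤ p) {τ : St K} (hτ : q.R τ) {x : II K} (hx : x ∈ q.A τ) :
    x ∈ p.A (τ.res p.d) := (h.2.2 τ hτ x hx).1

theorem le_s {q p : Cond K} (h : q ≤ p) {τ : St K} (hτ : q.R τ) {x : II K} (hx : x ∈ q.A τ) :
    q.s x ∩ p.d = p.s x := (h.2.2 τ hτ x hx).2

theorem le_len {q p : Cond K} (h : q ≤ p) : p.σ.len ≤ q.σ.len := h.2.1.len_le

theorem le_F {q p : Cond K} (h : q ≤ p) {a : DD K} (ha : a ∈ p.d) {n : ℕ} (hn : n < p.σ.len) :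
    q.σ.F a n = p.σ.F a n := by
  rw [← h.2.1.F_lt a hn, St.res_F _ ha]

theorem exists_mem_A (p : Cond K) (τ : St K) {Q : II K → Prop} (hQ : ∀ᶠ x in WF K, Q x) :
    ∃ x ∈ p.A τ, Q x :=
  let ⟨x, hx⟩ := ((show ∀ᶠ x in WF K, x ∈ p.A τ from p.hA τ).and hQ).exists; ⟨x, hx⟩

omit [WellFoundedLT K] in
theorem isSupp_empty : IsSupp (∅ : Set (DD K)) fun _ : II K => ∅ where
  sub _ := subset_rfl
  small _ := by simpa using aleph0_pos.trans SC.unc
  fine _ h := h.elim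
  normal _ h := h.exists.elim fun _ h => h.elim

noncomputable def top : Cond K where
  d := ∅
  hd := by simp
  s _ := ∅
  hs := isSupp_empty
  σ := ⟨0, fun _ _ => kz K⟩
  hσ := St.ext rfl (funext fun a => St.res_F_not _ (notMem_empty a))
  A _ := univ
  hA _ := univ_mem

noncomputable instance : OrderTop (Cond K) where
  top := top
  le_top q := by
    refine ⟨empty_subset _, ?_, fun τ _ x _ => ⟨trivial, inter_empty _⟩⟩
    have : ∀ n, (top : Cond K).R ⟨n, fun _ _ => kz K⟩ := by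
      intro n
      induction n with
      | zero => exact Reach.base
      | succ n ih =>
        obtain ⟨x, -⟩ := (ae_lt_rho (kz K)).exists
        have := Reach.step (x := x) ih trivial
        convert this using 1
        exact St.ext rfl (funext fun a =>
          (St.step_F_not (s := (top : Cond K).s) (x := x) ⟨n, fun _ _ => kz K⟩
            (notMem_empty a)).symm)
    convert this q.σ.len using 1
    exact St.ext rfl (funext fun a => St.res_F_not _ (notMem_empty a))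

/-- The condition `p` moved to the state `τ`. -/
noncomputable def mv (p : Cond K) (τ : St K) : Cond K :=
  { p with σ := τ.res p.d, hσ := St.res_res subset_rfl τ }

@[simp] theorem mv_d (p : Cond K) (τ : St K) : (p.mv τ).d = p.d := rfl
@[simp] theorem mv_s (p : Cond K) (τ : St K) : (p.mv τ).s = p.s := rfl
@[simp] theorem mv_A (p : Cond K) (τ : St K) : (p.mv τ).A = p.A := rfl
@[simp] theorem mv_σ (p : Cond K) (τ : St K) : (p.mv τ).σ = τ.res p.d := rfl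

theorem mv_res (p : Cond K) {d : Set (DD K)} (h : p.d ⊆ d) (τ : St K) :
    p.mv (τ.res d) = p.mv τ := by
  simp only [mv, St.res_res h]

theorem mv_self (p : Cond K) : p.mv p.σ = p := by
  cases p with
  | mk d hd s hs σ hσ A hA => simp only [mv, hσ]

theorem mv_σ_of_R {p : Cond K} {τ : St K} (h : p.R τ) : (p.mv τ).σ = τ := h.res_eq

theorem mv_R {p : Cond K} {τ υ : St K} (h : p.R τ) : (p.mv τ).R υ ↔ Reach p.s p.A τ υ := by
  rw [R, mv_σ_of_R h]; rfl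

theorem mv_le_mv {q p : Cond K} (h : q ≤ p) {τ : St K} (hτ : q.R τ) : q.mv τ ≤ p.mv τ := by
  refine ⟨h.1, ?_, fun υ hυ x hx => h.2.2 υ (Reach.trans hτ ((mv_R hτ).1 hυ)) x hx⟩
  change Reach p.s p.A (τ.res p.d) ((τ.res q.d).res p.d)
  rw [St.res_res h.1]
  exact Reach.base

theorem mv_le_mv_of_reach {p : Cond K} {τ υ : St K} (hτ : τ.res p.d = τ)
    (h : Reach p.s p.A τ υ) : p.mv υ ≤ p.mv τ := by
  have hυ := p.res_of_reach h hτ
  refine ⟨subset_rfl, ?_, fun w hw x hx => ⟨?_, inter_eq_left.2 (p.hs.sub x)⟩⟩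
  · change Reach p.s p.A (τ.res p.d) ((υ.res p.d).res p.d)
    rwa [hτ, hυ, hυ]
  · change x ∈ p.A (w.res p.d)
    rwa [p.res_of_reach (σ := υ.res p.d) hw (St.res_res subset_rfl _)]

theorem mv_le {p : Cond K} {τ : St K} (h : p.R τ) : p.mv τ ≤ p := by
  have := mv_le_mv_of_reach p.hσ h
  rwa [mv_self] at this

theorem le_mv {q p : Cond K} (h : q ≤ p) : q ≤ p.mv q.σ := by
  have := mv_le_mv h (Reach.base : q.R q.σ)
  rwa [mv_self] at this

/-- If `q ≤ p` passes through the state `τ` of `p`, then `q ≤ p.mv τ`. -/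
theorem le_mv_of_reach {q p : Cond K} (h : q ≤ p) {τ : St K} (hτ : τ.res p.d = τ)
    (h2 : Reach p.s p.A τ (q.σ.res p.d)) : q ≤ p.mv τ := by
  have h1 := mv_le_mv_of_reach hτ h2
  rw [mv_res p subset_rfl] at h1
  exact (le_mv h).trans h1

/-- The one-step extension. -/
noncomputable def nxt (p : Cond K) (x : II K) : Cond K := p.mv (p.σ.step p.s x)

theorem nxt_le {p : Cond K} {x : II K} (hx : x ∈ p.A p.σ) : p.nxt x ≤ p :=
  mv_le (Reach.base.step hx)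

theorem nxt_σ {p : Cond K} {x : II K} (hx : x ∈ p.A p.σ) : (p.nxt x).σ = p.σ.step p.s x :=
  mv_σ_of_R (Reach.base.step hx)

theorem exists_le_len (p : Cond K) (n : ℕ) : ∃ q, q ≤ p ∧ q.d = p.d ∧ n ≤ q.σ.len := by
  induction n with
  | zero => exact ⟨p, le_rfl, rfl, Nat.zero_le _⟩
  | succ n ih =>
    obtain ⟨q, h1, h2, h3⟩ := ih
    obtain ⟨x, hx, -⟩ := q.exists_mem_A q.σ (ae_lt_rho (kz K))
    exact ⟨q.nxt x, (nxt_le hx).trans h1, h2, by rw [nxt_σ hx]; exact Nat.succ_le_succ h3⟩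

/-- Direct extension. -/
def DLe (q p : Cond K) : Prop := q ≤ p ∧ q.σ.len = p.σ.len

theorem DLe.refl (p : Cond K) : DLe p p := ⟨le_rfl, rfl⟩

theorem DLe.trans {r q p : Cond K} (h1 : DLe r q) (h2 : DLe q p) : DLe r p :=
  ⟨h1.1.trans h2.1, h1.2.trans h2.2⟩

theorem DLe.res_eq {q p : Cond K} (h : DLe q p) : q.σ.res p.d = p.σ :=
  h.1.2.1.eq_of_len h.2.le

theorem DLe.F_eq {q p : Cond K} (h : DLe q p) {a : DD K} (ha : a ∈ p.d) : q.σ.F a = p.σ.F a := by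
  rw [← h.res_eq, St.res_F _ ha]

theorem dle_mv {q p : Cond K} (h : q ≤ p) : DLe q (p.mv q.σ) := ⟨le_mv h, rfl⟩

theorem dle_mv_mv {q p : Cond K} (h : q ≤ p) {τ : St K} (hτ : q.R τ) : DLe (q.mv τ) (p.mv τ) :=
  ⟨mv_le_mv h hτ, rfl⟩

/-- A condition on the domain `d` whose tree refines the trees of the conditions in `J τ`. -/
noncomputable def mkc (d : Set (DD K)) (hd : #d ≤ #K) (σ : St K) (J : St K → Set (Cond K))
    (hJ : ∀ τ, #(J τ) < #K) (hJd : ∀ τ, ∀ r ∈ J τ, r.d ⊆ d) : Cond K where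
  d := d
  hd := hd
  s := (exists_supp hd).choose
  hs := (exists_supp hd).choose_spec
  σ := σ.res d
  hσ := St.res_res subset_rfl _
  A τ := {x | ∀ r ∈ J τ, x ∈ r.A (τ.res r.d) ∧ (exists_supp hd).choose x ∩ r.d = r.s x}
  hA τ := ae_ball (hJ τ) fun r hr =>
    Eventually.and (r.hA _) (r.hs.coherent (exists_supp hd).choose_spec (hJd τ r hr))

theorem mkc_mv_le {d : Set (DD K)} {hd : #d ≤ #K} {σ : St K} {J : St K → Set (Cond K)}
    {hJ : ∀ τ, #(J τ) < #K} {hJd : ∀ τ, ∀ r ∈ J τ, r.d ⊆ d} {τ₀ : St K} {r : Cond K}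
    (h1 : r.d ⊆ d) (h2 : r.R (τ₀.res r.d))
    (h3 : ∀ τ, ((mkc d hd σ J hJ hJd).mv τ₀).R τ → r ∈ J τ) :
    (mkc d hd σ J hJ hJd).mv τ₀ ≤ r := by
  refine ⟨h1, ?_, fun τ hτ x hx => hx r (h3 τ hτ)⟩
  change r.R ((τ₀.res d).res r.d)
  rwa [St.res_res h1]

theorem exists_dle_family {ι : Type u} (hι : #ι < #K) (p : ι → Cond K) (l : ℕ)
    (hl : ∀ i, (p i).σ.len = l)
    (hag : ∀ i j, ∀ a ∈ (p i).d, a ∈ (p j).d → (p i).σ.F a = (p j).σ.F a)
    (Z : Set (DD K)) (hZ : #Z ≤ #K) :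
    ∃ q : Cond K, (∀ i, DLe q (p i)) ∧ Z ⊆ q.d ∧ q.σ.len = l := by
  classical
  let d : Set (DD K) := Z ∪ ⋃ i, (p i).d
  have hd : #d ≤ #K :=
    mk_union_le_K hZ (mk_iUnion_le_of_le _ aleph0_le_K hι.le fun i => (p i).hd)
  let σ : St K := ⟨l, fun a => if h : ∃ i, a ∈ (p i).d then (p h.choose).σ.F a else fun _ => kz K⟩
  have hsub : ∀ i, (p i).d ⊆ d := fun i a ha => Or.inr (mem_iUnion.2 ⟨i, ha⟩)
  let q := mkc d hd σ (fun _ => range p) (fun _ => mk_range_le.trans_lt hι)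
    (by rintro _ _ ⟨i, rfl⟩; exact hsub i)
  refine ⟨q.mv σ, fun i => ⟨mkc_mv_le (hsub i) ?_ fun _ _ => ⟨i, rfl⟩, (hl i).symm⟩,
    subset_union_left, rfl⟩
  have : σ.res (p i).d = (p i).σ := by
    rw [← (p i).hσ]
    refine St.res_eq_res (hl i).symm fun a ha => ?_
    have h : ∃ i, a ∈ (p i).d := ⟨i, ha⟩
    simp only [σ, dif_pos h]
    exact hag _ _ a h.choose_spec ha
  rw [this]
  exact Reach.base

theorem exists_dle_two (p q : Cond K) (hl : p.σ.len = q.σ.len)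
    (hag : ∀ a ∈ p.d, a ∈ q.d → p.σ.F a = q.σ.F a) (Z : Set (DD K)) (hZ : #Z ≤ #K) :
    ∃ r : Cond K, DLe r p ∧ DLe r q ∧ Z ⊆ r.d := by
  obtain ⟨r, h1, h2, -⟩ := exists_dle_family (ι := ULift.{u} Bool)
    ((lt_aleph0_of_finite _).trans SC.unc) (fun b => if b.down then p else q) p.σ.len
    (by rintro ⟨_ | _⟩ <;> simp [hl])
    (by
      rintro ⟨_ | _⟩ ⟨_ | _⟩ a h1 h2
      · rfl
      · exact (hag a h2 h1).symm
      · exact hag a h1 h2
      · rfl) Z hZ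
  exact ⟨r, h1 ⟨true⟩, h1 ⟨false⟩, h2⟩

/-- Shrinking the tree. -/
def shrink (p : Cond K) (B : St K → II K → Prop) (hB : ∀ τ, ∀ᶠ x in WF K, B τ x) : Cond K :=
  { p with A := fun τ => p.A τ ∩ {x | B τ x}, hA := fun τ => inter_mem (p.hA τ) (hB τ) }

theorem shrink_dle (p : Cond K) (B : St K → II K → Prop) (hB : ∀ τ, ∀ᶠ x in WF K, B τ x) :
    DLe (p.shrink B hB) p := by
  refine ⟨⟨subset_rfl, ?_, fun τ hτ x hx => ⟨?_, inter_eq_left.2 (p.hs.sub x)⟩⟩, rfl⟩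
  · change p.R (p.σ.res p.d)
    rw [p.hσ]; exact Reach.base
  · have : τ.res p.d = τ := R.res_eq (p := p.shrink B hB) hτ
    rw [this]; exact hx.1

theorem exists_shrink (p : Cond K) (B : St K → II K → Prop)
    (hB : ∀ τ, p.R τ → ∀ᶠ x in WF K, B τ x) :
    ∃ q, DLe q p ∧ q.d = p.d ∧ q.s = p.s ∧ q.σ = p.σ ∧ ∀ τ, q.R τ → ∀ x ∈ q.A τ, B τ x := by
  have hB' : ∀ τ, ∀ᶠ x in WF K, p.R τ → B τ x := fun τ => ae_imp (hB τ)
  refine ⟨p.shrink _ hB', shrink_dle _ _ _, rfl, rfl, rfl, fun τ hτ x hx => hx.2 ?_⟩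
  exact Reach.mono hτ fun _ => inter_subset_left

/-- All coordinates in `Z` are in the domain and are updated at every step. -/
def Has (Z : Set (DD K)) (p : Cond K) : Prop := Z ⊆ p.d ∧ ∀ τ, p.R τ → ∀ x ∈ p.A τ, Z ⊆ p.s x

theorem Has.mono {Z : Set (DD K)} {q p : Cond K} (h : Has Z p) (hq : q ≤ p) : Has Z q := by
  refine ⟨h.1.trans hq.1, fun τ hτ x hx a ha => ?_⟩
  have := h.2 _ (le_reach hq hτ) x (le_A hq hτ hx) ha
  rw [← le_s hq hτ hx] at this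
  exact this.1

theorem exists_has {Z : Set (DD K)} (hZ : #Z < #K) (p : Cond K) : ∃ q, DLe q p ∧ Has Z q := by
  obtain ⟨r, h1, -, h2⟩ := exists_dle_two p p rfl (fun _ _ _ => rfl) Z hZ.le
  obtain ⟨q, h3, h4, h5, -, h7⟩ := exists_shrink r (fun _ x => Z ⊆ r.s x)
    fun _ _ => ae_ball hZ fun a ha => r.hs.fine a (h2 ha)
  exact ⟨q, h3.trans h1, h4 ▸ h2, fun τ hτ x hx => h5 ▸ h7 τ hτ x hx⟩

end Cond

end Pool.Agent.Lib.MP_2739cb_lc
end

-- part Pool.Agent.Lib.MP_2739cb_lc.Fusion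
section

/-! Fusion, the Prikry property and its consequences. -/

namespace Pool.Agent.Lib.MP_2739cb_lc

open Cardinal Filter Set

universe u v

variable {K : Type u} [LinearOrder K] [SC K] [WellFoundedLT K]

/-- The Cohen part of a condition. -/
structure Co (K : Type u) where
  d : Set (DD K)
  hd : #d ≤ #K
  F : DD K → ℕ → K

def Co.ext' (c c' : Co K) : Prop := c.d ⊆ c'.d ∧ ∀ a ∈ c.d, c'.F a = c.F a

omit [LinearOrder K] [SC K] [WellFoundedLT K] in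
theorem Co.ext'_refl (c : Co K) : c.ext' c := ⟨subset_rfl, fun _ _ => rfl⟩

omit [LinearOrder K] [SC K] [WellFoundedLT K] in
theorem Co.ext'_trans (a b c : Co K) (h1 : a.ext' b) (h2 : b.ext' c) : a.ext' c :=
  ⟨h1.1.trans h2.1, fun x hx => (h2.2 x (h1.1 hx)).trans (h1.2 x hx)⟩

omit [WellFoundedLT K] in
theorem Co.exists_ub {ι : Type u} [LinearOrder ι] (hι : #ι ≤ #K) (S : Set ι) (c₀ : Co K)
    (c : ι → Co K) (h0 : ∀ j ∈ S, c₀.ext' (c j))
    (hm : ∀ j ∈ S, ∀ k ∈ S, j ≤ k → (c j).ext' (c k)) :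
    ∃ b : Co K, c₀.ext' b ∧ (∀ j ∈ S, (c j).ext' b) ∧ b.d = c₀.d ∪ ⋃ j : S, (c j).d := by
  classical
  refine ⟨⟨c₀.d ∪ ⋃ j : S, (c j).d, mk_union_le_K c₀.hd (mk_iUnion_le_of_le _ aleph0_le_K
    ((mk_set_le S).trans hι) fun j => (c j).hd),
    fun a => if h : ∃ j ∈ S, a ∈ (c j).d then (c h.choose).F a else c₀.F a⟩,
    ⟨subset_union_left, fun a ha => ?_⟩,
    fun j hj => ⟨fun a ha => Or.inr (mem_iUnion.2 ⟨⟨j, hj⟩, ha⟩), fun a ha => ?_⟩, rfl⟩
  · simp only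
    split_ifs with h
    · exact (h0 _ h.choose_spec.1).2 a ha
    · rfl
  · have h : ∃ j ∈ S, a ∈ (c j).d := ⟨j, hj, ha⟩
    simp only [dif_pos h]
    rcases le_total j h.choose with h1 | h1
    · exact (hm _ hj _ h.choose_spec.1 h1).2 a ha
    · exact ((hm _ h.choose_spec.1 _ hj h1).2 a h.choose_spec.2).symm

theorem Co.chain (c₀ : Co K) (Φ : K → Co K → Co K) (hΦ : ∀ i (c : Co K), c.ext' (Φ i c)) :
    ∃ (c : K → Co K) (e : Co K), c₀.ext' e ∧ (∀ j, (c j).ext' e) ∧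
      e.d = c₀.d ∪ ⋃ j, (c j).d ∧ (∀ j k, j ≤ k → (c j).ext' (c k)) ∧
      ∀ i, ∃ b, c₀.ext' b ∧ (∀ j, j < i → (c j).ext' b) ∧ c i = Φ i b := by
  obtain ⟨c, h1, h2⟩ := chain_lemma Co.ext' Co.ext'_refl Co.ext'_trans c₀ (ι := K)
    (fun i c h0 hm => by
      obtain ⟨b, h1, h2, -⟩ := Co.exists_ub le_rfl (Iio i) c₀ c h0 fun j _ k hk hjk => hm j k hjk hk
      exact ⟨b, h1, h2⟩) Φ hΦ
  have h0 : ∀ j, c₀.ext' (c j) := fun j => by
    obtain ⟨b, h3, -, h4⟩ := h2 j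
    rw [h4]; exact Co.ext'_trans _ _ _ h3 (hΦ _ _)
  obtain ⟨e, h3, h4, h5⟩ := Co.exists_ub le_rfl Set.univ c₀ c (fun j _ => h0 j)
    fun j _ k _ hjk => h1 j k hjk
  refine ⟨c, e, h3, fun j => h4 j trivial, ?_, h1, h2⟩
  rw [h5]
  congr 1
  ext a
  simp

abbrev Task (K : Type u) := ℕ × Set (DD K × ℕ × K)

def TaskOver (d : Set (DD K)) : Set (Task K) := {t | #t.2 < #K ∧ ∀ y ∈ t.2, y.1 ∈ d}

theorem mk_taskOver_le {d : Set (DD K)} (hd : #d ≤ #K) : #(TaskOver d) ≤ #K := by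
  have h1 : #(d × ℕ × K) ≤ #K := by
    simp only [mk_prod, lift_id, lift_uzero, mk_nat, lift_aleph0]
    rw [mul_eq_right aleph0_le_K aleph0_le_K aleph0_ne_zero]
    exact (mul_le_mul' hd le_rfl).trans (mul_eq_self aleph0_le_K).le
  have h2 := mk_small_le h1
  have h3 : #(ULift.{u} ℕ × {S : Set (d × ℕ × K) | #S < #K}) ≤ #K := by
    rw [mk_prod, lift_id, lift_id]
    refine (mul_le_mul' ?_ h2).trans (mul_eq_self aleph0_le_K).le
    simp
  refine le_trans ?_ h3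
  let e : d × ℕ × K → DD K × ℕ × K := fun y => (y.1.1, y.2)
  have he : Function.Injective e := by
    rintro ⟨a, b⟩ ⟨a', b'⟩ h
    obtain ⟨h1, h2⟩ := Prod.mk.inj h
    exact Prod.ext (Subtype.ext h1) h2
  refine mk_le_of_injective (f := fun t : TaskOver d =>
    ((⟨t.1.1⟩, ⟨e ⁻¹' t.1.2, (mk_preimage_of_injective e _ he).trans_lt t.2.1⟩) :
      ULift.{u} ℕ × {S : Set (d × ℕ × K) | #S < #K})) ?_
  rintro ⟨⟨m, S⟩, hS⟩ ⟨⟨m', S'⟩, hS'⟩ h
  obtain ⟨h1, h2⟩ := Prod.mk.inj h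
  have h3 : m = m' := congrArg ULift.down h1
  have h4 : e ⁻¹' S = e ⁻¹' S' := congrArg Subtype.val h2
  have h5 : S = S' := by
    ext y
    constructor
    · intro hy
      have : (⟨⟨y.1, hS.2 y hy⟩, y.2⟩ : d × ℕ × K) ∈ e ⁻¹' S := hy
      rw [h4] at this
      exact this
    · intro hy
      have : (⟨⟨y.1, hS'.2 y hy⟩, y.2⟩ : d × ℕ × K) ∈ e ⁻¹' S' := hy
      rw [← h4] at this
      exact this
  subst h3 h5
  rfl

open Classical in
noncomputable def patch (t : Task K) (F : DD K → ℕ → K) : St K :=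
  ⟨t.1, fun a n => if h : ∃ k, (a, n, k) ∈ t.2 then h.choose else F a n⟩

theorem patch_res_congr (t : Task K) {F F' : DD K → ℕ → K} {d : Set (DD K)}
    (h : ∀ a ∈ d, F' a = F a) : (patch t F').res d = (patch t F).res d :=
  St.res_eq_res rfl fun a ha => funext fun n => by simp only [patch, h a ha]

theorem exists_task {p : Cond K} {τ : St K} (h : p.R τ) :
    ∃ t ∈ TaskOver p.d, τ = patch t p.σ.F := by
  obtain ⟨u, h1, h2, h3⟩ := h.small
  refine ⟨(τ.len, (fun y : u × ULift.{u} ℕ => (y.1.1, y.2.down, τ.F y.1.1 y.2.down)) '' Set.univ),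
    ⟨mk_image_le.trans_lt ?_, ?_⟩, St.ext rfl (funext fun a => funext fun n => ?_)⟩
  · rw [mk_univ, mk_prod, lift_id, lift_id]
    exact mul_lt_of_lt aleph0_le_K h2 (by simpa using SC.unc)
  · rintro _ ⟨y, -, rfl⟩
    exact h1 y.1.2
  · simp only [patch]
    split_ifs with h4
    · obtain ⟨y, -, h5⟩ := h4.choose_spec
      obtain ⟨h6, h7⟩ := Prod.mk.inj h5
      obtain ⟨h8, h9⟩ := Prod.mk.inj h7
      rw [← h9, h6, h8]
    · rw [h3 a fun ha => h4 ⟨_, (⟨a, ha⟩, ⟨n⟩), trivial, rfl⟩]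

theorem mk_reach_le (p : Cond K) : #{τ | p.R τ} ≤ #K := by
  have : {τ | p.R τ} ⊆ (fun t => patch t p.σ.F) '' TaskOver p.d := by
    intro τ hτ
    obtain ⟨t, h1, h2⟩ := exists_task hτ
    exact ⟨t, h1, h2.symm⟩
  exact (mk_le_mk_of_subset this).trans (mk_image_le.trans (mk_taskOver_le p.hd))

def Settled (D : St K → Cond K → Prop) (d₀ : Set (DD K)) (t : Task K) (c : Co K) : Prop :=
  (∃ q, D ((patch t c.F).res d₀) q ∧ q.d ⊆ c.d ∧ q.σ = (patch t c.F).res q.d) ∨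
    ¬ ∃ q, D ((patch t c.F).res d₀) q ∧ c.d ⊆ q.d ∧ q.σ.res c.d = (patch t c.F).res c.d

theorem Settled.mono {D : St K → Cond K → Prop} {d₀ : Set (DD K)} {t : Task K} {c c' : Co K}
    (h : Settled D d₀ t c) (h0 : d₀ ⊆ c.d) (hc : c.ext' c') : Settled D d₀ t c' := by
  have e0 : (patch t c'.F).res d₀ = (patch t c.F).res d₀ :=
    patch_res_congr t fun a ha => hc.2 a (h0 ha)
  rcases h with ⟨q, h1, h2, h3⟩ | h
  · refine Or.inl ⟨q, e0 ▸ h1, h2.trans hc.1, ?_⟩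
    rw [h3, patch_res_congr t fun a ha => hc.2 a (h2 ha)]
  · refine Or.inr fun ⟨q, h1, h2, h3⟩ => h ⟨q, e0 ▸ h1, hc.1.trans h2, ?_⟩
    rw [← St.res_res hc.1 q.σ, h3, St.res_res hc.1, patch_res_congr t hc.2]

theorem exists_settled (D : St K → Cond K → Prop) {d₀ : Set (DD K)} {t : Task K} {c : Co K}
    (h0 : d₀ ⊆ c.d) (ht : t ∈ TaskOver c.d) : ∃ c', c.ext' c' ∧ Settled D d₀ t c' := by
  classical
  by_cases h : ∃ q, D ((patch t c.F).res d₀) q ∧ c.d ⊆ q.d ∧ q.σ.res c.d = (patch t c.F).res c.d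
  · obtain ⟨q, h1, h2, h3⟩ := h
    let c' : Co K := ⟨q.d, q.hd, fun a => if a ∈ c.d then c.F a else q.σ.F a⟩
    have hc : c.ext' c' := ⟨h2, fun a ha => if_pos ha⟩
    refine ⟨c', hc, Or.inl ⟨q, ?_, subset_rfl, ?_⟩⟩
    · rwa [patch_res_congr t fun a ha => hc.2 a (h0 ha)]
    · rw [← q.hσ]
      refine St.res_eq_res (congrArg St.len h3 :) fun a _ => ?_
      by_cases ha : a ∈ c.d
      · have h4 := congrFun (congrArg St.F h3) a
        rw [St.res_F _ ha, St.res_F _ ha] at h4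
        rw [h4]
        funext n
        simp only [patch, hc.2 a ha]
      · funext n
        have h5 : ¬ ∃ k, (a, n, k) ∈ t.2 := fun ⟨k, hk⟩ => ha (ht.2 _ hk)
        simp only [patch, dif_neg h5, c', if_neg ha]
  · exact ⟨c, c.ext'_refl, Or.inr h⟩

theorem exists_round (D : St K → Cond K → Prop) (d₀ : Set (DD K)) (c : Co K) :
    ∃ c', c.ext' c' ∧ (d₀ ⊆ c.d → ∀ t ∈ TaskOver c.d, Settled D d₀ t c') := by
  classical
  by_cases h0 : d₀ ⊆ c.d
  swap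
  · exact ⟨c, c.ext'_refl, fun h => absurd h h0⟩
  obtain ⟨e⟩ := mk_taskOver_le c.hd
  have hΦ : ∀ (k : K) (b : Co K), ∃ b', b.ext' b' ∧
      (c.ext' b → ∀ t : TaskOver c.d, e t = k → Settled D d₀ t.1 b') := by
    intro k b
    by_cases h : c.ext' b ∧ ∃ t, e t = k
    · obtain ⟨h1, t, rfl⟩ := h
      obtain ⟨b', h2, h3⟩ := exists_settled D (h0.trans h1.1)
        (show t.1 ∈ TaskOver b.d from ⟨t.2.1, fun y hy => h1.1 (t.2.2 y hy)⟩)
      exact ⟨b', h2, fun _ t' ht' => e.injective ht' ▸ h3⟩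
    · exact ⟨b, b.ext'_refl, fun h1 t ht => absurd ⟨h1, t, ht⟩ h⟩
  choose Φ h1 h2 using hΦ
  obtain ⟨ch, c', h3, h4, -, -, h5⟩ := Co.chain c Φ h1
  refine ⟨c', h3, fun _ t ht => ?_⟩
  obtain ⟨b, h6, -, h7⟩ := h5 (e ⟨t, ht⟩)
  refine Settled.mono (c := ch (e ⟨t, ht⟩)) ?_ ?_ (h4 _)
  · rw [h7]; exact h2 _ b h6 ⟨t, ht⟩ rfl
  · rw [h7]; exact h0.trans (h6.1.trans (h1 _ _).1)

theorem exists_all_settled (D : St K → Cond K → Prop) (c : Co K) :
    ∃ c', c.ext' c' ∧ ∀ t ∈ TaskOver c'.d, Settled D c.d t c' := by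
  choose Φ h1 h2 using exists_round D c.d
  obtain ⟨ch, c', h3, h4, h5, h6, h7⟩ := Co.chain c (fun _ => Φ) fun _ => h1
  refine ⟨c', h3, fun t ht => ?_⟩
  have hc : ∀ j, c.d ⊆ (ch j).d := fun j => by
    obtain ⟨b, h8, -, h9⟩ := h7 j
    rw [h9]; exact h8.1.trans (h1 _).1
  have : ∀ y : t.2, ∃ j, y.1.1 ∈ (ch j).d := by
    intro y
    have := ht.2 _ y.2
    rw [h5] at this
    rcases this with h | h
    · exact ⟨kz K, hc _ h⟩
    · exact mem_iUnion.1 h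
  choose g hg using this
  obtain ⟨k, hk⟩ := bounded_fam g ht.1
  obtain ⟨b, h8, h9, h10⟩ := h7 k
  have h11 : t ∈ TaskOver b.d := ⟨ht.1, fun y hy => (h9 _ (hk ⟨y, hy⟩)).1 (hg ⟨y, hy⟩)⟩
  refine Settled.mono (c := ch k) ?_ (hc k) (h4 k)
  rw [h10]; exact h2 b h8.1 t h11

open Cond

theorem fusion (p : Cond K) (D : St K → Cond K → Prop)
    (hD : ∀ τ q q', DLe q' q → D τ q → D τ q') :
    ∃ p', DLe p' p ∧ ∀ σ, p'.R σ → (∃ q, DLe q (p'.mv σ) ∧ D (σ.res p.d) q) →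
      D (σ.res p.d) (p'.mv σ) := by
  classical
  obtain ⟨c, hc1, hc2⟩ := exists_all_settled D ⟨p.d, p.hd, p.σ.F⟩
  let σ₀ : St K := (⟨p.σ.len, c.F⟩ : St K).res c.d
  have hw : ∀ σ : St K, ∃ w : Cond K, w.d ⊆ c.d ∧
      ((∃ q, D (σ.res p.d) q ∧ q.d ⊆ c.d ∧ q.σ = σ.res q.d) →
        D (σ.res p.d) w ∧ w.σ = σ.res w.d) := by
    intro σ
    by_cases h : ∃ q, D (σ.res p.d) q ∧ q.d ⊆ c.d ∧ q.σ = σ.res q.d
    · obtain ⟨q, h1, h2, h3⟩ := h
      exact ⟨q, h2, fun _ => ⟨h1, h3⟩⟩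
    · exact ⟨p, hc1.1, fun h' => absurd h' h⟩
  choose w hw1 hw2 using hw
  let trunc : ℕ → St K → St K := fun m τ => ⟨m, fun a n => if n < m then τ.F a n else σ₀.F a n⟩
  let J : St K → Set (Cond K) := fun τ => insert p (range fun m : ULift.{u} ℕ => w (trunc m.down τ))
  have hJ : ∀ τ, #(J τ) < #K := fun τ =>
    mk_insert_le.trans_lt (add_lt_of_lt aleph0_le_K (mk_range_le.trans_lt (by simpa using SC.unc))
      (one_lt_aleph0.trans SC.unc))
  have hJd : ∀ τ, ∀ r ∈ J τ, r.d ⊆ c.d := by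
    rintro τ r (rfl | ⟨m, rfl⟩)
    · exact hc1.1
    · exact hw1 _
  let p' := mkc c.d c.hd σ₀ J hJ hJd
  have hσ' : p'.σ = σ₀ := St.res_res subset_rfl _
  have hres : σ₀.res p.d = p.σ := by
    rw [← p.hσ]
    refine St.res_eq_res rfl fun a ha => ?_
    rw [St.res_F _ (hc1.1 ha)]
    exact hc1.2 a ha
  have hle : p' ≤ p := by
    have : p'.mv σ₀ ≤ p := mkc_mv_le hc1.1 (by rw [hres]; exact Reach.base)
      fun _ _ => mem_insert _ _
    rwa [← hσ', mv_self] at this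
  refine ⟨p', ⟨hle, rfl⟩, fun σ hσ ⟨q', hq1, hq2⟩ => ?_⟩
  obtain ⟨t, ht1, ht2⟩ := exists_task hσ
  have hσc : σ = (patch t c.F).res c.d := by
    rw [← hσ.res_eq]
    conv_lhs => rw [ht2]
    refine patch_res_congr t fun a ha => ?_
    rw [hσ']
    exact St.res_F _ ha
  have e0 : (patch t c.F).res p.d = σ.res p.d := by
    rw [hσc]; exact (St.res_res hc1.1 _).symm
  have hex : ∃ q, D (σ.res p.d) q ∧ q.d ⊆ c.d ∧ q.σ = σ.res q.d := by
    rcases hc2 t ht1 with ⟨q, h1, h2, h3⟩ | h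
    · refine ⟨q, e0 ▸ h1, h2, ?_⟩
      rw [h3, hσc, St.res_res h2]
    · refine absurd ⟨q', e0 ▸ hq2, hq1.1.1, ?_⟩ h
      have := hq1.res_eq
      rw [mv_σ_of_R hσ] at this
      exact this.trans hσc
  obtain ⟨h1, h2⟩ := hw2 σ hex
  refine hD _ _ _ ⟨mkc_mv_le (hw1 σ) (by rw [← h2]; exact Reach.base) fun τ hτ => ?_, ?_⟩ h1
  · refine Or.inr ⟨⟨σ.len⟩, ?_⟩
    have hτ' := (mv_R hσ).1 hτ
    have : trunc σ.len τ = σ := by
      refine St.ext rfl (funext fun a => funext fun n => ?_)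
      simp only [trunc]
      split_ifs with h
      · exact hτ'.F_lt a h
      · rw [← hσ']; exact (Reach.F_ge hσ a (not_lt.1 h)).symm
    simp only [this]
  · rw [h2]; rfl

/-- If all one-step extensions force `b`, so does the condition. -/
theorem forces_of_steps {p : Cond K} {b : RO (Cond K)}
    (h : ∀ x ∈ p.A p.σ, b.s (p.nxt x)) : b.s p := by
  apply RO.reg
  intro r hr
  rcases hr.2.1.cases_head with h1 | ⟨x, hx, h1⟩
  · obtain ⟨x, hx, -⟩ := r.exists_mem_A r.σ (ae_lt_rho (kz K))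
    have hx' : x ∈ p.A p.σ := h1 ▸ le_A hr Reach.base hx
    refine ⟨r.nxt x, nxt_le hx, RO.mono (h x hx') ?_⟩
    have h2 := mv_le_mv hr (Reach.base.step hx : r.R (r.σ.step r.s x))
    rwa [← mv_res p subset_rfl, St.res_step _ (le_s hr Reach.base hx), h1] at h2
  · exact ⟨r, le_rfl, RO.mono (h x hx)
      (le_mv_of_reach hr (R.res_eq (Reach.base.step hx : p.R _)) h1)⟩

theorem prikry (p : Cond K) (b : RO (Cond K)) : ∃ q, DLe q p ∧ (b.s q ∨ (RO.not b).s q) := by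
  obtain ⟨p₁, h1, h2⟩ := fusion p (fun _ q => b.s q ∨ (RO.not b).s q)
    fun _ q q' h h' => h'.imp (fun h1 => RO.mono h1 h.1) fun h1 => RO.mono (a := RO.not b) h1 h.1
  let B : St K → II K → Prop := fun τ x =>
    (b.s (p₁.mv (τ.step p₁.s x)) ↔ ∀ᶠ y in WF K, b.s (p₁.mv (τ.step p₁.s y))) ∧
    ((RO.not b).s (p₁.mv (τ.step p₁.s x)) ↔ ∀ᶠ y in WF K, (RO.not b).s (p₁.mv (τ.step p₁.s y)))
  have hiff : ∀ Q : II K → Prop, ∀ᶠ x in WF K, (Q x ↔ ∀ᶠ y in WF K, Q y) := by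
    intro Q
    by_cases h : ∀ᶠ y in WF K, Q y
    · exact h.mono fun x hx => ⟨fun _ => h, fun _ => hx⟩
    · exact (ae_not h).mono fun x hx => ⟨fun h' => absurd h' hx, fun h' => absurd h' h⟩
  obtain ⟨p₂, h3, h4, h5, h6, h7⟩ := exists_shrink p₁ B fun τ _ => (hiff _).and (hiff _)
  have hR : ∀ τ, p₂.R τ → p₁.R τ := fun τ hτ => by
    have := le_reach h3.1 hτ
    rwa [← h4, hτ.res_eq] at this
  by_contra hcon
  have key : ∀ τ, p₂.R τ → ¬ (b.s (p₁.mv τ) ∨ (RO.not b).s (p₁.mv τ)) := by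
    intro τ hτ
    induction hτ with
    | base =>
      intro h
      rw [h6, mv_self] at h
      exact hcon ⟨p₁, h1, h⟩
    | @step τ x hτ hx ih =>
      intro h
      apply ih
      apply h2 τ (hR τ hτ)
      refine ⟨p₂.mv τ, dle_mv_mv h3.1 hτ, ?_⟩
      have hstep : ∀ y ∈ (p₂.mv τ).A (p₂.mv τ).σ,
          B τ y ∧ (p₂.mv τ).nxt y ≤ p₁.mv (τ.step p₁.s y) := by
        intro y hy
        rw [mv_σ_of_R hτ] at hy
        refine ⟨h7 τ hτ y hy, ?_⟩
        have := mv_le_mv h3.1 (Reach.step hτ hy)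
        rw [nxt, mv_σ_of_R hτ, ← h5]
        exact this
      rw [h5] at h
      rcases h with h | h
      · exact Or.inl (forces_of_steps fun y hy =>
          RO.mono ((hstep y hy).1.1.2 ((h7 τ hτ x hx).1.1 h)) (hstep y hy).2)
      · exact Or.inr (forces_of_steps fun y hy =>
          RO.mono ((hstep y hy).1.2.2 ((h7 τ hτ x hx).2.1 h)) (hstep y hy).2)
  obtain ⟨q, hq, hq'⟩ := RO.decide b p₂
  have hτ : p₂.R (q.σ.res p₂.d) := hq.2.1
  refine key _ hτ (h2 _ (hR _ hτ) ⟨q, ?_, hq'⟩)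
  rw [mv_res p₁ h4.ge]
  exact dle_mv (hq.trans h3.1)

theorem dle_dense_inter {ι : Type u} (hι : #ι < #K) (O : ι → Cond K → Prop)
    (h1 : ∀ i q q', DLe q' q → O i q → O i q') (h2 : ∀ i p, ∃ q, DLe q p ∧ O i q) (p : Cond K) :
    ∃ q, DLe q p ∧ ∀ i, O i q := by
  obtain ⟨_, _⟩ := exists_wellFoundedLT ι
  choose Φ h3 h4 using h2
  have ub : ∀ (S : Set ι) (c : ι → Cond K), (∀ j ∈ S, DLe (c j) p) →
      (∀ j ∈ S, ∀ k ∈ S, j ≤ k → DLe (c k) (c j)) → ∃ b, DLe b p ∧ ∀ j ∈ S, DLe b (c j) := by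
    intro S c h0 hm
    obtain ⟨b, hb, -⟩ := exists_dle_family (ι := Option S)
      (by rw [mk_option]
          exact add_lt_of_lt aleph0_le_K ((mk_set_le S).trans_lt hι) (one_lt_aleph0.trans SC.unc))
      (fun o => o.elim p fun j => c j.1) p.σ.len
      (by rintro (_ | j)
          · rfl
          · exact (h0 _ j.2).2)
      (by rintro (_ | j) (_ | k) a ha ha'
          · rfl
          · exact ((h0 _ k.2).F_eq ha).symm
          · exact (h0 _ j.2).F_eq ha'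
          · rcases le_total j.1 k.1 with h | h
            · exact ((hm _ j.2 _ k.2 h).F_eq ha).symm
            · exact (hm _ k.2 _ j.2 h).F_eq ha') ∅ (by simp)
    exact ⟨b, hb none, fun j hj => hb (some ⟨j, hj⟩)⟩
  obtain ⟨c, h5, h6⟩ := chain_lemma (fun a b : Cond K => DLe b a) DLe.refl
    (fun _ _ _ h h' => h'.trans h) p
    (fun i c h0 hm => ub (Iio i) c h0 fun j _ k hk hjk => hm j k hjk hk) Φ h3
  obtain ⟨b, h7, h8⟩ := ub Set.univ c (fun j _ => by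
    obtain ⟨b, h7, -, h8⟩ := h6 j
    rw [h8]; exact (h3 _ _).trans h7) fun j _ k _ h => h5 j k h
  refine ⟨b, h7, fun i => h1 i _ _ (h8 i trivial) ?_⟩
  obtain ⟨b', -, -, h9⟩ := h6 i
  rw [h9]; exact h4 _ _

theorem decide_small {ι : Type u} (hι : #ι < #K) (b : ι → RO (Cond K)) (p : Cond K) :
    ∃ q, DLe q p ∧ ∀ i, (b i).s q ∨ (RO.not (b i)).s q :=
  dle_dense_inter hι (fun i q => (b i).s q ∨ (RO.not (b i)).s q)
    (fun i _ _ h h' => h'.imp (fun h1 => RO.mono h1 h.1)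
      fun h1 => RO.mono (a := RO.not (b i)) h1 h.1) (fun i p => prikry p (b i)) p

/-- Fusion for families of direct-extension-dense sets. -/
theorem fusion_dense (p : Cond K) (D : St K → Cond K → Prop)
    (hD : ∀ τ q q', DLe q' q → D τ q → D τ q') (hD' : ∀ τ q, ∃ q', DLe q' q ∧ D τ q') :
    ∃ p', DLe p' p ∧ ∀ σ, p'.R σ → D (σ.res p.d) (p'.mv σ) := by
  obtain ⟨p', h1, h2⟩ := fusion p D hD
  exact ⟨p', h1, fun σ hσ => h2 σ hσ (hD' _ _)⟩

omit [WellFoundedLT K] in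
theorem mk_singleton_lt {α : Type u} (a : α) : #({a} : Set α) < #K := by
  rw [mk_singleton]; exact one_lt_aleph0.trans SC.unc

/-- No function from `K` is onto a set of larger size. -/
theorem not_onto {Ξ : Type u} (hΞ : #K < #Ξ) (b : K → Ξ → RO (Cond K)) (p : Cond K)
    (hf : ∀ i β β' r, r ≤ p → (b i β).s r → (b i β').s r → β = β') :
    ∃ q, q ≤ p ∧ ∃ β, ∀ i, (RO.not (b i β)).s q := by
  obtain ⟨p₁, h1, h2⟩ := exists_has (mk_singleton_lt (K := K) (rho : DD K)) p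
  let O : K → Cond K → Prop := fun i q =>
    (∃ β, (b i β).s q) ∨ ¬ ∃ q', DLe q' q ∧ ∃ β, (b i β).s q'
  have hO1 : ∀ i q q', DLe q' q → O i q → O i q' := by
    rintro i q q' h (⟨β, h'⟩ | h')
    · exact Or.inl ⟨β, RO.mono h' h.1⟩
    · exact Or.inr fun ⟨q'', h3, h4⟩ => h' ⟨q'', h3.trans h, h4⟩
  have hO2 : ∀ i q, ∃ q', DLe q' q ∧ O i q' := by
    intro i q
    by_cases h : ∃ q', DLe q' q ∧ ∃ β, (b i β).s q'
    · obtain ⟨q', h3, h4⟩ := h
      exact ⟨q', h3, Or.inl h4⟩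
    · exact ⟨q, DLe.refl q, Or.inr h⟩
  obtain ⟨p₂, h3, h4⟩ := fusion_dense p₁ (fun τ q => ∀ i, i < τ.F rho (τ.len - 1) → O i q)
    (fun τ q q' h h' i hi => hO1 i q q' h (h' i hi)) fun τ q => by
      obtain ⟨q', h3, h4⟩ := dle_dense_inter (SC.iio (τ.F rho (τ.len - 1)))
        (fun i : Iio (τ.F rho (τ.len - 1)) => O i.1) (fun i => hO1 i.1) (fun i => hO2 i.1) q
      exact ⟨q', h3, fun i hi => h4 ⟨i, hi⟩⟩
  have hp₂ : p₂ ≤ p := h3.1.trans h1.1
  let V : Set Ξ := ⋃ σ : {τ | p₂.R τ}, ⋃ i : K, {β | (b i β).s (p₂.mv σ.1)}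
  have hV : #V ≤ #K := by
    refine mk_iUnion_le_of_le _ aleph0_le_K (mk_reach_le p₂) fun σ =>
      mk_iUnion_le_of_le _ aleph0_le_K le_rfl fun i => ?_
    refine le_trans ?_ (one_le_aleph0.trans aleph0_le_K)
    rw [le_one_iff_subsingleton, subsingleton_coe]
    exact fun β hβ β' hβ' => hf i β β' _ ((mv_le σ.2).trans hp₂) hβ hβ'
  obtain ⟨β, hβ⟩ := compl_nonempty_of_mk_lt_mk (hV.trans_lt hΞ)
  refine ⟨p₂, hp₂, β, fun i r hr hb => hβ ?_⟩
  obtain ⟨x, hx, hi⟩ := r.exists_mem_A r.σ (ae_lt_rho i)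
  have hr' : r.nxt x ≤ p₂ := (nxt_le hx).trans hr
  have hσ : p₂.R ((r.nxt x).σ.res p₂.d) := hr'.2.1
  have hO := h4 _ hσ i (by
    rw [St.res_res h3.1.1, St.res_F _ (h2.1 rfl), St.res_len, nxt_σ hx, St.step_len,
      Nat.add_sub_cancel, St.step_F_self _ ((h2.mono (hr.trans h3.1)).2 _ Reach.base x hx rfl)]
    exact hi)
  have hd : DLe (r.nxt x) (p₂.mv ((r.nxt x).σ.res p₂.d)) := by
    rw [mv_res p₂ subset_rfl]; exact dle_mv hr'
  have hb' : (b i β).s (r.nxt x) := RO.mono hb (nxt_le hx)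
  rcases hO with ⟨β', h5⟩ | h5
  · have : β = β' := hf i β β' _ (hr'.trans hp₂) hb' (RO.mono h5 hd.1)
    exact mem_iUnion.2 ⟨⟨_, hσ⟩, mem_iUnion.2 ⟨i, this ▸ h5⟩⟩
  · exact absurd ⟨_, hd, β, hb'⟩ h5

end Pool.Agent.Lib.MP_2739cb_lc
end

-- part Pool.Agent.Lib.MP_2739cb_lc.Good
section

/-! Good conditions, a small predense family of them, and the system of projections. -/

namespace Pool.Agent.Lib.MP_2739cb_lc

open Cardinal Filter Set Cond

universe u v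

variable {K : Type u} [LinearOrder K] [SC K] [WellFoundedLT K]

def Good (b : K → RO (Cond K)) (q : Cond K) (Bs : St K → Set K) : Prop :=
  Has {rho} q ∧ ∀ τ, q.R τ → ∀ x ∈ q.A τ, ∀ γ, γ < rho x →
    (γ ∈ Bs τ → (b γ).s (q.mv (τ.step q.s x))) ∧
    (γ ∉ Bs τ → (RO.not (b γ)).s (q.mv (τ.step q.s x)))

theorem exists_good (b : K → RO (Cond K)) (p : Cond K) : ∃ q, DLe q p ∧ ∃ Bs, Good b q Bs := by
  obtain ⟨p₁, h1, h2⟩ := exists_has (mk_singleton_lt (K := K) (rho : DD K)) p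
  obtain ⟨p₂, h3, h4⟩ := fusion_dense p₁
    (fun τ q => ∀ γ, γ < τ.F rho (τ.len - 1) → (b γ).s q ∨ (RO.not (b γ)).s q)
    (fun τ q q' h h' i hi => (h' i hi).imp (fun h1 => RO.mono h1 h.1)
      fun h1 => RO.mono (a := RO.not (b i)) h1 h.1) fun τ q => by
      obtain ⟨q', h3, h4⟩ := decide_small (SC.iio (τ.F rho (τ.len - 1)))
        (fun i : Iio (τ.F rho (τ.len - 1)) => b i.1) q
      exact ⟨q', h3, fun i hi => h4 ⟨i, hi⟩⟩
  have hH : Has {rho} p₂ := h2.mono h3.1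
  let Bs : St K → Set K := fun τ => {γ | ∀ᶠ x in WF K, (b γ).s (p₂.mv (τ.step p₂.s x))}
  obtain ⟨p₃, h5, h6, h7, -, h9⟩ := exists_shrink p₂ (fun τ x => ∀ γ, γ < rho x →
      (γ ∈ Bs τ → (b γ).s (p₂.mv (τ.step p₂.s x))) ∧
      (γ ∉ Bs τ → (RO.not (b γ)).s (p₂.mv (τ.step p₂.s x)))) fun τ hτ => by
    refine diagK fun γ => ?_
    by_cases hγ : γ ∈ Bs τ
    · exact Eventually.mono hγ fun x hx => ⟨fun _ => hx, fun h => absurd hγ h⟩
    · filter_upwards [ae_not hγ, p₂.hA τ, ae_lt_rho γ] with x hx1 hx2 hx3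
      refine ⟨fun h => absurd h hγ, fun _ => (h4 _ (Reach.step hτ hx2) γ ?_).resolve_left hx1⟩
      rw [St.res_F _ (h2.1 rfl), St.res_len, St.step_len, Nat.add_sub_cancel,
        St.step_F_self _ (hH.2 _ hτ x hx2 rfl)]
      exact hx3
  refine ⟨p₃, h5.trans (h3.trans h1), Bs, hH.mono h5.1, fun τ hτ x hx γ hγ => ?_⟩
  have hle : p₃.mv (τ.step p₃.s x) ≤ p₂.mv (τ.step p₂.s x) := by
    have := mv_le_mv h5.1 (Reach.step hτ hx)
    rwa [h7] at this ⊢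
  exact ⟨fun h => RO.mono ((h9 τ hτ x hx γ hγ).1 h) hle,
    fun h => RO.mono (a := RO.not (b γ)) ((h9 τ hτ x hx γ hγ).2 h) hle⟩

omit [WellFoundedLT K] in
theorem aleph0_le_two_pow : ℵ₀ ≤ 2 ^ #K := aleph0_le_K.trans (cantor _).le

omit [WellFoundedLT K] in
theorem pow_K_le {c : Cardinal.{u}} (hc : c ≤ 2 ^ #K) : c ^ #K ≤ 2 ^ #K := by
  refine (power_le_power_right hc).trans ?_
  rw [← power_mul, mul_eq_self aleph0_le_K]

theorem exists_family {Ξ : Type u} (hΞ : #Ξ ≤ 2 ^ #K) (G : Ξ → Cond K → Prop)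
    (hG : ∀ ξ p, ∃ q, DLe q p ∧ G ξ q) :
    ∃ (Λ : Type u) (ξ : Λ → Ξ) (q : Λ → Cond K), #Λ ≤ 2 ^ #K ∧ (∀ l, G (ξ l) (q l)) ∧
      ∀ (r : Cond K) (ξ₀ : Ξ), ∃ l, ξ l = ξ₀ ∧ r.σ.len = (q l).σ.len ∧
        ∀ a ∈ r.d, a ∈ (q l).d → r.σ.F a = (q l).σ.F a := by
  classical
  let L := (Order.succ #K).ord.ToType
  have hL1 : ∀ l : L, #(Iio l) ≤ #K := fun l => Order.lt_succ_iff.1 (by
    simpa [L] using mk_Iio_lt l (by simp [L]))
  have hL2 : #L = Order.succ #K := mk_ord_toType _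
  have hL3 : #L ≤ 2 ^ #K := hL2.trans_le (Order.succ_le_of_lt (cantor _))
  let base : (K → DD K) → (K → ULift.{u} ℕ → K) → ℕ → Cond K := fun e g n =>
    mkc (range e) mk_range_le
      ⟨n, fun a => if h : ∃ k, e k = a then fun m => g h.choose ⟨m⟩ else fun _ => kz K⟩
      (fun _ => ∅) (fun _ => by simpa using aleph0_pos.trans SC.unc) (fun _ _ h => h.elim)
  choose Q hQ1 hQ2 using hG
  let Code : Set (DD K) → Type u := fun E => (K → E) × (K → ULift.{u} ℕ → K) × ULift.{u} ℕ × Ξ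
  let qq : ∀ E, Code E → Cond K := fun E c =>
    Q c.2.2.2 (base (fun k => (c.1 k).1) c.2.1 c.2.2.1.down)
  have hCode : ∀ E : Set (DD K), #E ≤ 2 ^ #K → #(Code E) ≤ 2 ^ #K := by
    intro E hE
    have h0 : ∀ a b : Cardinal.{u}, a ≤ 2 ^ #K → b ≤ 2 ^ #K → a * b ≤ 2 ^ #K := fun a b ha hb =>
      (mul_le_mul' ha hb).trans (mul_eq_self aleph0_le_two_pow).le
    simp only [Code, mk_prod, lift_id, mk_arrow]
    refine h0 _ _ (pow_K_le hE) (h0 _ _ (pow_K_le ?_) (h0 _ _ ?_ hΞ))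
    · refine le_trans (power_le_power_left (aleph0_pos.trans SC.unc).ne' ?_)
        (pow_K_le (cantor _).le)
      simp
    · simpa using aleph0_le_two_pow
  let C := {E : Set (DD K) // #E ≤ 2 ^ #K}
  let Φ : C → C := fun E => ⟨E.1 ∪ ⋃ c : Code E.1, (qq E.1 c).d,
    (mk_union_le _ _).trans (add_le_of_le aleph0_le_two_pow E.2
      (mk_iUnion_le_of_le _ aleph0_le_two_pow (hCode _ E.2)
        fun c => (qq E.1 c).hd.trans (cantor _).le))⟩
  have hsing : #({rho} : Set (DD K)) ≤ 2 ^ #K :=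
    (mk_singleton_lt (K := K) _).le.trans (cantor _).le
  have hun : ∀ (S : Set L) (c : L → C), #(({rho} : Set (DD K)) ∪ ⋃ j : S, (c j).1 : Set (DD K)) ≤
      2 ^ #K := fun S c =>
    (mk_union_le _ _).trans (add_le_of_le aleph0_le_two_pow hsing
      (mk_iUnion_le_of_le _ aleph0_le_two_pow ((mk_set_le S).trans hL3) fun j => (c j).2))
  obtain ⟨ch, h1, h2⟩ := chain_lemma (fun a b : C => a.1 ⊆ b.1) (fun _ => subset_rfl)
    (fun _ _ _ => Subset.trans) ⟨{rho}, hsing⟩ (ι := L)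
    (fun i c _ _ => ⟨⟨_, hun (Iio i) c⟩, subset_union_left,
      fun j hj a ha => Or.inr (mem_iUnion.2 ⟨⟨j, hj⟩, ha⟩)⟩)
    (fun _ => Φ) fun _ _ => subset_union_left
  let E : Set (DD K) := ⋃ j : L, (ch j).1
  have hE : #E ≤ 2 ^ #K := mk_iUnion_le_of_le _ aleph0_le_two_pow hL3 fun j => (ch j).2
  have hbd : ∀ f : K → L, ∃ l, ∀ k, f k < l := by
    intro f
    have h3 : #(⋃ k, Iic (f k)) ≤ #K := mk_iUnion_le_of_le _ aleph0_le_K le_rfl fun k => by
      rw [← Iio_insert]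
      exact mk_insert_le.trans (add_le_of_le aleph0_le_K (hL1 _) (one_le_aleph0.trans aleph0_le_K))
    obtain ⟨l, hl⟩ := compl_nonempty_of_mk_lt_mk (h3.trans_lt (hL2 ▸ Order.lt_succ _))
    exact ⟨l, fun k => not_le.1 fun h => hl (mem_iUnion.2 ⟨k, h⟩)⟩
  have hrho : (rho : DD K) ∈ E := by
    obtain ⟨l⟩ : Nonempty L := by
      rw [← mk_ne_zero_iff, hL2]; exact (Order.bot_lt_succ _).ne'
    obtain ⟨b, h3, -, h4⟩ := h2 l
    exact mem_iUnion.2 ⟨l, h4 ▸ Or.inl (h3 rfl)⟩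
  have hcl : ∀ c : Code E, (qq E c).d ⊆ E := by
    intro c
    choose f hf using fun k => mem_iUnion.1 (c.1 k).2
    obtain ⟨l, hl⟩ := hbd f
    obtain ⟨b, -, h3, h4⟩ := h2 l
    intro a ha
    refine mem_iUnion.2 ⟨l, h4 ▸ Or.inr (mem_iUnion.2
      ⟨(fun k => ⟨(c.1 k).1, h3 _ (hl k) (hf k)⟩, c.2), ha⟩)⟩
  refine ⟨Code E, fun c => c.2.2.2, qq E, hCode E hE, fun c => hQ2 _ _, fun r ξ₀ => ?_⟩
  have h3 : #(insert rho (r.d ∩ E) : Set (DD K)) ≤ #K :=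
    mk_insert_le.trans (add_le_of_le aleph0_le_K ((mk_le_mk_of_subset inter_subset_left).trans r.hd)
      (one_le_aleph0.trans aleph0_le_K))
  obtain ⟨i⟩ := h3
  let e : K → (insert rho (r.d ∩ E) : Set (DD K)) := Function.invFun i
  have he : Function.Surjective e := Function.invFun_surjective i.injective
  have heE : ∀ k, (e k).1 ∈ E := fun k => (e k).2.elim (fun h => by rw [h]; exact hrho) fun h => h.2
  let c : Code E := (fun k => ⟨(e k).1, heE k⟩, fun k m => r.σ.F (e k).1 m.down, ⟨r.σ.len⟩, ξ₀)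
  refine ⟨c, rfl, (hQ1 ξ₀ (base (fun k => (c.1 k).1) c.2.1 c.2.2.1.down)).2.symm,
    fun a ha ha' => ?_⟩
  obtain ⟨k, hk⟩ := he ⟨a, Or.inr ⟨ha, hcl c ha'⟩⟩
  have h4 : ∃ k, (e k).1 = a := ⟨k, congrArg Subtype.val hk⟩
  have h5 : a ∈ (base (fun k => (c.1 k).1) c.2.1 c.2.2.1.down).d := h4
  rw [(hQ1 _ _).F_eq h5]
  change _ = (St.res _ _).F a
  rw [St.res_F _ (show a ∈ range fun k => (c.1 k).1 from h4)]
  simp only [c, dif_pos h4, h4.choose_spec]

/-- The system of projections. -/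
theorem exists_system {G : Type u} (Γ : Set G) (hΓ : #Γ ≤ 2 ^ #K) (nxt : G → II K → G)
    (w : G → Cardinal.{u}) (hw : ∀ g, w g < #K) (int : G → Prop)
    (hint : ∀ g x, int g → w (nxt g x) = w g) (T₀ : G → Set K) (hT : ∀ g, #(T₀ g) ≤ w g)
    {enc : Set K → K} {dec : K → Set K} (hd : ∀ S : Set K, #S < #K → dec (enc S) = S) :
    ∃ (Y : ℕ → G → K → Set K) (e : ℕ → II K → K) (ι φ : ℕ → II K → K → K) (h : ℕ → G → K),
      (∀ g η, Y 0 g η = T₀ g) ∧ (∀ t x, #{z | ι t x z ≠ kz K} < #K) ∧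
      (∀ t x, #{z | φ t x z ≠ kz K} < #K) ∧
      (∀ t, ∀ g ∈ Γ, ∀ᶠ x in WF K, #(Y t (nxt g x) (e t x)) = wk (rho x) →
        ∀ k, k < rho x → ∃ z ∈ Y t (nxt g x) (e t x), φ t x z = k) ∧
      (∀ t, ∀ g ∈ Γ, int g → ∀ η, h t g ≤ η → ∀ᶠ x in WF K,
        InjOn (proj enc dec (ι t x) η) (Y t (nxt g x) (e t x)) ∧
        proj enc dec (ι t x) η '' Y t (nxt g x) (e t x) = Y (t + 1) g η ∧
        ∀ z ∈ Y t (nxt g x) (e t x), φ t x z < η) ∧
      ∀ t, ∀ g ∈ Γ, ∀ᶠ x in WF K, h t (nxt g x) ≤ e (t + 1) x := by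
  classical
  let S := {p : (G → K → Set K) × (II K → K) // ∀ g η, #(p.1 g η) ≤ w g}
  have stage : ∀ s : S, ∃ (s' : S) (ι φ : II K → K → K) (h : G → K),
      (∀ x, #{z | ι x z ≠ kz K} < #K) ∧ (∀ x, #{z | φ x z ≠ kz K} < #K) ∧
      (∀ g ∈ Γ, ∀ᶠ x in WF K, #(s.1.1 (nxt g x) (s.1.2 x)) = wk (rho x) →
        ∀ k, k < rho x → ∃ z ∈ s.1.1 (nxt g x) (s.1.2 x), φ x z = k) ∧
      (∀ g ∈ Γ, int g → ∀ η, h g ≤ η → ∀ᶠ x in WF K,
        InjOn (proj enc dec (ι x) η) (s.1.1 (nxt g x) (s.1.2 x)) ∧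
        proj enc dec (ι x) η '' s.1.1 (nxt g x) (s.1.2 x) = s'.1.1 g η ∧
        ∀ z ∈ s.1.1 (nxt g x) (s.1.2 x), φ x z < η) ∧
      ∀ g ∈ Γ, ∀ᶠ x in WF K, h (nxt g x) ≤ s'.1.2 x := by
    intro s
    obtain ⟨ι, φ, h1, h2, h3, h4⟩ := step_lemma Γ hΓ (fun g x => s.1.1 (nxt g x) (s.1.2 x)) hd
    have h5 : ∀ g, ∃ h : K, ∀ η, ∃ Y : Set K, #Y ≤ w g ∧ (g ∈ Γ → int g → h ≤ η →
        ∀ᶠ x in WF K, InjOn (proj enc dec (ι x) η) (s.1.1 (nxt g x) (s.1.2 x)) ∧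
        proj enc dec (ι x) η '' s.1.1 (nxt g x) (s.1.2 x) = Y ∧
        ∀ z ∈ s.1.1 (nxt g x) (s.1.2 x), φ x z < η) := by
      intro g
      by_cases hg : g ∈ Γ ∧ int g
      · obtain ⟨h, hh⟩ := h4 g hg.1 (w g) (hw g) fun x => (s.2 _ _).trans (hint g x hg.2).le
        refine ⟨h, fun η => ?_⟩
        by_cases hη : h ≤ η
        · obtain ⟨Y, h5, h6⟩ := hh η hη
          exact ⟨Y, h5, fun _ _ _ => h6⟩
        · exact ⟨∅, by simp, fun _ _ h => absurd h hη⟩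
      · exact ⟨kz K, fun η => ⟨∅, by simp, fun h1 h2 => absurd ⟨h1, h2⟩ hg⟩⟩
    choose h Y h6 h7 using h5
    obtain ⟨e, he⟩ := sup_lemma Γ hΓ fun g x => h (nxt g x)
    exact ⟨⟨(Y, e), h6⟩, ι, φ, h, h1, h2, h3, fun g hg hi η => h7 g η hg hi, he⟩
  choose nx' ι φ h h1 h2 h3 h4 h5 using stage
  let s : ℕ → S := fun t => Nat.rec ⟨(fun g _ => T₀ g, fun _ => kz K), fun g _ => hT g⟩
    (fun _ s => nx' s) t
  exact ⟨fun t => (s t).1.1, fun t => (s t).1.2, fun t => ι (s t), fun t => φ (s t),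
    fun t => h (s t), fun _ _ => rfl, fun t => h1 _, fun t => h2 _, fun t => h3 _, fun t => h4 _,
    fun t => h5 _⟩

end Pool.Agent.Lib.MP_2739cb_lc
end
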