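import Pool.Agent.Lib.MP_2739cb_lc.Names

/-! The two-valued quotient of the names by an ultrafilter containing all dense open sets. -/

namespace Pool.Agent.Lib.MP_2739cb_lc

open Nm

universe u v

variable {P : Type u} [Preorder P] [OrderTop P]

def denseFilter (P : Type u) [Preorder P] : Filter P where
  sets := {S | ∃ D : Set P, D ⊆ S ∧ (∀ p, ∃ q, q ≤ p ∧ q ∈ D) ∧ ∀ p q, q ≤ p → p ∈ D → q ∈ D}
  univ_sets := ⟨Set.univ, le_rfl, fun p => ⟨p, le_rfl, trivial⟩, fun _ _ _ _ => trivial⟩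
  sets_of_superset := by
    rintro S S' ⟨D, h1, h2⟩ h
    exact ⟨D, h1.trans h, h2⟩
  inter_sets := by
    rintro S S' ⟨D, h1, h2, h3⟩ ⟨D', h1', h2', h3'⟩
    refine ⟨D ∩ D', Set.inter_subset_inter h1 h1', fun p => ?_,
      fun p q hq hp => ⟨h3 p q hq hp.1, h3' p q hq hp.2⟩⟩
    obtain ⟨q, hq, hD⟩ := h2 p
    obtain ⟨r, hr, hD'⟩ := h2' q
    exact ⟨r, hr.trans hq, h3 q r hr hD, hD'⟩

instance : (denseFilter P).NeBot := by
  rw [← Filter.forall_mem_nonempty_iff_neBot]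
  rintro S ⟨D, h1, h2, -⟩
  obtain ⟨q, -, hq⟩ := h2 ⊤
  exact ⟨q, h1 hq⟩

noncomputable def UF (P : Type u) [Preorder P] [OrderTop P] : Ultrafilter P :=
  Ultrafilter.of (denseFilter P)

/-- Truth in the quotient model. -/
def T (a : RO P) : Prop := {p | a.s p} ∈ UF P

theorem mem_UF_of_dense {D : Set P} (h1 : ∀ p, ∃ q, q ≤ p ∧ q ∈ D)
    (h2 : ∀ p q, q ≤ p → p ∈ D → q ∈ D) : D ∈ UF P :=
  Ultrafilter.of_le (denseFilter P) ⟨D, le_rfl, h1, h2⟩

theorem T.of_forall {a : RO P} (h : ∀ p, a.s p) : T a := Filter.univ_mem' h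

theorem T.mono {a b : RO P} (ha : T a) (h : ∀ p, a.s p → b.s p) : T b :=
  Filter.mem_of_superset ha h

theorem T.mono₂ {a b c : RO P} (ha : T a) (hb : T b) (h : ∀ p, a.s p → b.s p → c.s p) : T c :=
  Filter.mem_of_superset (Filter.inter_mem ha hb) fun p hp => h p hp.1 hp.2

theorem T.nonempty {a : RO P} (ha : T a) : ∃ p, a.s p :=
  Ultrafilter.nonempty_of_mem ha

theorem T_bot : ¬ T (RO.bot : RO P) := fun h => let ⟨_, h⟩ := h.nonempty; h

theorem T_and (a b : RO P) : T (RO.and a b) ↔ T a ∧ T b :=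
  ⟨fun h => ⟨h.mono fun _ h => h.1, h.mono fun _ h => h.2⟩,
    fun h => h.1.mono₂ h.2 fun _ h1 h2 => ⟨h1, h2⟩⟩

theorem T_em (a : RO P) : T a ∨ T (RO.not a) := by
  have : {p | a.s p} ∪ {p | (RO.not a).s p} ∈ UF P := by
    apply mem_UF_of_dense
    · exact fun p => RO.decide a p
    · rintro p q hq (h | h)
      · exact Or.inl (RO.mono (a := a) h hq)
      · exact Or.inr (RO.mono (a := RO.not a) h hq)
  exact Ultrafilter.union_mem_iff.1 this

theorem T_not (a : RO P) : T (RO.not a) ↔ ¬ T a := by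
  constructor
  · intro h ha
    exact T_bot (h.mono₂ ha fun p h1 h2 => h1 p le_rfl h2)
  · exact fun h => (T_em a).resolve_left h

theorem T_imp (a b : RO P) : T (RO.imp a b) ↔ (T a → T b) := by
  constructor
  · intro h ha
    exact h.mono₂ ha fun p h1 h2 => h1 p le_rfl h2
  · intro h
    rcases T_em a with ha | ha
    · exact (h ha).mono fun p hp q hq _ => RO.mono hp hq
    · exact ha.mono fun p hp q hq h1 => absurd h1 (hp q hq)

theorem T_iff (a b : RO P) : T (RO.iff a b) ↔ (T a ↔ T b) := by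
  rw [RO.iff, T_and, T_imp, T_imp]; exact iff_iff_implies_and_implies.symm

theorem T_or (a b : RO P) : T (RO.or a b) ↔ T a ∨ T b := by
  constructor
  · intro h
    by_contra hc
    push Not at hc
    have h1 := (T_not a).2 hc.1
    have h2 := (T_not b).2 hc.2
    obtain ⟨p, hp, hp1, hp2⟩ := ((T_and _ _).2 ⟨h, (T_and _ _).2 ⟨h1, h2⟩⟩).nonempty
    obtain ⟨r, hr, h3 | h3⟩ := hp p le_rfl
    · exact hp1 r hr h3
    · exact hp2 r hr h3
  · rintro (h | h)
    · exact h.mono fun _ => RO.or_inl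
    · exact h.mono fun _ => RO.or_inr

theorem T_ex_nm (Φ : Nm P → RO P) [Ext Φ] : T (RO.ex Φ) ↔ ∃ x, T (Φ x) := by
  constructor
  · intro h
    obtain ⟨x, hx⟩ := max_principle Φ
    exact ⟨x, h.mono hx⟩
  · rintro ⟨x, hx⟩
    exact hx.mono fun _ => RO.ex_intro x

theorem T_all_nm (Φ : Nm P → RO P) [Ext Φ] : T (RO.all Φ) ↔ ∀ x, T (Φ x) := by
  constructor
  · exact fun h x => h.mono fun _ hp => hp x
  · intro h
    by_contra hc
    have h1 := (T_not _).2 hc
    have h2 : T (RO.ex fun x => RO.not (Φ x)) := by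
      refine h1.mono fun p hp q hq => ?_
      have := hp q hq
      rw [RO.all_s, not_forall] at this
      obtain ⟨x, hx⟩ := this
      obtain ⟨r, hr, h3⟩ := RO.exists_not hx
      exact ⟨r, hr, x, h3⟩
    obtain ⟨x, hx⟩ := (T_ex_nm _).1 h2
    exact (T_not _).1 hx (h x)

def nmSetoid (P : Type u) [Preorder P] [OrderTop P] : Setoid (Nm P) where
  r x y := T (RO.eq x y)
  iseqv := ⟨fun x => T.of_forall (FEq.refl x), fun h => h.mono fun _ => FEq.symm,
    fun h1 h2 => h1.mono₂ h2 fun _ => FEq.trans⟩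

/-- The quotient model. -/
def Mod (P : Type u) [Preorder P] [OrderTop P] : Type (u + 1) := Quotient (nmSetoid P)

def cls (x : Nm P) : Mod P := Quotient.mk (nmSetoid P) x

noncomputable def rep (z : Mod P) : Nm P := Quotient.out z

theorem cls_rep (z : Mod P) : cls (rep z) = z := Quotient.out_eq z

theorem cls_surj (z : Mod P) : ∃ x, z = cls x := ⟨rep z, (cls_rep z).symm⟩

def EM (a b : Mod P) : Prop := T (RO.mem (rep a) (rep b))

theorem T_eq (x y : Nm P) : T (RO.eq x y) ↔ cls x = cls y :=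
  (Quotient.eq (r := nmSetoid P)).symm

theorem T_subst (Φ : Nm P → RO P) [Ext Φ] {x y : Nm P} (e : cls x = cls y) (h : T (Φ x)) :
    T (Φ y) :=
  ((T_eq x y).2 e).mono₂ h fun _ e h => Ext.subst Φ e h

theorem T_mem (x y : Nm P) : T (RO.mem x y) ↔ EM (cls x) (cls y) := by
  unfold EM
  constructor
  · intro h
    exact T_subst (fun x => RO.mem x _) (cls_rep _).symm
      (T_subst (fun y => RO.mem x y) (cls_rep _).symm h)
  · intro h
    exact T_subst (fun x => RO.mem x _) (cls_rep _)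
      (T_subst (fun y => RO.mem _ y) (cls_rep _) h)

theorem T_all (Φ : Nm P → RO P) [Ext Φ] : T (RO.all Φ) ↔ ∀ z : Mod P, T (Φ (rep z)) := by
  rw [T_all_nm]
  exact ⟨fun h z => h _, fun h x => T_subst Φ (cls_rep _) (h (cls x))⟩

theorem T_ex (Φ : Nm P → RO P) [Ext Φ] : T (RO.ex Φ) ↔ ∃ z : Mod P, T (Φ (rep z)) := by
  rw [T_ex_nm]
  exact ⟨fun ⟨x, h⟩ => ⟨cls x, T_subst Φ (cls_rep _).symm h⟩, fun ⟨z, h⟩ => ⟨_, h⟩⟩

/-! ### The forcing value of a formula -/

def force : Fml → (ℕ → Nm P) → RO P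
  | .mem i j, v => RO.mem (v i) (v j)
  | .eq i j, v => RO.eq (v i) (v j)
  | .bot, _ => RO.bot
  | .imp φ ψ, v => RO.imp (force φ v) (force ψ v)
  | .all φ, v => RO.all fun a => force φ (push a v)

omit [OrderTop P] in
theorem force_congr (φ : Fml) : ∀ (v w : ℕ → Nm P) (p : P), (∀ i, FEq (v i) (w i) p) →
    (force φ v).s p → (force φ w).s p := by
  induction φ with
  | mem i j => exact fun v w p h h1 => (FMem.subst_left h1 (h i)).subst_right (h j)
  | eq i j => exact fun v w p h h1 => ((h i).symm.trans h1).trans (h j)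
  | bot => exact fun _ _ _ _ h => h
  | imp φ ψ ih1 ih2 =>
    intro v w p h h1 q hq h2
    exact ih2 v w q (fun i => (h i).mono hq)
      (h1 q hq (ih1 w v q (fun i => ((h i).mono hq).symm) h2))
  | all φ ih =>
    intro v w p h h1 a
    refine ih (push a v) (push a w) p ?_ (h1 a)
    rintro (_ | i)
    · exact FEq.refl _ _
    · exact h i

omit [OrderTop P] in
instance ext_force (φ : Fml) (v : ℕ → Nm P) : Ext fun a => force φ (push a v) :=
  ⟨fun x y p e h => force_congr φ _ _ p (by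
    rintro (_ | i)
    · exact e
    · exact FEq.refl _ _) h⟩

omit [OrderTop P] in
instance ext_force₂ (φ : Fml) (v : ℕ → Nm P) (b : Nm P) :
    Ext fun a => force φ (push b (push a v)) :=
  ⟨fun x y p e h => force_congr φ _ _ p (by
    rintro (_ | _ | i)
    · exact FEq.refl _ _
    · exact e
    · exact FEq.refl _ _) h⟩

theorem T_force (φ : Fml) : ∀ v : ℕ → Nm P, T (force φ v) ↔ Sat EM φ (fun i => cls (v i)) := by
  induction φ with
  | mem i j => exact fun v => T_mem _ _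
  | eq i j => exact fun v => T_eq _ _
  | bot => exact fun v => ⟨T_bot, False.elim⟩
  | imp φ ψ ih1 ih2 =>
    intro v
    rw [force, T_imp, ih1, ih2]; rfl
  | all φ ih =>
    intro v
    rw [force, T_all]
    refine forall_congr' fun z => ?_
    rw [ih]
    have : (fun i => cls (push (rep z) v i)) = push z fun i => cls (v i) := by
      funext i; cases i
      · exact cls_rep z
      · rfl
    rw [this]

theorem T_force₁ (φ : Fml) (v : ℕ → Mod P) (x : Nm P) :
    T (force φ (push x fun i => rep (v i))) ↔ Sat EM φ (push (cls x) v) := by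
  rw [T_force]
  have : (fun i => cls (push x (fun i => rep (v i)) i)) = push (cls x) v := by
    funext i; cases i
    · rfl
    · exact cls_rep _
  rw [this]

theorem T_force₂ (φ : Fml) (v : ℕ → Mod P) (x y : Nm P) :
    T (force φ (push y (push x fun i => rep (v i)))) ↔
      Sat EM φ (push (cls y) (push (cls x) v)) := by
  rw [T_force]
  have : (fun i => cls (push y (push x (fun i => rep (v i))) i)) =
      push (cls y) (push (cls x) v) := by
    funext i; rcases i with _ | _ | i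
    · rfl
    · rfl
    · exact cls_rep _
  rw [this]

/-! ### Separation and collection for arbitrary extensional predicates -/

def sepNm (Φ : Nm P → RO P) (x : Nm P) : Nm P :=
  Nm.mk {t : x.ι × P // t.2 ≤ x.c t.1 ∧ (Φ (x.A t.1)).s t.2} (fun t => x.A t.1.1) (fun t => t.1.2)

omit [OrderTop P] in
theorem fmem_sepNm (Φ : Nm P → RO P) [Ext Φ] (x z : Nm P) (p : P) :
    FMem z (sepNm Φ x) p ↔ FMem z x p ∧ (Φ z).s p := by
  constructor
  · intro h
    constructor
    · intro q hq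
      obtain ⟨r, hr, ⟨⟨i, t⟩, h1, h2⟩, h3, h4⟩ := h q hq
      exact ⟨r, hr, i, le_trans h3 h1, h4⟩
    · apply RO.reg
      intro q hq
      obtain ⟨r, hr, ⟨⟨i, t⟩, h1, h2⟩, h3, h4⟩ := h q hq
      exact ⟨r, hr, Ext.subst Φ h4.symm (RO.mono h2 h3)⟩
  · rintro ⟨h1, h2⟩ q hq
    obtain ⟨r, hr, i, hi, h3⟩ := h1 q hq
    exact ⟨r, hr, ⟨(i, r), hi, Ext.subst Φ h3 (RO.mono h2 (hr.trans hq))⟩, le_rfl, h3⟩

theorem M_sep (Φ : Nm P → RO P) [Ext Φ] (x : Mod P) :
    ∃ w : Mod P, ∀ z, EM z w ↔ EM z x ∧ T (Φ (rep z)) := by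
  refine ⟨cls (sepNm Φ (rep x)), fun z => ?_⟩
  have h1 : EM z (cls (sepNm Φ (rep x))) ↔ T (RO.mem (rep z) (sepNm Φ (rep x))) := by
    rw [T_mem, cls_rep]
  rw [h1, EM, ← T_and]
  exact ⟨fun h => h.mono fun p hp => (fmem_sepNm Φ _ _ p).1 hp,
    fun h => h.mono fun p hp => (fmem_sepNm Φ _ _ p).2 hp⟩

theorem M_collect (Φ : Nm P → Nm P → RO P) [∀ y, Ext fun x => Φ x y] [∀ x, Ext (Φ x)]
    (x : Mod P) : ∃ w : Mod P, ∀ a, EM a x → (∃ b, T (Φ (rep a) (rep b))) →
      ∃ b, EM b w ∧ T (Φ (rep a) (rep b)) := by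
  choose f hf using fun i : (rep x).ι => max_principle (Φ ((rep x).A i))
  let w : Nm P := Nm.mk (rep x).ι f fun _ => ⊤
  refine ⟨cls w, fun a ha hb => ?_⟩
  have h1 : T (RO.ex (Φ (rep a))) := (T_ex _).2 hb
  have h2 : T (RO.ex fun b => RO.and (RO.mem b w) (Φ (rep a) b)) := by
    refine T.mono₂ ha h1 fun p hp1 hp2 q hq => ?_
    obtain ⟨r, hr, i, hi, h3⟩ := hp1 q hq
    have h4 : (RO.ex (Φ ((rep x).A i))).s r :=
      Ext.subst (fun t => RO.ex (Φ t)) h3 (RO.mono hp2 (hr.trans hq))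
    exact ⟨r, hr, f i, FMem.of_le (y := w) i le_top,
      Ext.subst (fun t => Φ t (f i)) h3.symm (hf i r h4)⟩
  obtain ⟨b, hb⟩ := (T_ex _).1 h2
  rw [T_and, T_mem, cls_rep] at hb
  exact ⟨b, hb⟩

/-! ### The ZFC schemes and statements -/

theorem M_ext (x y : Mod P) (h : ∀ z, EM z x ↔ EM z y) : x = y := by
  have h1 : T (RO.all fun z => RO.iff (RO.mem z (rep x)) (RO.mem z (rep y))) := by
    rw [T_all]; intro z; rw [T_iff]; exact h z
  have h2 : T (RO.eq (rep x) (rep y)) :=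
    h1.mono fun p hp => FEq.ext fun z q hq => (RO.iff_s _ _ _).1 (hp z) q hq
  rwa [T_eq, cls_rep, cls_rep] at h2

theorem M_found (x : Mod P) (h : ∃ y, EM y x) : ∃ y, EM y x ∧ ∀ z, EM z y → ¬ EM z x := by
  have h1 : T (RO.ex fun y => RO.mem y (rep x)) := (T_ex _).2 h
  have h2 : T (RO.ex fun y => RO.and (RO.mem y (rep x))
      (RO.all fun z => RO.imp (RO.mem z y) (RO.not (RO.mem z (rep x))))) := by
    refine h1.mono fun p hp => RO.by_contra fun q hq hn => ?_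
    have key : ∀ y : Nm P, ∀ r, r ≤ q → ¬ FMem y (rep x) r := by
      intro y
      induction y using Nm.ind with
      | h y ih =>
        intro r hr hy
        refine hn r hr (RO.ex_intro y ⟨hy, fun z t ht hz t' ht' hz' => ?_⟩)
        obtain ⟨s, hs, j, -, hj⟩ := hz t' ht'
        exact ih j s (hs.trans (ht'.trans (ht.trans hr))) ((FMem.mono hz' hs).subst_left hj)
    obtain ⟨r, hr, y, hy⟩ := hp q hq
    exact key y r hr hy
  simpa only [T_ex, T_and, T_all, T_imp, T_not, T_mem, cls_rep] using h2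

def pairNm (x y : Nm P) : Nm P :=
  Nm.mk (ULift.{u} Bool) (fun b => if b.down then x else y) fun _ => ⊤

theorem M_pair (x y : Mod P) : ∃ w, ∀ z, EM z w ↔ z = x ∨ z = y := by
  refine ⟨cls (pairNm (rep x) (rep y)), fun z => ?_⟩
  have : T (RO.iff (RO.mem (rep z) (pairNm (rep x) (rep y)))
      (RO.or (RO.eq (rep z) (rep x)) (RO.eq (rep z) (rep y)))) := by
    refine T.of_forall fun p => (RO.iff_s _ _ _).2 fun q _ => ⟨fun h r hr => ?_, fun h r hr => ?_⟩
    · obtain ⟨t, ht, ⟨_ | _⟩, -, h1⟩ := h r hr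
      · exact ⟨t, ht, Or.inr h1⟩
      · exact ⟨t, ht, Or.inl h1⟩
    · obtain ⟨t, ht, h1 | h1⟩ := h r hr
      · exact ⟨t, ht, ⟨true⟩, le_top, h1⟩
      · exact ⟨t, ht, ⟨false⟩, le_top, h1⟩
  simpa only [T_iff, T_or, T_eq, T_mem, cls_rep] using this

def unionNm (x : Nm P) : Nm P :=
  Nm.mk (Σ i : x.ι, (x.A i).ι) (fun t => (x.A t.1).A t.2) fun _ => ⊤

theorem fmem_unionNm {x y z : Nm P} {p : P} (h1 : FMem y x p) (h2 : FMem z y p) :
    ∀ q, q ≤ p → ∃ r, r ≤ q ∧ ∃ t : (unionNm x).ι, FEq z ((unionNm x).A t) r := by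
  intro q hq
  obtain ⟨r, hr, i, -, hi⟩ := h1 q hq
  obtain ⟨t, ht, j, -, hj⟩ := ((h2.mono (hr.trans hq)).subst_right hi) r le_rfl
  exact ⟨t, ht.trans hr, ⟨i, j⟩, hj⟩

theorem M_union (x : Mod P) : ∃ w, ∀ z, EM z w ↔ ∃ y, EM y x ∧ EM z y := by
  obtain ⟨w, hw⟩ := M_sep (fun z => RO.ex fun y => RO.and (RO.mem y (rep x)) (RO.mem z y))
    (cls (unionNm (rep x)))
  refine ⟨w, fun z => ?_⟩
  rw [hw]
  simp only [T_ex, T_and, T_mem, cls_rep]
  refine ⟨fun h => h.2, fun h => ⟨?_, h⟩⟩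
  obtain ⟨y, h1, h2⟩ := h
  rw [← cls_rep z, ← T_mem]
  refine T.mono₂ h1 h2 fun p hp1 hp2 q hq => ?_
  obtain ⟨r, hr, t, ht⟩ := fmem_unionNm hp1 hp2 q hq
  exact ⟨r, hr, t, le_top, ht⟩

def powNm (x : Nm P) : Nm P :=
  Nm.mk (Set (x.ι × P)) (fun S => Nm.mk S (fun t => x.A t.1.1) fun t => t.1.2) fun _ => ⊤

theorem M_power (x : Mod P) : ∃ w, ∀ z, EM z w ↔ ∀ t, EM t z → EM t x := by
  obtain ⟨w, hw⟩ := M_sep (fun z => RO.all fun t => RO.imp (RO.mem t z) (RO.mem t (rep x)))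
    (cls (powNm (rep x)))
  refine ⟨w, fun z => ?_⟩
  rw [hw]
  have h0 : T (RO.all fun t => RO.imp (RO.mem t (rep z)) (RO.mem t (rep x))) ↔
      ∀ t, EM t z → EM t x := by
    simp only [T_all, T_imp, T_mem, cls_rep]
  rw [h0]
  refine ⟨fun h => h.2, fun h => ⟨?_, h⟩⟩
  rw [← cls_rep z, ← T_mem]
  refine (h0.2 h).mono fun p hp q hq => ?_
  refine ⟨q, le_rfl, {t | FMem ((rep x).A t.1) (rep z) t.2}, le_top, FEq.ext fun t r hr => ?_⟩
  constructor
  · intro ht s hs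
    obtain ⟨s', hs', i, -, hi⟩ := hp t s (hs.trans (hr.trans hq)) (ht.mono hs) s le_rfl
    exact ⟨s', hs', ⟨(i, s'), (ht.mono (hs'.trans hs)).subst_left hi⟩, le_rfl, hi⟩
  · intro ht
    apply FMem.reg
    intro s hs
    obtain ⟨s', hs', ⟨⟨i, r'⟩, hi⟩, h1, h2⟩ := ht s hs
    exact ⟨s', hs', (FMem.mono hi h1).subst_left h2.symm⟩

def emptyNm : Nm P := Nm.mk PEmpty (fun t => t.elim) fun t => t.elim

omit [OrderTop P] in
theorem not_fmem_emptyNm (z : Nm P) (p : P) : ¬ FMem z emptyNm p := by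
  intro h
  obtain ⟨_, _, j, _⟩ := h p le_rfl
  exact j.elim

def succNm (x : Nm P) : Nm P :=
  Nm.mk (Option x.ι) (fun t => t.elim x x.A) fun t => t.elim ⊤ x.c

theorem fmem_succNm (x z : Nm P) (p : P) :
    FMem z (succNm x) p ↔ (RO.or (RO.mem z x) (RO.eq z x)).s p := by
  constructor
  · intro h q hq
    obtain ⟨r, hr, _ | j, h1, h2⟩ := h q hq
    · exact ⟨r, hr, Or.inr h2⟩
    · exact ⟨r, hr, Or.inl ((FMem.of_le j h1).subst_left h2.symm)⟩
  · intro h q hq
    obtain ⟨r, hr, h1 | h1⟩ := h q hq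
    · obtain ⟨t, ht, j, h2, h3⟩ := h1 r le_rfl
      exact ⟨t, ht.trans hr, some j, h2, h3⟩
    · exact ⟨r, hr, none, le_top, h1⟩

def natNm : ℕ → Nm P
  | 0 => emptyNm
  | n + 1 => succNm (natNm n)

def omegaNm : Nm P := Nm.mk (ULift.{u} ℕ) (fun n => natNm n.down) fun _ => ⊤

theorem M_inf : ∃ w : Mod P, (∃ e, EM e w ∧ ∀ z, ¬ EM z e) ∧
    ∀ y, EM y w → ∃ s, EM s w ∧ ∀ z, EM z s ↔ EM z y ∨ z = y := by
  refine ⟨cls omegaNm, ⟨cls emptyNm, ?_, fun z => ?_⟩, fun y hy => ?_⟩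
  · rw [← T_mem]
    exact T.of_forall fun p => FMem.of_le (y := omegaNm) ⟨0⟩ le_top
  · rw [← cls_rep z, ← T_mem, ← T_not]
    exact T.of_forall fun p q _ => not_fmem_emptyNm _ _
  · refine ⟨cls (succNm (rep y)), ?_, fun z => ?_⟩
    · rw [← cls_rep y, ← T_mem] at hy
      rw [← T_mem]
      refine hy.mono fun p hp q hq => ?_
      obtain ⟨r, hr, n, -, hn⟩ := hp q hq
      refine ⟨r, hr, ⟨n.down + 1⟩, le_top, FEq.ext fun z t ht => ?_⟩
      change _ ↔ FMem z (succNm (natNm n.down)) t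
      rw [fmem_succNm, fmem_succNm]
      exact ⟨Ext.subst (fun y => RO.or (RO.mem z y) (RO.eq z y)) (hn.mono ht),
        Ext.subst (fun y => RO.or (RO.mem z y) (RO.eq z y)) (hn.mono ht).symm⟩
    · have : T (RO.iff (RO.mem (rep z) (succNm (rep y)))
          (RO.or (RO.mem (rep z) (rep y)) (RO.eq (rep z) (rep y)))) :=
        T.of_forall fun p => (RO.iff_s _ _ _).2 fun q _ => fmem_succNm _ _ _
      simpa only [T_iff, T_or, T_eq, T_mem, cls_rep] using this

theorem M_choice (x : Mod P) (h1 : ∀ y, EM y x → ∃ z, EM z y)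
    (h2 : ∀ y y', EM y x → EM y' x → (∃ z, EM z y ∧ EM z y') → y = y') :
    ∃ c, ∀ y, EM y x → ∃! z, EM z y ∧ EM z c := by
  classical
  let X := rep x
  let N := unionNm X
  obtain ⟨_, _⟩ := exists_wellFoundedLT N.ι
  let Φ : Nm P → RO P := fun z => RO.ex fun j : N.ι => RO.and (RO.eq z (N.A j))
    (RO.ex fun y => RO.and (RO.mem y X) (RO.and (RO.mem (N.A j) y)
      (RO.all fun j' : {j' // j' < j} => RO.not (RO.mem (N.A j'.1) y))))
  let C := sepNm Φ N
  have H1 : T (RO.all fun y => RO.imp (RO.mem y X) (RO.ex fun z => RO.mem z y)) := by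
    simpa only [T_all, T_imp, T_ex, T_mem, cls_rep, X] using h1
  have H2 : T (RO.all fun y => RO.all fun y' => RO.imp (RO.mem y X) (RO.imp (RO.mem y' X)
      (RO.imp (RO.ex fun z => RO.and (RO.mem z y) (RO.mem z y')) (RO.eq y y')))) := by
    simpa only [T_all, T_imp, T_ex, T_and, T_mem, T_eq, cls_rep, X] using h2
  have H3 : T (RO.all fun y => RO.imp (RO.mem y X) (RO.ex fun z =>
      RO.and (RO.and (RO.mem z y) (RO.mem z C))
        (RO.all fun z' => RO.imp (RO.and (RO.mem z' y) (RO.mem z' C)) (RO.eq z' z)))) := by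
    refine T.mono₂ H1 H2 fun p hp1 hp2 y q hq hy r hr => ?_
    have hne : ∃ j : N.ι, ∃ t, t ≤ r ∧ FMem (N.A j) y t := by
      obtain ⟨t, ht, z, hz⟩ := hp1 y q hq hy r hr
      obtain ⟨t', ht', j, hj⟩ := fmem_unionNm (FMem.mono hy (ht.trans hr)) hz t le_rfl
      exact ⟨j, t', ht'.trans ht, (FMem.mono hz ht').subst_left hj⟩
    obtain ⟨j, ⟨t, ht, hj⟩, hmin⟩ := WellFounded.has_min wellFounded_lt
      {j : N.ι | ∃ t, t ≤ r ∧ FMem (N.A j) y t} hne
    have hyt : FMem y X t := FMem.mono hy (ht.trans hr)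
    refine ⟨t, ht, N.A j, ⟨hj, ?_⟩, fun z' s hs hz' => ?_⟩
    · refine (fmem_sepNm Φ N _ t).2 ⟨FMem.of_le j le_top, RO.ex_intro j ⟨FEq.refl _ _,
        RO.ex_intro y ⟨hyt, hj, fun j' s hs h => hmin j'.1 ⟨s, hs.trans ht, h⟩ j'.2⟩⟩⟩
    · apply FEq.reg
      intro s1 hs1
      obtain ⟨s2, hs2, j1, e1, h4⟩ := ((fmem_sepNm Φ N _ s).1 hz'.2).2 s1 hs1
      obtain ⟨s3, hs3, y1, h5, h6, h7⟩ := h4 s2 le_rfl
      have hs3s : s3 ≤ s := hs3.trans (hs2.trans hs1)
      have hs3t : s3 ≤ t := hs3s.trans hs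
      have h8 : FMem (N.A j1) y s3 := (FMem.mono hz'.1 hs3s).subst_left (FEq.mono e1 hs3)
      have h9 : FEq y y1 s3 := hp2 y y1 s3 (hs3t.trans (ht.trans (hr.trans hq))) (hyt.mono hs3t)
        s3 le_rfl h5 s3 le_rfl (RO.ex_intro (N.A j1) ⟨h8, h6⟩)
      have hjj : j1 = j := by
        rcases lt_trichotomy j1 j with h | h | h
        · exact absurd h (hmin j1 ⟨s3, hs3t.trans ht, h8⟩)
        · exact h
        · exact absurd ((hj.mono hs3t).subst_right h9) (h7 ⟨j, h⟩ s3 le_rfl)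
      subst hjj
      exact ⟨s3, hs3.trans hs2, FEq.mono e1 hs3⟩
  refine ⟨cls C, ?_⟩
  simpa only [T_all, T_imp, T_ex, T_and, T_mem, T_eq, cls_rep, X, ExistsUnique] using H3

theorem M_zfc : IsZFC (EM (P := P)) where
  extensionality := M_ext
  foundation := M_found
  pairing := M_pair
  union := M_union
  powerset := M_power
  infinity := M_inf
  separation φ v x := by
    obtain ⟨w, hw⟩ := M_sep (fun z => force φ (push z fun i => rep (v i))) x
    refine ⟨w, fun z => ?_⟩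
    rw [hw, T_force₁, cls_rep]
  replacement φ v x h := by
    obtain ⟨w, hw⟩ := M_collect (fun a b => force φ (push b (push a fun i => rep (v i)))) x
    obtain ⟨w', hw'⟩ := M_sep (fun b => RO.ex fun a => RO.and (RO.mem a (rep x))
      (force φ (push b (push a fun i => rep (v i))))) w
    refine ⟨w', fun b => ?_⟩
    rw [hw']
    simp only [T_ex, T_and, T_mem, T_force₂, cls_rep] at hw ⊢
    refine ⟨fun h => h.2, fun h1 => ⟨?_, h1⟩⟩
    obtain ⟨a, ha, hb⟩ := h1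
    obtain ⟨b', hb1, hb2⟩ := hw a ha ⟨b, hb⟩
    rwa [(h a ha).unique hb hb2]
  choice := M_choice

end Pool.Agent.Lib.MP_2739cb_lc
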