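import Pool.Agent.Lib.MP_2739cb_lc.Defs

/-! Names, the forcing relation for atomic formulas, regular open truth values. -/

namespace Pool.Agent.Lib.MP_2739cb_lc

universe u v

inductive Nm (P : Type u) : Type (u + 1)
  | mk (ι : Type u) (A : ι → Nm P) (c : ι → P) : Nm P

namespace Nm

variable {P : Type u}

def ι : Nm P → Type u
  | mk ι _ _ => ι

def A : (x : Nm P) → x.ι → Nm P
  | mk _ A _ => A

def c : (x : Nm P) → x.ι → P
  | mk _ _ c => c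

@[simp] theorem ι_mk (ι : Type u) (A : ι → Nm P) (c : ι → P) : (mk ι A c).ι = ι := rfl
@[simp] theorem A_mk (ι : Type u) (A : ι → Nm P) (c : ι → P) : (mk ι A c).A = A := rfl
@[simp] theorem c_mk (ι : Type u) (A : ι → Nm P) (c : ι → P) : (mk ι A c).c = c := rfl

theorem ind {Q : Nm P → Prop} (h : ∀ x, (∀ i, Q (x.A i)) → Q x) (x : Nm P) : Q x := by
  induction x with
  | mk ι A c ih => exact h _ ih

variable [Preorder P]

def FEq : Nm P → Nm P → P → Prop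
  | mk _ A c, y, p =>
    (∀ i q, q ≤ p → q ≤ c i → ∃ r, r ≤ q ∧ ∃ j, r ≤ y.c j ∧ FEq (A i) (y.A j) r) ∧
    (∀ j q, q ≤ p → q ≤ y.c j → ∃ r, r ≤ q ∧ ∃ i, r ≤ c i ∧ FEq (A i) (y.A j) r)

theorem feq_iff (x y : Nm P) (p : P) : FEq x y p ↔
    (∀ i q, q ≤ p → q ≤ x.c i → ∃ r, r ≤ q ∧ ∃ j, r ≤ y.c j ∧ FEq (x.A i) (y.A j) r) ∧
    (∀ j q, q ≤ p → q ≤ y.c j → ∃ r, r ≤ q ∧ ∃ i, r ≤ x.c i ∧ FEq (x.A i) (y.A j) r) := by
  cases x; rfl

theorem FEq.mono {x y : Nm P} {p q : P} (h : FEq x y p) (hq : q ≤ p) : FEq x y q := by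
  rw [feq_iff] at h ⊢
  exact ⟨fun i r hr hc => h.1 i r (hr.trans hq) hc, fun j r hr hc => h.2 j r (hr.trans hq) hc⟩

theorem FEq.reg {x y : Nm P} {p : P} (h : ∀ q, q ≤ p → ∃ r, r ≤ q ∧ FEq x y r) : FEq x y p := by
  rw [feq_iff]
  constructor
  · intro i q hq hc
    obtain ⟨r, hr, h1⟩ := h q hq
    obtain ⟨s, hs, h2⟩ := ((feq_iff _ _ _).1 h1).1 i r le_rfl (hr.trans hc)
    exact ⟨s, hs.trans hr, h2⟩
  · intro i q hq hc
    obtain ⟨r, hr, h1⟩ := h q hq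
    obtain ⟨s, hs, h2⟩ := ((feq_iff _ _ _).1 h1).2 i r le_rfl (hr.trans hc)
    exact ⟨s, hs.trans hr, h2⟩

theorem FEq.refl (x : Nm P) : ∀ p : P, FEq x x p := by
  induction x using Nm.ind with
  | h x ih =>
    intro p
    rw [feq_iff]
    exact ⟨fun i q _ hc => ⟨q, le_rfl, i, hc, ih i q⟩, fun i q _ hc => ⟨q, le_rfl, i, hc, ih i q⟩⟩

theorem FEq.symm' (x : Nm P) : ∀ (y : Nm P) (p : P), FEq x y p → FEq y x p := by
  induction x using Nm.ind with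
  | h x ih =>
    intro y p h
    rw [feq_iff] at h ⊢
    constructor
    · intro j q hq hc
      obtain ⟨r, hr, i, hi, h1⟩ := h.2 j q hq hc
      exact ⟨r, hr, i, hi, ih i _ _ h1⟩
    · intro i q hq hc
      obtain ⟨r, hr, j, hj, h1⟩ := h.1 i q hq hc
      exact ⟨r, hr, j, hj, ih i _ _ h1⟩

theorem FEq.symm {x y : Nm P} {p : P} (h : FEq x y p) : FEq y x p := FEq.symm' x y p h

theorem FEq.trans' (x : Nm P) : ∀ (y z : Nm P) (p : P), FEq x y p → FEq y z p → FEq x z p := by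
  induction x using Nm.ind with
  | h x ih =>
    intro y z p h1 h2
    rw [feq_iff] at h1 h2 ⊢
    constructor
    · intro i q hq hc
      obtain ⟨r, hr, j, hj, h3⟩ := h1.1 i q hq hc
      obtain ⟨s, hs, k, hk, h4⟩ := h2.1 j r (hr.trans hq) hj
      exact ⟨s, hs.trans hr, k, hk, ih i _ _ _ (h3.mono hs) h4⟩
    · intro k q hq hc
      obtain ⟨r, hr, j, hj, h3⟩ := h2.2 k q hq hc
      obtain ⟨s, hs, i, hi, h4⟩ := h1.2 j r (hr.trans hq) hj
      exact ⟨s, hs.trans hr, i, hi, ih i _ _ _ h4 (h3.mono hs)⟩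

theorem FEq.trans {x y z : Nm P} {p : P} (h1 : FEq x y p) (h2 : FEq y z p) : FEq x z p :=
  FEq.trans' x y z p h1 h2

def FMem (x y : Nm P) (p : P) : Prop :=
  ∀ q, q ≤ p → ∃ r, r ≤ q ∧ ∃ j, r ≤ y.c j ∧ FEq x (y.A j) r

theorem FMem.mono {x y : Nm P} {p q : P} (h : FMem x y p) (hq : q ≤ p) : FMem x y q :=
  fun r hr => h r (hr.trans hq)

theorem FMem.reg {x y : Nm P} {p : P} (h : ∀ q, q ≤ p → ∃ r, r ≤ q ∧ FMem x y r) :
    FMem x y p := by
  intro q hq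
  obtain ⟨r, hr, h1⟩ := h q hq
  obtain ⟨s, hs, h2⟩ := h1 r le_rfl
  exact ⟨s, hs.trans hr, h2⟩

theorem FMem.of_le {y : Nm P} {p : P} (j : y.ι) (h : p ≤ y.c j) : FMem (y.A j) y p :=
  fun q hq => ⟨q, le_rfl, j, hq.trans h, FEq.refl _ _⟩

theorem FMem.subst_left {x x' y : Nm P} {p : P} (h : FMem x y p) (e : FEq x x' p) :
    FMem x' y p := by
  intro q hq
  obtain ⟨r, hr, j, hj, h1⟩ := h q hq
  exact ⟨r, hr, j, hj, (e.mono (hr.trans hq)).symm.trans h1⟩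

theorem FMem.subst_right {x y y' : Nm P} {p : P} (h : FMem x y p) (e : FEq y y' p) :
    FMem x y' p := by
  intro q hq
  obtain ⟨r, hr, j, hj, h1⟩ := h q hq
  obtain ⟨s, hs, k, hk, h2⟩ := ((feq_iff _ _ _).1 e).1 j r (hr.trans hq) hj
  exact ⟨s, hs.trans hr, k, hk, (h1.mono hs).trans h2⟩

theorem FEq.ext {x y : Nm P} {p : P}
    (h : ∀ z q, q ≤ p → (FMem z x q ↔ FMem z y q)) : FEq x y p := by
  rw [feq_iff]
  constructor
  · intro i q hq hc
    exact (h _ q hq).1 (FMem.of_le i hc) q le_rfl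
  · intro j q hq hc
    obtain ⟨r, hr, i, hi, h1⟩ := (h _ q hq).2 (FMem.of_le j hc) q le_rfl
    exact ⟨r, hr, i, hi, h1.symm⟩

end Nm

open Nm

/-- Regular open sets of conditions: the truth values. -/
structure RO (P : Type u) [Preorder P] where
  s : P → Prop
  mono' : ∀ p q, q ≤ p → s p → s q
  reg' : ∀ p, (∀ q, q ≤ p → ∃ r, r ≤ q ∧ s r) → s p

namespace RO

variable {P : Type u} [Preorder P]

theorem mono {a : RO P} {p q : P} (h : a.s p) (hq : q ≤ p) : a.s q := a.mono' p q hq h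

theorem reg {a : RO P} {p : P} (h : ∀ q, q ≤ p → ∃ r, r ≤ q ∧ a.s r) : a.s p := a.reg' p h

def bot : RO P where
  s _ := False
  mono' _ _ _ h := h
  reg' p h := by obtain ⟨_, _, h⟩ := h p le_rfl; exact h

def imp (a b : RO P) : RO P where
  s p := ∀ q, q ≤ p → a.s q → b.s q
  mono' _ _ hq h r hr := h r (hr.trans hq)
  reg' p h q hq ha := by
    apply reg
    intro r hr
    obtain ⟨t, ht, h1⟩ := h r (hr.trans hq)
    exact ⟨t, ht, h1 t le_rfl (mono ha (ht.trans hr))⟩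

def not (a : RO P) : RO P where
  s p := ∀ q, q ≤ p → ¬ a.s q
  mono' _ _ hq h r hr := h r (hr.trans hq)
  reg' p h q hq ha := by
    obtain ⟨t, ht, h1⟩ := h q hq
    exact h1 t le_rfl (mono ha ht)

def and (a b : RO P) : RO P where
  s p := a.s p ∧ b.s p
  mono' _ _ hq h := ⟨mono h.1 hq, mono h.2 hq⟩
  reg' p h := ⟨reg fun q hq => let ⟨r, hr, h1⟩ := h q hq; ⟨r, hr, h1.1⟩,
    reg fun q hq => let ⟨r, hr, h1⟩ := h q hq; ⟨r, hr, h1.2⟩⟩

def iff (a b : RO P) : RO P := and (imp a b) (imp b a)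

/-- The regularisation of an arbitrary set of conditions. -/
def dense (S : P → Prop) : RO P where
  s p := ∀ q, q ≤ p → ∃ r, r ≤ q ∧ S r
  mono' _ _ hq h r hr := h r (hr.trans hq)
  reg' p h q hq := by
    obtain ⟨r, hr, h1⟩ := h q hq
    obtain ⟨t, ht, h2⟩ := h1 r le_rfl
    exact ⟨t, ht.trans hr, h2⟩

def or (a b : RO P) : RO P := dense fun p => a.s p ∨ b.s p

def all {α : Sort v} (f : α → RO P) : RO P where
  s p := ∀ x, (f x).s p
  mono' _ _ hq h x := mono (h x) hq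
  reg' p h x := reg fun q hq => let ⟨r, hr, h1⟩ := h q hq; ⟨r, hr, h1 x⟩

def ex {α : Sort v} (f : α → RO P) : RO P := dense fun p => ∃ x, (f x).s p

def eq (x y : Nm P) : RO P where
  s := FEq x y
  mono' _ _ hq h := h.mono hq
  reg' _ h := FEq.reg h

def mem (x y : Nm P) : RO P where
  s := FMem x y
  mono' _ _ hq h := h.mono hq
  reg' _ h := FMem.reg h

theorem bot_s (p : P) : (bot : RO P).s p ↔ False := Iff.rfl
theorem imp_s (a b : RO P) (p : P) : (imp a b).s p ↔ ∀ q, q ≤ p → a.s q → b.s q := Iff.rfl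
theorem not_s (a : RO P) (p : P) : (not a).s p ↔ ∀ q, q ≤ p → ¬ a.s q := Iff.rfl
theorem and_s (a b : RO P) (p : P) : (and a b).s p ↔ a.s p ∧ b.s p := Iff.rfl
theorem iff_s (a b : RO P) (p : P) : (iff a b).s p ↔ ∀ q, q ≤ p → (a.s q ↔ b.s q) :=
  ⟨fun h q hq => ⟨h.1 q hq, h.2 q hq⟩, fun h => ⟨fun q hq => (h q hq).1, fun q hq => (h q hq).2⟩⟩
theorem dense_s (S : P → Prop) (p : P) :
    (dense S).s p ↔ ∀ q, q ≤ p → ∃ r, r ≤ q ∧ S r := Iff.rfl
theorem or_s (a b : RO P) (p : P) :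
    (or a b).s p ↔ ∀ q, q ≤ p → ∃ r, r ≤ q ∧ (a.s r ∨ b.s r) := Iff.rfl
theorem all_s {α : Sort v} (f : α → RO P) (p : P) : (all f).s p ↔ ∀ x, (f x).s p := Iff.rfl
theorem ex_s {α : Sort v} (f : α → RO P) (p : P) :
    (ex f).s p ↔ ∀ q, q ≤ p → ∃ r, r ≤ q ∧ ∃ x, (f x).s r := Iff.rfl
theorem eq_s (x y : Nm P) (p : P) : (eq x y).s p ↔ FEq x y p := Iff.rfl
theorem mem_s (x y : Nm P) (p : P) : (mem x y).s p ↔ FMem x y p := Iff.rfl

theorem ex_intro {α : Sort v} {f : α → RO P} {p : P} (x : α) (h : (f x).s p) : (ex f).s p :=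
  fun q hq => ⟨q, le_rfl, x, mono h hq⟩

theorem or_inl {a b : RO P} {p : P} (h : a.s p) : (or a b).s p :=
  fun q hq => ⟨q, le_rfl, Or.inl (mono h hq)⟩

theorem or_inr {a b : RO P} {p : P} (h : b.s p) : (or a b).s p :=
  fun q hq => ⟨q, le_rfl, Or.inr (mono h hq)⟩

theorem dense_intro {S : P → Prop} (hS : ∀ p q, q ≤ p → S p → S q) {p : P} (h : S p) :
    (dense S).s p :=
  fun q hq => ⟨q, le_rfl, hS _ _ hq h⟩

/-- If `p` does not force `a`, some extension forces `not a`. -/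
theorem exists_not {a : RO P} {p : P} (h : ¬ a.s p) : ∃ q, q ≤ p ∧ (not a).s q := by
  by_contra hc
  apply h
  apply reg
  intro q hq
  by_contra h2
  exact hc ⟨q, hq, fun r hr ha => h2 ⟨r, hr, ha⟩⟩

theorem decide (a : RO P) (p : P) : ∃ q, q ≤ p ∧ (a.s q ∨ (not a).s q) := by
  by_cases h : a.s p
  · exact ⟨p, le_rfl, Or.inl h⟩
  · obtain ⟨q, hq, h1⟩ := exists_not h
    exact ⟨q, hq, Or.inr h1⟩

theorem by_contra {a : RO P} {p : P} (h : ∀ q, q ≤ p → ¬ (not a).s q) : a.s p := by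
  by_contra hc
  obtain ⟨q, hq, h1⟩ := exists_not hc
  exact h q hq h1

end RO

/-- Predicates on names that respect forced equality. -/
class Ext {P : Type u} [Preorder P] (Φ : Nm P → RO P) : Prop where
  out : ∀ x y p, FEq x y p → (Φ x).s p → (Φ y).s p

namespace Ext

variable {P : Type u} [Preorder P]

theorem subst (Φ : Nm P → RO P) [h : Ext Φ] {x y : Nm P} {p : P} (e : FEq x y p)
    (hx : (Φ x).s p) : (Φ y).s p := h.out x y p e hx

instance (priority := 2000) const (a : RO P) : Ext fun _ : Nm P => a := ⟨fun _ _ _ _ h => h⟩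

instance eq_left (y : Nm P) : Ext fun x : Nm P => RO.eq x y :=
  ⟨fun _ _ _ e h => e.symm.trans h⟩

instance eq_right (y : Nm P) : Ext fun x : Nm P => RO.eq y x :=
  ⟨fun _ _ _ e h => FEq.trans h e⟩

instance mem_left (y : Nm P) : Ext fun x : Nm P => RO.mem x y :=
  ⟨fun _ _ _ e h => FMem.subst_left h e⟩

instance mem_right (y : Nm P) : Ext fun x : Nm P => RO.mem y x :=
  ⟨fun _ _ _ e h => FMem.subst_right h e⟩

instance imp (Φ Ψ : Nm P → RO P) [h1 : Ext Φ] [h2 : Ext Ψ] :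
    Ext fun x => RO.imp (Φ x) (Ψ x) :=
  ⟨fun x y _ e h q hq ha => h2.out x y q (e.mono hq) (h q hq (h1.out y x q (e.mono hq).symm ha))⟩

instance not (Φ : Nm P → RO P) [h1 : Ext Φ] : Ext fun x => RO.not (Φ x) :=
  ⟨fun x y _ e h q hq ha => h q hq (h1.out y x q (e.mono hq).symm ha)⟩

instance and (Φ Ψ : Nm P → RO P) [h1 : Ext Φ] [h2 : Ext Ψ] :
    Ext fun x => RO.and (Φ x) (Ψ x) :=
  ⟨fun x y p e h => ⟨h1.out x y p e h.1, h2.out x y p e h.2⟩⟩

instance iff (Φ Ψ : Nm P → RO P) [Ext Φ] [Ext Ψ] : Ext fun x => RO.iff (Φ x) (Ψ x) := by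
  unfold RO.iff; infer_instance

instance or (Φ Ψ : Nm P → RO P) [h1 : Ext Φ] [h2 : Ext Ψ] :
    Ext fun x => RO.or (Φ x) (Ψ x) :=
  ⟨fun x y _ e h q hq => by
    obtain ⟨r, hr, h3⟩ := h q hq
    exact ⟨r, hr, h3.imp (h1.out x y r (e.mono (hr.trans hq))) (h2.out x y r (e.mono (hr.trans hq)))⟩⟩

instance all {α : Sort v} (Φ : Nm P → α → RO P) [h1 : ∀ a, Ext fun x => Φ x a] :
    Ext fun x => RO.all (Φ x) :=
  ⟨fun x y p e h a => (h1 a).out x y p e (h a)⟩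

instance ex {α : Sort v} (Φ : Nm P → α → RO P) [h1 : ∀ a, Ext fun x => Φ x a] :
    Ext fun x => RO.ex (Φ x) :=
  ⟨fun x y _ e h q hq => by
    obtain ⟨r, hr, a, h3⟩ := h q hq
    exact ⟨r, hr, a, (h1 a).out x y r (e.mono (hr.trans hq)) h3⟩⟩

end Ext

/-- The maximum principle. -/
theorem max_principle {P : Type u} [Preorder P] (Φ : Nm P → RO P) [Ext Φ] :
    ∃ x, ∀ p, (RO.ex Φ).s p → (Φ x).s p := by
  classical
  let S : Set (Set P) := {T | (∀ a ∈ T, ∃ x, (Φ x).s a) ∧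
    ∀ a ∈ T, ∀ b ∈ T, (∃ r, r ≤ a ∧ r ≤ b) → a = b}
  obtain ⟨T, hT⟩ : ∃ T, Maximal (· ∈ S) T := by
    apply zorn_subset
    intro C hC hch
    refine ⟨⋃₀ C, ⟨?_, ?_⟩, fun s hs => Set.subset_sUnion_of_mem hs⟩
    · rintro a ⟨t, ht, ha⟩
      exact (hC ht).1 a ha
    · rintro a ⟨t, ht, ha⟩ b ⟨t', ht', hb⟩ hab
      rcases hch.total ht ht' with h | h
      · exact (hC ht').2 a (h ha) b hb hab
      · exact (hC ht).2 a ha b (h hb) hab
  choose w hw using hT.prop.1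
  let J := {t : (Σ a : T, (w a.1 a.2).ι) × P // t.2 ≤ t.1.1.1 ∧ t.2 ≤ (w t.1.1.1 t.1.1.2).c t.1.2}
  let x : Nm P := Nm.mk J (fun t => (w t.1.1.1.1 t.1.1.1.2).A t.1.1.2) (fun t => t.1.2)
  have hx : ∀ a (ha : a ∈ T), FEq (w a ha) x a := by
    intro a ha
    rw [feq_iff]
    constructor
    · intro i q hq hc
      exact ⟨q, le_rfl, ⟨(⟨⟨a, ha⟩, i⟩, q), hq, hc⟩, le_rfl, FEq.refl _ _⟩
    · rintro ⟨⟨⟨⟨b, hb⟩, i⟩, t⟩, ht1, ht2⟩ q hq hc
      have hab : a = b := hT.prop.2 a ha b hb ⟨q, hq, le_trans hc ht1⟩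
      subst hab
      exact ⟨q, le_rfl, i, le_trans hc ht2, FEq.refl _ _⟩
  refine ⟨x, fun p hp => RO.reg fun q hq => ?_⟩
  obtain ⟨r, hr, y, hy⟩ := hp q hq
  have : ∃ a ∈ T, ∃ t, t ≤ a ∧ t ≤ r := by
    by_contra hcon
    push Not at hcon
    have hmem : insert r T ∈ S := by
      refine ⟨?_, ?_⟩
      · rintro a (rfl | ha)
        · exact ⟨y, hy⟩
        · exact ⟨_, hw a ha⟩
      · rintro a (rfl | ha) b (rfl | hb) ⟨t, h1, h2⟩
        · rfl
        · exact absurd h1 (hcon b hb t h2)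
        · exact absurd h2 (hcon a ha t h1)
        · exact hT.prop.2 a ha b hb ⟨t, h1, h2⟩
    have hr' : r ∈ T := hT.le_of_ge hmem (Set.subset_insert _ _) (Set.mem_insert _ _)
    exact hcon r hr' r le_rfl le_rfl
  obtain ⟨a, ha, t, hta, htr⟩ := this
  exact ⟨t, htr.trans hr, RO.mono (Ext.subst Φ (hx a ha) (hw a ha)) hta⟩

end Pool.Agent.Lib.MP_2739cb_lc
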